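import Pool.Agent.P.MP_6f117a_ag.M.Iface

/-! Step BASE on models and their reductions. -/

namespace Pool.Agent.P.MP_6f117a_ag.Mid

open MvPolynomial Filter Sp EX PJ Module

universe u

namespace BaseA

theorem basis {L K : Type u} [Field L] [Field K] [Algebra L K] {d N : ℕ} (y : Fin (N + 1) → K)
    (hg : IntermediateField.adjoin L (Set.range y) = ⊤) (hd : Algebra.trdeg L K = d) :
    ∃ e : Fin d → Fin (N + 1), IsTranscendenceBasis L fun i => y (e i) := by
  have h1 : Algebra.IsAlgebraic (IntermediateField.adjoin L (Set.range y)) K := by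
    refine ⟨fun a => ?_⟩
    have ha : a ∈ IntermediateField.adjoin L (Set.range y) := hg ▸ trivial
    exact isAlgebraic_algebraMap (⟨a, ha⟩ : IntermediateField.adjoin L (Set.range y))
  have h2 : Algebra.IsAlgebraic (Algebra.adjoin L (Set.range y)) K :=
    IntermediateField.isAlgebraic_adjoin_iff_top.1 h1
  obtain ⟨t, ht, hb⟩ := exists_isTranscendenceBasis_subset (R := L) (Set.range y)
  have hc : Cardinal.mk t = d := hb.cardinalMk_eq_trdeg.trans hd
  obtain ⟨φ⟩ := Cardinal.mk_eq_nat_iff.1 hc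
  choose e he using fun i : Fin d => ht (φ.symm i).2
  refine ⟨e, ?_⟩
  have : (fun i => y (e i)) = ((↑) : t → K) ∘ φ.symm := funext he
  rw [this]
  exact hb.comp_equiv φ.symm

end BaseA

theorem pBASE (L : Type u) [Field L] [IsAlgClosed L] [CharZero L]
    (hFB : S_FB L) :
    S_BASE L := by
  classical
  intro K _ _ d N z hz hg hd
  obtain ⟨c0, hc0⟩ := Function.ne_iff.1 hz
  have hc0 : z c0 ≠ 0 := hc0
  set y : Fin (N + 1) → K := fun a => (z c0)⁻¹ * z a with hy
  have y0 : y c0 = 1 := inv_mul_cancel₀ hc0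
  have gen : IntermediateField.adjoin L (Set.range y) = ⊤ := by
    refine top_le_iff.1 (hg ▸ IntermediateField.adjoin_le_iff.2 ?_)
    rintro _ ⟨i, j, rfl⟩
    have : z i / z j = y i / y j := (mul_div_mul_left _ _ (inv_ne_zero hc0)).symm
    rw [this]
    exact div_mem (IntermediateField.subset_adjoin _ _ ⟨i, rfl⟩)
      (IntermediateField.subset_adjoin _ _ ⟨j, rfl⟩)
  obtain ⟨e', hb⟩ := BaseA.basis y gen hd
  let e : Fin (d + 1) → Fin (N + 1) := Fin.cons c0 e'
  have he0 : e 0 = c0 := rfl
  have hes : ∀ i : Fin d, e i.succ = e' i := fun _ => rfl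
  have hinj : Function.Injective e := by
    refine Fin.cons_injective_iff.2 ⟨?_, fun i j h => hb.1.injective (by simp only [h])⟩
    rintro ⟨i, hi⟩
    refine hb.1.transcendental i ?_
    simp only [hi, y0]
    exact isAlgebraic_one
  have halg : Algebra.IsAlgebraic (Algebra.adjoin L (Set.range fun i : Fin d => y (e i.succ))) K :=
    hb.isAlgebraic
  have key : ∀ b, ∃ (f : MvPolynomial (Option (Fin (d + 1))) L) (n : ℕ), f.IsHomogeneous n ∧
      aeval (fun o : Option (Fin (d + 1)) => y (o.elim b e)) f = 0 ∧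
      aeval (fun o : Option (Fin (d + 1)) => y (o.elim b e)) (pderiv none f) ≠ 0 ∧
      ∀ i, e i = b → f = X none - X (some i) := by
    intro b
    by_cases h : ∃ i, e i = b
    · obtain ⟨i, rfl⟩ := h
      refine ⟨X none - X (some i), 1, (isHomogeneous_X _ _).sub (isHomogeneous_X _ _), by simp,
        by simp [pderiv_X], fun j hj => by rw [hinj hj]⟩
    · obtain ⟨f, n, h1, h2, h3⟩ := hFB K d (fun i => y (e i)) (y b) y0 hb.1 (halg.isAlgebraic _)
      have hE : (fun o : Option (Fin (d + 1)) => o.elim (y b) fun i => y (e i)) =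
          fun o : Option (Fin (d + 1)) => y (o.elim b e) := by
        funext o; cases o <;> rfl
      rw [hE] at h2 h3
      exact ⟨f, n, h1, h2, h3, fun i hi => absurd ⟨i, hi⟩ h⟩
  choose f df h1 h2 h3 h4 using key
  exact ⟨⟨y, e, f, df, h1, fun i => h4 _ i rfl, y0, h2, h3, hb.1, gen, halg⟩, (z c0)⁻¹,
    inv_ne_zero hc0, rfl⟩

end Pool.Agent.P.MP_6f117a_ag.Mid
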