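import Pool.Agent.P.MP_6f117a_ag.M.Iface

/-! Step CONE on models and their reductions. -/

namespace Pool.Agent.P.MP_6f117a_ag.Mid

open MvPolynomial Filter Sp EX PJ Module

universe u

theorem ConeA.scale {L σ : Type*} [CommRing L] {G : MvPolynomial σ L} {b : ℕ}
    (h : G.IsHomogeneous b) (t : L) (a : σ → L) :
    eval (fun i => t * a i) G = t ^ b * eval a G := by
  rw [eval_eq, eval_eq, Finset.mul_sum]
  refine Finset.sum_congr rfl fun m hm => ?_
  have e : ∑ i ∈ m.support, m i = b := by
    simpa [Finsupp.weight_apply, Finsupp.sum] using h (mem_support_iff.1 hm)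
  simp only [mul_pow, Finset.prod_mul_distrib, Finset.prod_pow_eq_pow_sum, e]
  ring

theorem pCONE (L : Type u) [Field L] [IsAlgClosed L] [CharZero L] :
    S_CONE L := by
  intro K _ _ d x h0 hx G b hG h
  have h1 : aeval (Fin.cons 1 X : Fin (d + 1) → MvPolynomial (Fin d) L) G = 0 := by
    refine hx.eq_zero_of_aeval_eq_zero _ ?_
    rw [← AlgHom.comp_apply, comp_aeval, ← h]
    congr 2
    funext i
    refine Fin.cases ?_ (fun j => ?_) i <;> simp [h0]
  have h2 : ∀ a : Fin (d + 1) → L, a 0 = 1 → eval a G = 0 := fun a ha => by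
    have := congrArg (aeval fun i : Fin d => a i.succ) h1
    rw [← AlgHom.comp_apply, comp_aeval, map_zero, aeval_eq_eval] at this
    rw [← this]
    congr 2
    funext i
    refine Fin.cases ?_ (fun j => ?_) i <;> simp [ha]
  have h3 : X 0 * G = 0 := MvPolynomial.funext fun a => by
    rw [map_mul, eval_X, map_zero]
    rcases eq_or_ne (a 0) 0 with ha | ha
    · rw [ha, zero_mul]
    · have e : a = fun i => a 0 * ((a 0)⁻¹ * a i) := funext fun i => by
        rw [mul_inv_cancel_left₀ ha]
      rw [e, ConeA.scale hG, h2 _ (inv_mul_cancel₀ ha), mul_zero, mul_zero]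
  exact (mul_eq_zero.1 h3).resolve_left (X_ne_zero 0)

end Pool.Agent.P.MP_6f117a_ag.Mid
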