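import Pool.Agent.P.MP_6f117a_ag.M.Iface
import Pool.Agent.P.MP_6f117a_ag.E.Dimu

/-! Step DIM on models and their reductions. -/

namespace Pool.Agent.P.MP_6f117a_ag.Mid

open MvPolynomial Filter Sp EX PJ Module

universe u

namespace DimA

theorem mem_PW {k A : Type u} [Field k] [Field A] [Algebra k A] {d δ c : ℕ}
    (z : Option (Fin d) → A) (a : MvPolynomial (Option (Fin d)) k)
    (h1 : ∀ m ∈ a.support, m none < δ) (h2 : a.totalDegree ≤ c) :
    aeval z a ∈ PW k (fun i => z (some i)) (z none) δ c := by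
  rw [a.as_sum, map_sum]
  refine sum_mem fun m hm => ?_
  rw [aeval_monomial, ← Algebra.smul_def]
  refine Submodule.smul_mem _ _ (Submodule.subset_span ⟨fun i => m (some i), m none, ?_, h1 m hm, ?_⟩)
  · have := (le_totalDegree hm).trans h2
    rw [Finsupp.sum_fintype _ _ fun _ => rfl, Fintype.sum_option] at this
    exact le_trans (Nat.le_add_left _ _) this
  · rw [Finsupp.prod_fintype _ _ fun _ => pow_zero _, Fintype.prod_option, mul_comm]

theorem PW_mono {k A : Type u} [Field k] [Field A] [Algebra k A] {d δ c c' : ℕ} {x : Fin d → A}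
    {w : A} (h : c ≤ c') : PW k x w δ c ≤ PW k x w δ c' :=
  Submodule.span_mono fun _ ⟨a, j, h1, h2, h3⟩ => ⟨a, j, h1.trans h, h2, h3⟩

variable {L K : Type u} [Field L] [Field K] [Algebra L K] {d N r : ℕ} (D : MD L K d N r)

theorem exists_red (a : MvPolynomial (Option (Fin d)) L) :
    ∃ b : MvPolynomial (Option (Fin d)) L, (∀ m ∈ b.support, m none < D.R.δ) ∧
      aeval (xw D.Q.e D.R.l D.Q.y) b = aeval (xw D.Q.e D.R.l D.Q.y) a := by
  let E := optionEquivLeft L (Fin d)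
  refine ⟨E.symm (E a %ₘ E D.R.Pm), ?_, ?_⟩
  · rw [← degreeOf_lt_iff D.R.pos, ← natDegree_optionEquivLeft, ← D.R.deg]
    rw [show optionEquivLeft L (Fin d) (E.symm (E a %ₘ E D.R.Pm)) = E a %ₘ E D.R.Pm from
      E.apply_symm_apply _]
    refine Polynomial.natDegree_modByMonic_lt _ D.R.monic fun h => ?_
    have h1 := D.R.deg
    have h2 := D.R.pos
    rw [h, Polynomial.natDegree_one] at h1
    omega
  · rw [← sub_eq_zero, ← map_sub, D.R.ker]
    have := map_dvd E.symm (Polynomial.dvd_modByMonic_sub (E a) (E D.R.Pm))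
    rwa [map_sub, E.symm_apply_apply, E.symm_apply_apply] at this

theorem ev_pi_xw : ∀ᶠ G in gF D, ∀ o, G.pi (xw D.Q.e D.R.l D.Q.y o) = G.xw o := by
  filter_upwards [ev_pi_y, ev_pi_poly D.R.l] with G h1 h2
  rintro (_ | i)
  exacts [h2, h1 _]

theorem ev_PW (a : MvPolynomial (Option (Fin d)) L) : ∃ c : ℕ, ∀ᶠ G in gF D,
    G.pi (aeval (xw D.Q.e D.R.l D.Q.y) a) ∈ PW G.k G.x (G.xw none) D.R.δ c := by
  obtain ⟨b, h1, h2⟩ := exists_red D a
  refine ⟨b.totalDegree, ?_⟩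
  filter_upwards [ev_pi_aeval (xw D.Q.e D.R.l D.Q.y) b, ev_pi_xw D] with G e1 e2
  rw [← h2, e1, funext e2]
  exact mem_PW G.xw _ (fun m hm => h1 m (G.ω.support_red0 b hm)) (G.ω.totalDegree_red0 b)

theorem exists_den {ι : Type} [Finite ι] (g : ι → K) : ∃ Δ : K, Δ ≠ 0 ∧
    ∀ s, ∃ a : MvPolynomial (Option (Fin d)) L, Δ * g s = aeval (xw D.Q.e D.R.l D.Q.y) a := by
  classical
  cases nonempty_fintype ι
  choose Δ a h1 h2 using fun s => D.R.pres (g s)
  refine ⟨∏ s, aeval D.Q.x (Δ s), Finset.prod_ne_zero_iff.2 fun s _ h =>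
    h1 s (algebraicIndependent_iff.1 D.Q.indx _ h), fun s =>
      ⟨rename some (∏ t ∈ Finset.univ.erase s, Δ t) * a s, ?_⟩⟩
  rw [← Finset.prod_erase_mul _ _ (Finset.mem_univ s), mul_assoc, h2, map_mul, aeval_rename,
    map_prod]
  rfl

end DimA

open DimA in
theorem pDIM (L : Type u) [Field L] [IsAlgClosed L] [CharZero L] :
    S_DIM L := by
  intro K _ _ d N r D
  obtain ⟨Δ, hΔ, h⟩ := exists_den D (Function.uncurry (gs D.Q.J D.Q.y D.h))
  choose a ha using h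
  choose c hc using fun s => ev_PW D (a s)
  obtain ⟨c₀, h₀⟩ := ev_PW D (X none ^ D.R.δ)
  obtain ⟨c₁, h₁⟩ := (Set.finite_range c).bddAbove
  refine ⟨D.R.δ * (c₁ + D.R.δ * c₀ + 1) ^ d, ?_⟩
  filter_upwards [eventually_all.2 hc, h₀, ev_pi_ne hΔ, ev_pi_gs, ev_pi_xw D,
    ev_pi_pow (xw D.Q.e D.R.l D.Q.y none) D.R.δ,
    eventually_all.2 fun s => ev_pi_mul Δ (Function.uncurry (gs D.Q.J D.Q.y D.h) s)]
    with G e1 e2 e3 e4 e5 e6 e7
  rw [map_pow, aeval_X, e6, e5] at e2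
  refine pDIMU G.k G.K1 d D.R.δ c₁ c₀ G.x (G.xw none) (G.pi Δ) _ e3 D.R.pos e2 fun s hs => ?_
  induction hs using Submodule.span_induction with
  | mem s hs =>
    obtain ⟨s, rfl⟩ := hs
    have := e1 s
    rw [← ha, e7] at this
    rw [show Function.uncurry (gs G.J G.y G.h) s = _ from (e4 s.1 s.2).symm]
    exact PW_mono (h₁ ⟨s, rfl⟩) this
  | zero => simp
  | add _ _ _ _ h1 h2 => rw [mul_add]; exact add_mem h1 h2
  | smul r s _ h1 => rw [mul_smul_comm]; exact Submodule.smul_mem _ _ h1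

end Pool.Agent.P.MP_6f117a_ag.Mid
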