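import Pool.Agent.P.MP_6f117a_ag.M.Iface

/-! Step FAM on models and their reductions. -/

namespace Pool.Agent.P.MP_6f117a_ag.Mid

open MvPolynomial Filter Sp EX PJ Module

universe u

theorem pFAM (L : Type u) [Field L] [IsAlgClosed L] [CharZero L] :
    S_FAM L := by
  intro K _ _ d N r D
  refine eventually_all.2 fun i => ?_
  obtain ⟨g, w, hw, h1, h2⟩ := D.fam i
  filter_upwards [ev_pi_ne (D := D) hw, ev_pi_gs (D := D),
    eventually_all.2 fun j => ev_pi_poly (D := D) (D.F.h g j),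
    eventually_all.2 fun a => ev_pi_mul (D := D) w (gs D.Q.J D.Q.y D.h i a),
    eventually_all.2 fun a => ev_pi_eq_zero (D := D) (gs D.Q.J D.Q.y D.h i a)]
    with G e1 e2 e3 e4 e5
  refine ⟨g, G.pi w, e1, fun j => ?_, fun a ha => ?_⟩
  · obtain ⟨a, h⟩ := h1 j
    exact ⟨a, by rw [← e3, h, e4, e2]⟩
  · obtain ⟨j, h⟩ := h2 a fun h0 => ha (by rw [← e2, e5, h0])
    exact ⟨j, by rw [← e3, h, e4, e2]⟩

end Pool.Agent.P.MP_6f117a_ag.Mid
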