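import Pool.Agent.P.MP_6f117a_ag.M.Iface

/-! Step FB on models and their reductions. -/

namespace Pool.Agent.P.MP_6f117a_ag.Mid

open MvPolynomial Filter Sp EX PJ Module

universe u

namespace FbA

theorem oel_der {R σ : Type*} [CommRing R] (a : MvPolynomial (Option σ) R) :
    optionEquivLeft R σ (pderiv none a) = Polynomial.derivative (optionEquivLeft R σ a) := by
  classical
  induction a using MvPolynomial.induction_on with
  | C r => simp [optionEquivLeft_C]
  | add p q hp hq => simp [hp, hq]
  | mul_X p o hp =>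
    cases o with
    | none => simp [hp, optionEquivLeft_X_none, mul_comm, add_comm]
    | some i => simp [hp, optionEquivLeft_X_some, mul_comm]

theorem oel_eval {R σ K : Type*} [CommRing R] [CommRing K] [Algebra R K] (x : σ → K) (b : K)
    (a : MvPolynomial (Option σ) R) :
    aeval (fun o : Option σ => o.elim b x) a =
      Polynomial.eval₂ (aeval (R := R) x).toRingHom b (optionEquivLeft R σ a) := by
  induction a using MvPolynomial.induction_on with
  | C r => simp [optionEquivLeft_C]
  | add p q hp hq => simp only [map_add, hp, hq, Polynomial.eval₂_add]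
  | mul_X p o hp =>
    rw [map_mul, map_mul, Polynomial.eval₂_mul, hp]
    cases o with
    | none => simp [optionEquivLeft_X_none]
    | some i => simp [optionEquivLeft_X_some]

theorem exists_sep {R K : Type*} [CommRing R] [IsDomain R] [CharZero R] [CommRing K] (φ : R →+* K)
    (hφ : Function.Injective φ) (b : K) (h : ∃ g : Polynomial R, g ≠ 0 ∧ g.eval₂ φ b = 0) :
    ∃ g : Polynomial R, g.eval₂ φ b = 0 ∧ (Polynomial.derivative g).eval₂ φ b ≠ 0 := by
  classical
  have h' : ∃ n, ∃ g : Polynomial R, g.natDegree = n ∧ g ≠ 0 ∧ g.eval₂ φ b = 0 :=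
    let ⟨g, hg⟩ := h; ⟨_, g, rfl, hg⟩
  obtain ⟨g, hn, h0, hg⟩ := Nat.find_spec h'
  have hd : g.natDegree ≠ 0 := by
    intro hd
    rw [Polynomial.eq_C_of_natDegree_eq_zero hd, Polynomial.eval₂_C] at hg
    apply h0
    rw [Polynomial.eq_C_of_natDegree_eq_zero hd, hφ (hg.trans (map_zero φ).symm), map_zero]
  refine ⟨g, hg, fun he => ?_⟩
  have h1 : Polynomial.derivative g ≠ 0 := fun h1 => hd (Polynomial.derivative_eq_zero.1 h1)
  exact Nat.find_min h' (hn ▸ Polynomial.natDegree_derivative_lt hd) ⟨_, rfl, h1, he⟩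

end FbA

open FbA in
theorem pFB (L : Type u) [Field L] [IsAlgClosed L] [CharZero L] :
    S_FB L := by
  classical
  intro K _ _ d x b h0 hi hb
  obtain ⟨p, hp, hpb⟩ := hb
  obtain ⟨g, hg, hg'⟩ := exists_sep (aeval (R := L) fun i : Fin d => x i.succ).toRingHom hi b
    ⟨p.map hi.aevalEquiv.symm.toRingEquiv.toRingHom,
      (Polynomial.map_ne_zero_iff hi.aevalEquiv.symm.injective).2 hp, by
      rw [Polynomial.eval₂_map, ← hpb, Polynomial.aeval_def]
      congr 1
      ext a
      obtain ⟨a, rfl⟩ := hi.aevalEquiv.surjective a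
      simp [AlgebraicIndependent.algebraMap_aevalEquiv]⟩
  obtain ⟨a, rfl⟩ := (optionEquivLeft L (Fin d)).surjective g
  rw [← oel_eval] at hg
  rw [← oel_der, ← oel_eval] at hg'
  have hinj : Function.Injective (Option.map (Fin.succ : Fin d → Fin (d + 1))) :=
    Option.map_injective (Fin.succ_injective d)
  have hc : (fun o : Option (Fin (d + 1)) => o.elim b x) ∘ Option.map Fin.succ =
      fun o : Option (Fin d) => o.elim b fun i => x i.succ := by
    funext o; cases o <;> rfl
  obtain ⟨f, c, hf, e⟩ := exists_hom (some 0) (rename (Option.map Fin.succ) a) _ le_rfl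
  refine ⟨f, _, hf, ?_, ?_⟩
  · rw [e, map_add, aeval_rename, hc, hg]
    simp [h0]
  · have : pderiv none (rename (Option.map Fin.succ) a) =
        rename (Option.map (Fin.succ : Fin d → Fin (d + 1))) (pderiv none a) :=
      pderiv_rename hinj none a
    rw [e, map_add, map_add, this, aeval_rename, hc]
    simpa [h0] using hg'

end Pool.Agent.P.MP_6f117a_ag.Mid
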