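import Pool.Agent.P.MP_6f117a_ag.M.Iface

/-! Step FIN on models and their reductions. -/

namespace Pool.Agent.P.MP_6f117a_ag.Mid

open MvPolynomial Filter Sp EX PJ Module

universe u

namespace FinA

variable {k E : Type*} [Field k] [Field E] [Algebra k E] {σ : Type}

theorem ev_oel (z : Option σ → E) (F : IntermediateField k E) (hF : ∀ i, z (some i) ∈ F)
    (P : MvPolynomial (Option σ) k) :
    Polynomial.aeval (z none) ((optionEquivLeft k σ P).map
      (aeval (R := k) fun i => (⟨z (some i), hF i⟩ : F)).toRingHom) = aeval z P := by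
  induction P using MvPolynomial.induction_on with
  | C a => simp
  | add a b ha hb => simp only [map_add, Polynomial.map_add, ha, hb]
  | mul_X a i ha =>
    rw [map_mul, Polynomial.map_mul, map_mul, ha, map_mul]
    cases i <;> simp

theorem key (z : Option σ → E) (P : MvPolynomial (Option σ) k)
    (hm : (optionEquivLeft k σ P).Monic) (h0 : aeval z P = 0)
    (hg : IntermediateField.adjoin k (Set.range z) = ⊤) (F : IntermediateField k E)
    (hF : ∀ i, z (some i) ∈ F) :
    FiniteDimensional F E ∧ finrank F E ≤ (optionEquivLeft k σ P).natDegree := by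
  have h1 := (ev_oel z F hF P).trans h0
  have h2 := hm.map (aeval (R := k) fun i => (⟨z (some i), hF i⟩ : F)).toRingHom
  have h3 : IsIntegral F (z none) := ⟨_, h2, h1⟩
  have h4 : IntermediateField.adjoin F {z none} = ⊤ := by
    rw [← IntermediateField.restrictScalars_eq_top_iff (K := k), eq_top_iff, ← hg,
      IntermediateField.adjoin_le_iff]
    rintro _ ⟨_ | i, rfl⟩
    · exact IntermediateField.mem_adjoin_simple_self F _
    · exact (IntermediateField.adjoin F {z none}).algebraMap_mem ⟨_, hF i⟩
  have h5 := IntermediateField.adjoin.finiteDimensional h3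
  have h6 := IntermediateField.adjoin.finrank h3
  rw [h4] at h5 h6
  refine ⟨IntermediateField.topEquiv.toLinearEquiv.finiteDimensional, ?_⟩
  rw [← IntermediateField.finrank_top', h6]
  exact (Polynomial.natDegree_le_of_dvd (minpoly.dvd _ _ h1) h2.ne_zero).trans
    Polynomial.natDegree_map_le

end FinA

theorem pFIN (L : Type u) [Field L] [IsAlgClosed L] [CharZero L] :
    S_FIN L := by
  intro K _ _ d N r D
  filter_upwards [ev_g (ev_monic D.R.monic)] with G ⟨h1, h2⟩
  have h0 := (G.ker _).2 dvd_rfl
  obtain ⟨h3, h4⟩ := FinA.key _ _ h1 h0 G.gen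
    (IntermediateField.adjoin G.k (Set.range fun i => G.y (D.Q.e i)))
    fun i => IntermediateField.subset_adjoin _ _ ⟨i.succ, rfl⟩
  obtain ⟨h5, -⟩ := FinA.key _ _ h1 h0 G.gen (IntermediateField.adjoin G.k (Set.range G.x))
    fun i => IntermediateField.subset_adjoin _ _ ⟨i, rfl⟩
  exact ⟨h3, by rwa [h2, D.R.deg] at h4,
    IntermediateField.isAlgebraic_adjoin_iff_top.1 (Algebra.IsAlgebraic.of_finite _ _)⟩

end Pool.Agent.P.MP_6f117a_ag.Mid
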