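import Pool.Agent.P.MP_6f117a_ag.M.Iface

/-! Step FORMS on models and their reductions. -/

namespace Pool.Agent.P.MP_6f117a_ag.Mid

open MvPolynomial Filter Sp EX PJ Module

universe u

theorem pFORMS (L : Type u) [Field L] [IsAlgClosed L] [CharZero L] :
    S_FORMS L := by
  intro K _ _ d N Q κ _ g
  classical
  cases nonempty_fintype κ
  let T : κ → MvPolynomial (Fin (N + 1)) L := fun a =>
    Q.num (g a) * ∏ a' ∈ Finset.univ.erase a, Q.den (g a')
  choose H c hH e using fun a => exists_hom (Q.e 0) (T a)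
    (Finset.univ.sup fun a => (T a).totalDegree)
    (Finset.le_sup (f := fun a => (T a).totalDegree) (Finset.mem_univ a))
  refine ⟨∏ a, aeval Q.y (Q.den (g a)), _, H,
    Finset.prod_ne_zero_iff.2 fun a _ => Q.den_ne _, hH, fun a => ?_⟩
  have h := (eq_div_iff (Q.den_ne (g a))).1 (Q.num_div (g a))
  rw [e, map_add, map_mul _ (c a), map_sub, aeval_X, Q.y0, map_one, sub_self, mul_zero, add_zero,
    map_mul, map_prod, ← h, ← Finset.mul_prod_erase _ _ (Finset.mem_univ a)]
  ring

end Pool.Agent.P.MP_6f117a_ag.Mid
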