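import Pool.Agent.P.MP_6f117a_ag.M.Iface
import Pool.Agent.P.MP_6f117a_ag.C.Locl

/-! Step GENX on models and their reductions. -/

namespace Pool.Agent.P.MP_6f117a_ag.Mid

open MvPolynomial Filter Sp EX PJ Module

universe u

namespace GenxA

theorem scal {σ R S : Type*} [CommRing R] [CommRing S] [Algebra R S] (c : S) (y : σ → S)
    {g : MvPolynomial σ R} {e : ℕ} (h : g.IsHomogeneous e) :
    aeval (fun i => c * y i) g = c ^ e * aeval y g := by
  rw [aeval_def, aeval_def, eval₂_eq, eval₂_eq, Finset.mul_sum]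
  refine Finset.sum_congr rfl fun m hm => ?_
  have : ∑ i ∈ m.support, m i = e := by
    simpa [Finsupp.weight_apply, Finsupp.sum] using h (mem_support_iff.1 hm)
  simp only [mul_pow, Finset.prod_mul_distrib, Finset.prod_pow_eq_pow_sum, this]
  ring

theorem bind {σ τ R S : Type*} [CommRing R] [CommRing S] [Algebra R S] (u : τ → S)
    (a : σ → MvPolynomial τ R) (g : MvPolynomial σ R) :
    aeval u (aeval a g) = aeval (fun b => aeval u (a b)) g := by
  rw [← AlgHom.comp_apply, comp_aeval]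

variable {L K : Type u} [Field L] [Field K] [Algebra L K] {d N r : ℕ}

/-- The coordinates in terms of the affine coordinates and the primitive element. -/
noncomputable def yy (ω : Spec L) (Δ : MvPolynomial (Fin d) L)
    (a : Fin (N + 1) → MvPolynomial (Option (Fin d)) L) {A : Type} [Field A] [Algebra (kk ω.p) A]
    (u : Option (Fin d) → A) (b : Fin (N + 1)) : A :=
  aeval u (ω.red0 (a b)) / aeval u (ω.red0 (rename some Δ))

variable {D : MD L K d N r} {Δ : MvPolynomial (Fin d) L}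
  {a : Fin (N + 1) → MvPolynomial (Option (Fin d)) L}
  (ha : ∀ b, aeval D.Q.x Δ * D.Q.y b = aeval (xw D.Q.e D.R.l D.Q.y) (a b))

include ha

theorem key {g : MvPolynomial (Fin (N + 1)) L} {n : ℕ} (hg : g.IsHomogeneous n)
    {A B : MvPolynomial (Option (Fin d)) L}
    (h : aeval (xw D.Q.e D.R.l D.Q.y) A * aeval D.Q.y g = aeval (xw D.Q.e D.R.l D.Q.y) B) :
    ∀ᶠ ω in spF L, ∀ (Ω : Type) [Field Ω] [Algebra (kk ω.p) Ω] (u : Option (Fin d) → Ω),
      aeval u (ω.red0 D.R.Pm) = 0 → aeval u (ω.red0 (rename some Δ)) ≠ 0 →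
        aeval u (ω.red0 A) * aeval (yy ω Δ a u) (ω.red0 g) = aeval u (ω.red0 B) := by
  have hd : D.R.Pm ∣ A * aeval a g - B * rename some Δ ^ n := (D.R.ker _).1 (by
    rw [map_sub, map_mul, map_mul, map_pow, aeval_rename, bind, ← funext ha, scal _ _ hg, ← h]
    have e : xw D.Q.e D.R.l D.Q.y ∘ some = D.Q.x := rfl
    rw [e]
    ring)
  filter_upwards [ev_red0_dvd hd, ev_red0_sub (A * aeval a g) (B * rename some Δ ^ n),
    ev_red0_mul A (aeval a g), ev_red0_mul B (rename some Δ ^ n), ev_red0_pow (rename some Δ) n,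
    ev_red0_bind a g] with ω ⟨c, h1⟩ h2 h3 h4 h5 h6 Ω _ _ u hu hΔ
  have h7 := congrArg (aeval u) h1
  rw [h2, h3, h4, h5, h6, map_sub, map_mul, map_mul, map_mul, map_pow, hu, zero_mul, bind] at h7
  have e : (fun b => aeval u (ω.red0 (a b))) =
      fun b => aeval u (ω.red0 (rename some Δ)) * yy ω Δ a u b :=
    funext fun b => (mul_div_cancel₀ _ hΔ).symm
  rw [e, scal _ _ (ω.hom_red0 hg)] at h7
  refine mul_left_cancel₀ (pow_ne_zero n hΔ) ?_
  linear_combination h7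

theorem key0 : ∀ᶠ ω in spF L, ∀ (Ω : Type) [Field Ω] [Algebra (kk ω.p) Ω]
    (u : Option (Fin d) → Ω), aeval u (ω.red0 D.R.Pm) = 0 →
      aeval u (ω.red0 (rename some Δ)) ≠ 0 → yy ω Δ a u (D.Q.e 0) = 1 := by
  filter_upwards [key ha (isHomogeneous_X L (D.Q.e 0)) (A := 1) (B := 1) (by simp [D.Q.y0])]
    with ω h Ω _ _ u hu hΔ
  simpa [red0_one, red0_X] using h Ω u hu hΔ

theorem key1 (g : MvPolynomial (Fin (N + 1)) L) {A B : MvPolynomial (Option (Fin d)) L}
    (h : aeval (xw D.Q.e D.R.l D.Q.y) A * aeval D.Q.y g = aeval (xw D.Q.e D.R.l D.Q.y) B) :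
    ∀ᶠ ω in spF L, ∀ (Ω : Type) [Field Ω] [Algebra (kk ω.p) Ω] (u : Option (Fin d) → Ω),
      aeval u (ω.red0 D.R.Pm) = 0 → aeval u (ω.red0 (rename some Δ)) ≠ 0 →
        aeval u (ω.red0 A) * aeval (yy ω Δ a u) (ω.red0 g) = aeval u (ω.red0 B) := by
  obtain ⟨g', c, hg, e⟩ := exists_hom (D.Q.e 0) g _ le_rfl
  filter_upwards [key ha hg (A := A) (B := B) (by simpa [e, D.Q.y0] using h), key0 ha,
    ev_red0_add g (c * (X (D.Q.e 0) - 1)), ev_red0_mul c (X (D.Q.e 0) - 1),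
    ev_red0_sub (X (D.Q.e 0)) 1] with ω h1 h2 h3 h4 h5 Ω _ _ u hu hΔ
  have h6 := h1 Ω u hu hΔ
  rw [e, h3, h4, h5, red0_X, red0_one] at h6
  simpa [h2 Ω u hu hΔ] using h6

end GenxA

open GenxA in
theorem pGENX (L : Type u) [Field L] [IsAlgClosed L] [CharZero L]
    (hIRR : S_IRR L) :
    S_GENX L := by
  intro K _ _ d N r D
  obtain ⟨Δ, a, S, ha, hS⟩ := D.uΔ
  have hΔ : Δ ≠ 0 := by
    rintro rfl
    exact D.del (by rw [← hS, map_zero, mul_zero])
  obtain ⟨Δ', a', hΔ', ha'⟩ := D.R.pres (aeval D.Q.y D.Del)⁻¹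
  have hP : Prime D.R.Pm := by
    have h0 : D.R.Pm ≠ 0 := fun h => D.R.monic.ne_zero (by rw [h, map_zero])
    refine (Ideal.span_singleton_prime h0).1 ?_
    have : Ideal.span {D.R.Pm} = RingHom.ker (aeval (xw D.Q.e D.R.l D.Q.y)) :=
      Ideal.ext fun b => Ideal.mem_span_singleton.trans (D.R.ker b).symm
    rw [this]
    exact RingHom.ker_isPrime _
  have k1 := fun c => key1 ha (D.Q.eq c) (A := 1) (B := 0) (by simp [D.Q.eq_zero])
  have k2 := fun o => key1 ha (xwP D.Q.e D.R.l o) (A := 1) (B := X o) (by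
    cases o <;> simp [xw, xwP])
  have k3 := key1 ha D.Del (A := a') (B := rename some Δ') (by
    rw [← ha', aeval_rename]
    exact inv_mul_cancel_right₀ D.del _)
  filter_upwards [hIRR _ _ hP.irreducible, ev_monic D.R.monic, ev_red0_ne hΔ, ev_red0_ne hΔ',
    ev_red0_rename some Δ, ev_red0_rename some Δ', key0 ha, eventually_all.2 k1,
    eventually_all.2 k2, k3] with ω h1 ⟨_, h2⟩ h3 h3' h4 h4' h5 h6 h7 h8
  have hI : (Ideal.span {ω.red0 D.R.Pm}).IsPrime :=
    (Ideal.span_singleton_prime h1.ne_zero).2 h1.prime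
  let R := MvPolynomial (Option (Fin d)) (kk ω.p) ⧸ Ideal.span {ω.red0 D.R.Pm}
  let Θ : MvPolynomial (Option (Fin d)) (kk ω.p) →ₐ[kk ω.p] FractionRing R :=
    (IsScalarTower.toAlgHom (kk ω.p) R (FractionRing R)).comp (Ideal.Quotient.mkₐ _ _)
  let u : Option (Fin d) → FractionRing R := fun o => Θ (X o)
  have hu : aeval u = Θ := algHom_ext fun o => aeval_X _ _
  have hΘ : ∀ b, Θ b = algebraMap R (FractionRing R) (Ideal.Quotient.mk _ b) := fun _ => rfl
  have hker : ∀ b, aeval u b = 0 ↔ ω.red0 D.R.Pm ∣ b := fun b => by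
    rw [hu, hΘ, map_eq_zero_iff _ (IsFractionRing.injective R _), Ideal.Quotient.eq_zero_iff_mem,
      Ideal.mem_span_singleton]
  have hne : ∀ b : MvPolynomial (Fin d) (kk ω.p), b ≠ 0 → aeval u (rename some b) ≠ 0 := by
    intro b hb h
    have h9 := map_dvd (optionEquivLeft (kk ω.p) (Fin d)) ((hker _).1 h)
    rw [oel_rename] at h9
    have := Polynomial.natDegree_le_of_dvd h9 (Polynomial.C_ne_zero.2 hb)
    have := D.R.pos
    rw [h2, D.R.deg, Polynomial.natDegree_C] at *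
    omega
  have h0 := (hker _).2 dvd_rfl
  have hd : aeval u (ω.red0 (rename some Δ)) ≠ 0 := h4 ▸ hne _ h3
  have hx : xw D.Q.e (ω.red0 D.R.l) (yy ω Δ a u) = u := by
    funext o
    have := h7 o _ u h0 hd
    cases o <;> simpa [red0_one, red0_X, xw, xwP] using this
  refine ⟨⟨ω, FractionRing R, yy ω Δ a u, ⟨h5 _ u h0 hd, fun c => ?_, fun h => ?_⟩, ?_, ?_⟩, rfl⟩
  · simpa [red0_one, red0_zero] using h6 c _ u h0 hd
  · have := h8 _ u h0 hd
    rw [h, mul_zero, h4'] at this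
    exact hne _ h3' this.symm
  · rw [hx]
    exact hker
  · rw [hx]
    refine eq_top_iff.2 fun z _ => (IntermediateField.mem_adjoin_range_iff _ _ _).2 ?_
    obtain ⟨p, q, -, rfl⟩ := IsFractionRing.div_surjective (A := R) z
    obtain ⟨p, rfl⟩ := Ideal.Quotient.mk_surjective p
    obtain ⟨q, rfl⟩ := Ideal.Quotient.mk_surjective q
    exact ⟨p, q, by rw [hu, hΘ, hΘ]⟩

end Pool.Agent.P.MP_6f117a_ag.Mid
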