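import Pool.Agent.P.MP_6f117a_ag.M.Iface

/-! Step IND on models and their reductions. -/

namespace Pool.Agent.P.MP_6f117a_ag.Mid

open MvPolynomial Filter Sp EX PJ Module

universe u

namespace IndA

variable {k K ι : Type*} [Field k] [Field K] [Algebra k K] {t x : ι → K}

theorem alg_iff {b : K} : IsAlgebraic (Algebra.adjoin k (Set.range t)) b ↔
    ∃ (n : ℕ) (c : ℕ → MvPolynomial ι k), ∑ j ∈ Finset.range n, aeval t (c j) * b ^ j = 0 ∧
      ∃ j < n, aeval t (c j) ≠ 0 := by
  constructor
  · rintro ⟨P, h0, h⟩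
    have : ∀ j, ∃ c : MvPolynomial ι k, aeval t c = (P.coeff j : K) := fun j =>
      (Algebra.adjoin_range_eq_range_aeval k t).le (P.coeff j).2
    choose c hc using this
    refine ⟨P.natDegree + 1, c, ?_, P.natDegree, Nat.lt_succ_self _, ?_⟩
    · rw [Polynomial.aeval_eq_sum_range] at h
      simp only [hc]
      exact h
    · rw [hc]; simpa using h0
  · rintro ⟨n, c, h, j, hj, h0⟩
    let a : ℕ → Algebra.adjoin k (Set.range t) := fun j =>
      ⟨aeval t (c j), (Algebra.adjoin_range_eq_range_aeval k t).ge ⟨c j, rfl⟩⟩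
    refine ⟨∑ i ∈ Finset.range n, Polynomial.monomial i (a i), fun e => h0 ?_, ?_⟩
    · have := congrArg (Polynomial.coeff · j) e
      simp only [Polynomial.finsetSum_coeff, Polynomial.coeff_monomial, Finset.sum_ite_eq',
        Finset.mem_range, hj, if_true, Polynomial.coeff_zero] at this
      exact congrArg Subtype.val this
    · simp only [map_sum, Polynomial.aeval_monomial]
      exact h

theorem ind_of [Finite ι] (hx : IsTranscendenceBasis k x)
    (h : ∀ i, IsAlgebraic (Algebra.adjoin k (Set.range t)) (x i)) : AlgebraicIndependent k t := by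
  have : Algebra.IsAlgebraic (Algebra.adjoin k (Set.range t)) K := ⟨fun b => by
    let C := Subalgebra.algebraicClosure (Algebra.adjoin k (Set.range t)) K
    have h1 : IsAlgebraic (C.restrictScalars k) b :=
      (hx.isAlgebraic.isAlgebraic b).tower_top_of_subalgebra_le
        (Algebra.adjoin_le (by rintro _ ⟨i, rfl⟩; exact h i))
    have h2 : IsAlgebraic C b := h1
    exact h2.restrictScalars _⟩
  exact (Algebra.IsAlgebraic.isTranscendenceBasis_of_lift_le_trdeg_of_finite k t
    hx.lift_cardinalMk_eq_trdeg.le).1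

end IndA

theorem pIND (L : Type u) [Field L] [IsAlgClosed L] [CharZero L]
    (hFIN : S_FIN L) :
    S_IND L := by
  intro K _ _ d N r D
  have h1 : IsTranscendenceBasis L D.Q.x :=
    D.Q.indx.isTranscendenceBasis_iff_isAlgebraic.2 D.Q.alg
  have h2 := D.plu.ind.isTranscendenceBasis_of_lift_trdeg_le_of_finite
    h1.lift_cardinalMk_eq_trdeg.ge
  choose n c h3 j hj h4 using fun i => IndA.alg_iff.1 (h2.isAlgebraic.isAlgebraic (D.Q.x i))
  set t := fun j : Fin d => D.h j.succ / D.h 0
  filter_upwards [hFIN K d N r D, ev_indx D, ev_pi_ne D.plu.h_ne, ev_pi_y, ev_pi_zero,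
    eventually_all.2 fun j : Fin d => ev_pi_div' (D.h j.succ) (D.h 0),
    eventually_all.2 fun i => ev_pi_ne (h4 i),
    eventually_all.2 fun i => ev_pi_sum (Finset.range (n i))
      fun j => aeval t (c i j) * D.Q.x i ^ j,
    eventually_all.2 fun i => (eventually_all_finset (Finset.range (n i))).2 fun j _ =>
      (ev_pi_mul (aeval t (c i j)) (D.Q.x i ^ j)).and
        ((ev_pi_pow (D.Q.x i) j).and (ev_pi_aeval t (c i j)))]
    with G e1 e2 e3 e4 e5 e6 e7 e8 e9
  have e : (fun i => G.pi (t i)) = fun j : Fin d => G.h j.succ / G.h 0 := funext e6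
  refine ⟨e3, IndA.ind_of (e2.isTranscendenceBasis_iff_isAlgebraic.2 e1.2.2) fun i =>
    IndA.alg_iff.2 ⟨n i, fun j => G.ω.red0 (c i j), ?_, j i, hj i, ?_⟩⟩
  · rw [← e5, ← h3 i, e8]
    refine Finset.sum_congr rfl fun j hj => ?_
    rw [(e9 i j hj).1, (e9 i j hj).2.1, (e9 i j hj).2.2, e, Pre.x, e4]; rfl
  · rw [← e, ← (e9 i _ (Finset.mem_range.2 (hj i))).2.2]; exact e7 i

end Pool.Agent.P.MP_6f117a_ag.Mid
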