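import Pool.Agent.P.MP_6f117a_ag.M.Iface
import Pool.Agent.P.MP_6f117a_ag.C.Null

/-! Step IRR on models and their reductions. -/

namespace Pool.Agent.P.MP_6f117a_ag.Mid

open MvPolynomial Filter Sp EX PJ Module

universe u

namespace IrrA

variable {σ : Type} (s : Finset (σ →₀ ℕ)) {R S : Type*} [CommRing R] [CommRing S]

/-- The polynomial with prescribed coefficients. -/
noncomputable def ipol (ξ : Bool × s → R) (b : Bool) : MvPolynomial σ R :=
  ∑ m : s, monomial m.1 (ξ (b, m))

/-- The equations for a factorisation. -/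
noncomputable def ieqn (F : MvPolynomial σ R) (m : σ →₀ ℕ) : MvPolynomial (Bool × s) R :=
  coeff m (ipol s X false * ipol s X true - MvPolynomial.map C F)

theorem map_pol (φ : R →+* S) (ξ : Bool × s → R) (b : Bool) :
    MvPolynomial.map φ (ipol s ξ b) = ipol s (fun i => φ (ξ i)) b := by
  simp only [ipol, map_sum, map_monomial]

theorem map_eqn (φ : R →+* S) (F : MvPolynomial σ R) (m : σ →₀ ℕ) :
    MvPolynomial.map φ (ieqn s F m) = ieqn s (MvPolynomial.map φ F) m := by
  rw [ieqn, ieqn, ← coeff_map, map_sub, map_mul, map_pol, map_pol, MvPolynomial.map_map,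
    MvPolynomial.map_map]
  have : (MvPolynomial.map φ : MvPolynomial (Bool × s) R →+* _).comp C = C.comp φ := RingHom.ext (map_C φ)
  simp only [map_X, this]

theorem eval_eqn (ξ : Bool × s → R) (F : MvPolynomial σ R) (m : σ →₀ ℕ) :
    eval ξ (ieqn s F m) = coeff m (ipol s ξ false * ipol s ξ true - F) := by
  rw [ieqn, ← coeff_map, map_sub, map_mul, map_pol, map_pol, MvPolynomial.map_map]
  have : (eval ξ).comp C = RingHom.id R := RingHom.ext fun a => eval_C a
  simp only [eval_X, this, MvPolynomial.map_id]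

theorem pol_eq (G : Bool → MvPolynomial σ R) (b : Bool) (h : (G b).support ⊆ s) :
    ipol s (fun i => coeff i.2.1 (G i.1)) b = G b := by
  rw [ipol, Finset.sum_coe_sort s fun m => monomial m (coeff m (G b)), ← Finset.sum_subset h,
    ← as_sum]
  intro m _ hm
  rw [notMem_support_iff.1 hm, map_zero]

theorem deg_pos {k : Type*} [Field k] {F : MvPolynomial σ k} (h0 : F ≠ 0) (h : ¬ IsUnit F) :
    0 < F.totalDegree := by
  refine Nat.pos_of_ne_zero fun e => h ?_
  rw [totalDegree_eq_zero_iff_eq_C] at e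
  rw [e] at h0 ⊢
  exact (IsUnit.mk0 _ fun e' => h0 (by rw [e', map_zero])).map C

end IrrA

open IrrA in
theorem pIRR (L : Type u) [Field L] [IsAlgClosed L] [CharZero L] :
    S_IRR L := by
  intro σ _ F hF
  have hn := deg_pos hF.ne_zero hF.not_isUnit
  obtain ⟨s, hs⟩ : ∃ s : Finset (σ →₀ ℕ), ∀ m, m ∈ s ↔ (m.sum fun _ e => e) < F.totalDegree :=
    ⟨(Finsupp.finite_of_degree_lt F.totalDegree).toFinset, fun m => Set.Finite.mem_toFinset _⟩
  have h1 : ∀ ξ : Bool × s → L, ∃ m, eval ξ (ieqn s F m) ≠ 0 := by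
    intro ξ
    by_contra hc
    push Not at hc
    have e : F = ipol s ξ false * ipol s ξ true :=
      (sub_eq_zero.1 (MvPolynomial.ext _ _ fun m => (eval_eqn s ξ F m).symm.trans (hc m))).symm
    have hd : ∀ b, (ipol s ξ b).totalDegree < F.totalDegree := fun b =>
      (totalDegree_finsetSum _ _).trans_lt ((Finset.sup_lt_iff hn).2 fun m _ =>
        (totalDegree_monomial_le _ _).trans_lt ((hs _).1 m.2))
    have h0 := mul_ne_zero_iff.1 (e ▸ hF.ne_zero)
    have h2 := (congrArg totalDegree e).trans (totalDegree_mul_of_isDomain h0.1 h0.2)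
    have h3 := hd false
    have h4 := hd true
    rcases hF.isUnit_or_isUnit e with h | h <;>
      have := (isUnit_iff_totalDegree_of_isReduced.1 h).2 <;> omega
  filter_upwards [pNULL L _ _ (ieqn s F) h1, ev_lift F, ev_support_red0 F, ev_red0_ne hF.ne_zero]
    with ω h2 ⟨F', hF'⟩ h3 h4
  have hd : (ω.red0 F).totalDegree = F.totalDegree := by rw [totalDegree, h3, totalDegree]
  refine ⟨fun h => ?_, fun G H e => ?_⟩
  · have := (isUnit_iff_totalDegree_of_isReduced.1 h).2
    omega
  by_contra hc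
  rw [not_or] at hc
  have h0 := mul_ne_zero_iff.1 (e ▸ h4)
  have h5 := (congrArg totalDegree e).trans (totalDegree_mul_of_isDomain h0.1 h0.2)
  have h6 := deg_pos h0.1 hc.1
  have h7 := deg_pos h0.2 hc.2
  obtain ⟨m, hm⟩ := h2 (kk ω.p) fun i => coeff i.2.1 (cond i.1 H G)
  refine hm ?_
  rw [← hF', ← map_eqn, ω.red0_map, map_eqn, ← ω.red0_map, hF', aeval_eq_eval, eval_eqn,
    pol_eq s (fun b => cond b H G) false, pol_eq s (fun b => cond b H G) true, e]
  · exact congrArg (coeff m) (sub_self _)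
  · exact fun m hm => (hs m).2 ((le_totalDegree hm).trans_lt (by change H.totalDegree < _; omega))
  · exact fun m hm => (hs m).2 ((le_totalDegree hm).trans_lt (by change G.totalDegree < _; omega))

end Pool.Agent.P.MP_6f117a_ag.Mid
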