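import Pool.Agent.P.MP_6f117a_ag.M.Iface

/-! Step JAC on models and their reductions. -/

namespace Pool.Agent.P.MP_6f117a_ag.Mid

open MvPolynomial Filter Sp EX PJ Module

universe u

namespace JacA

variable {L K : Type u} [Field L] [Field K] [Algebra L K] {d N : ℕ}

theorem chain {σ : Type} [Fintype σ] (D : Derivation L K K) (v : σ → K) (G : MvPolynomial σ L) :
    D (aeval v G) = ∑ b, aeval v (pderiv b G) * D (v b) := by
  classical
  induction G using MvPolynomial.induction_on with
  | C c => simp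
  | add f g hf hg => simp [hf, hg, add_mul, Finset.sum_add_distrib]
  | mul_X f a hf =>
    simp [hf, add_mul, Finset.sum_add_distrib, Finset.mul_sum, pderiv_X, Pi.single_apply,
      apply_ite, mul_assoc]

theorem euler {σ : Type} [Fintype σ] (v : σ → K) {G : MvPolynomial σ L} {e : ℕ}
    (hG : G.IsHomogeneous e) (h : aeval v G = 0) : ∑ b, aeval v (pderiv b G) * v b = 0 := by
  have h2 := congrArg (aeval v) hG.sum_X_mul_pderiv
  simpa only [map_sum, map_mul, aeval_X, map_nsmul, h, smul_zero, mul_comm (v _)] using h2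

theorem scale {σ : Type} (c : K) (y : σ → K) {g : MvPolynomial σ L} {e : ℕ}
    (h : g.IsHomogeneous e) : aeval (fun i => c * y i) g = c ^ e * aeval y g := by
  rw [aeval_def, aeval_def, eval₂_eq, eval₂_eq, Finset.mul_sum]
  refine Finset.sum_congr rfl fun m hm => ?_
  have : ∑ i ∈ m.support, m i = e := by
    simpa [Finsupp.weight_apply, Finsupp.sum] using h (mem_support_iff.1 hm)
  simp only [mul_pow, Finset.prod_mul_distrib, Finset.prod_pow_eq_pow_sum, this]
  ring

variable (Q : Pre L K d N)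

theorem solve (b : Fin (N + 1)) (w : Fin (N + 1) → K)
    (h : ∑ o, aeval (fun o : Option (Fin (d + 1)) => Q.y (o.elim b Q.e)) (pderiv o (Q.f b)) *
      w (o.elim b Q.e) = 0) : w b = ∑ i, Q.J i b * w (Q.e i) := by
  have e : ∀ o, aeval (fun o : Option (Fin (d + 1)) => Q.y (o.elim b Q.e)) (pderiv o (Q.f b)) =
      aeval Q.y (Q.dq b o) := fun o => by rw [Pre.dq, aeval_rename]; rfl
  simp only [e, Fintype.sum_option, Option.elim_none, Option.elim_some] at h
  refine mul_left_cancel₀ (Q.dq_ne b) ?_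
  rw [eq_neg_of_add_eq_zero_left h, Finset.mul_sum, ← Finset.sum_neg_distrib]
  refine Finset.sum_congr rfl fun i _ => ?_
  linear_combination (-w (Q.e i)) * Q.J_mul i b

theorem der (D : Derivation L K K) (b : Fin (N + 1)) :
    D (Q.y b) = ∑ i, Q.J i b * D (Q.y (Q.e i)) :=
  solve Q b (fun a => D (Q.y a)) (by rw [← chain, Q.eqn, map_zero])

theorem eul (b : Fin (N + 1)) : Q.y b = ∑ i, Q.J i b * Q.y (Q.e i) :=
  solve Q b Q.y (euler _ (Q.f_hom b) (Q.eqn b))

theorem det_ne (D : Basis (Fin d) K (Derivation L K K)) :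
    (Matrix.of fun i j => D i (Q.x j)).det ≠ 0 := fun h => by
  obtain ⟨c, hc, h1⟩ := Matrix.exists_vecMul_eq_zero_iff.2 h
  refine hc (funext (Fintype.linearIndependent_iff.1 D.linearIndependent c ?_))
  generalize hD : ∑ i, c i • D i = D'
  have h2 : ∀ i, D' (Q.y (Q.e i)) = 0 := fun i => by
    refine Fin.cases (by rw [Q.y0, D'.map_one_eq_zero]) (fun j => ?_) i
    have := congrFun h1 j
    have e := congrFun (map_sum Derivation.coeFnAddMonoidHom (fun i => c i • D i) Finset.univ)
      (Q.y (Q.e j.succ))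
    rw [hD, Finset.sum_apply] at e
    refine e.trans ?_
    simpa [Matrix.vecMul, dotProduct, Pre.x] using this
  have h3 : ∀ R : MvPolynomial (Fin (N + 1)) L, D' (aeval Q.y R) = 0 := fun R => by
    rw [chain]
    refine Finset.sum_eq_zero fun b _ => ?_
    rw [der Q D']
    simp only [h2, mul_zero, Finset.sum_const_zero]
  ext b
  rw [Q.num_div b, Derivation.leibniz_div, h3, h3]
  simp

theorem tang (D : Basis (Fin d) K (Derivation L K K)) {T : MvPolynomial (Fin (N + 1)) L} {e : ℕ}
    (hT : T.IsHomogeneous e) (h : aeval Q.y T = 0) (i : Fin (d + 1)) :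
    ∑ b, aeval Q.y (pderiv b T) * Q.J i b = 0 := by
  have sw : ∀ w : Fin (N + 1) → K, (∀ b, w b = ∑ i, Q.J i b * w (Q.e i)) →
      ∑ b, aeval Q.y (pderiv b T) * w b = 0 →
      ∑ i, (∑ b, aeval Q.y (pderiv b T) * Q.J i b) * w (Q.e i) = 0 := fun w h1 h2 => by
    simp only [Finset.sum_mul]
    rw [Finset.sum_comm, ← h2]
    refine Finset.sum_congr rfl fun b _ => ?_
    rw [h1 b, Finset.mul_sum]
    simp only [mul_assoc]
  have h1 := fun s => sw (fun a => D s (Q.y a)) (der Q (D s)) (by rw [← chain, h, map_zero])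
  have h2 := sw Q.y (eul Q) (euler _ hT h)
  generalize hv : (fun i => ∑ b, aeval Q.y (pderiv b T) * Q.J i b) = v
  have hv' : ∀ i, ∑ b, aeval Q.y (pderiv b T) * Q.J i b = v i := congrFun hv
  simp only [hv', Fin.sum_univ_succ, Q.y0, Derivation.map_one_eq_zero, mul_zero, zero_add,
    mul_one] at h1 h2 ⊢
  have h3 : (fun j : Fin d => v j.succ) = 0 :=
    Matrix.eq_zero_of_mulVec_eq_zero (det_ne Q D) (funext fun s => by
      simpa [Matrix.mulVec, dotProduct, Pre.x, mul_comm] using h1 s)
  have h4 : ∀ j : Fin d, v j.succ = 0 := congrFun h3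
  refine Fin.cases ?_ h4 i
  simpa [h4] using h2

end JacA

theorem pJAC (L : Type u) [Field L] [IsAlgClosed L] [CharZero L] :
    S_JAC L := by
  intro K _ _ d N Q
  refine ⟨JacA.der Q, JacA.eul Q, fun D => ⟨JacA.det_ne Q D, fun T e hT h c i => ?_⟩⟩
  have e1 : ∀ b, aeval (fun a => Q.y a / Q.y c) (pderiv b T) =
      (Q.y c)⁻¹ ^ (e - 1) * aeval Q.y (pderiv b T) := fun b => by
    simp only [div_eq_inv_mul]
    exact JacA.scale _ _ (hT.pderiv (i := b))
  simp only [e1, mul_assoc, ← Finset.mul_sum, JacA.tang Q D hT h, mul_zero]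

end Pool.Agent.P.MP_6f117a_ag.Mid
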