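import Pool.Agent.P.MP_6f117a_ag.M.Scale

/-! Step LOCG on models and their reductions. -/

namespace Pool.Agent.P.MP_6f117a_ag.Mid

open MvPolynomial Filter Sp EX PJ Module

universe u

theorem pLOCG (L : Type u) [Field L] [IsAlgClosed L] [CharZero L] :
    S_LOCG L := by
  intro K _ _ M y c hc I h
  by_contra hI
  obtain ⟨m, hm, hle⟩ := Ideal.exists_le_maximal I hI
  have : Algebra.FiniteType L (Rc L y c) := by
    classical
    refine (Subalgebra.fg_iff_finiteType _).1 ⟨Finset.univ.image fun b => y b / y c, ?_⟩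
    rw [Finset.coe_image, Finset.coe_univ, Set.image_univ, Rc]
  letI := Ideal.Quotient.field m
  have := finite_of_finite_type_of_isJacobsonRing L (Rc L y c ⧸ m)
  let e := AlgEquiv.ofBijective (Algebra.ofId L (Rc L y c ⧸ m))
    IsAlgClosed.algebraMap_bijective_of_isIntegral
  let φ : Rc L y c →ₐ[L] L := e.symm.toAlgHom.comp (Ideal.Quotient.mkₐ L m)
  let u : Fin M → Rc L y c := fun b => ⟨y b / y c, Algebra.subset_adjoin ⟨b, rfl⟩⟩
  have e1 : ∀ T : MvPolynomial (Fin M) L, (aeval u T : Rc L y c) =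
      aeval (fun b => y b / y c) T := fun T => by
    rw [← Subalgebra.coe_val, ← AlgHom.comp_apply, comp_aeval]; rfl
  have e2 : ∀ T : MvPolynomial (Fin M) L, eval (fun b => φ (u b)) T = φ (aeval u T) := fun T => by
    rw [← AlgHom.comp_apply, comp_aeval]; rfl
  have e3 : φ (u c) = 1 := by
    rw [show u c = 1 from Subtype.ext (div_self hc), map_one]
  obtain ⟨T, h1, t, ht, h2⟩ := h (fun b => φ (u b)) ⟨fun h0 => one_ne_zero
    (e3.symm.trans (congrFun h0 c)), fun G ⟨⟨n, hn⟩, h0⟩ => by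
      rw [e2, show aeval u G = 0 from Subtype.ext (by
        rw [e1]; simp only [div_eq_inv_mul, ScaleA.aeval_smul _ y hn, h0, mul_zero]; rfl),
        map_zero]⟩ e3
  refine h1 ?_
  rw [e2, show aeval u T = t from Subtype.ext (by rw [e1, h2])]
  simp [φ, Ideal.Quotient.eq_zero_iff_mem.2 (hle ht)]

end Pool.Agent.P.MP_6f117a_ag.Mid
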