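import Pool.Agent.P.MP_6f117a_ag.M.Iface

/-! Step MID on models and their reductions. -/

namespace Pool.Agent.P.MP_6f117a_ag.Mid

open MvPolynomial Filter Sp EX PJ Module

universe u

theorem pMID (L : Type u) [Field L] [IsAlgClosed L] [CharZero L]
    (hSCALE : S_SCALE L) (hBASE : S_BASE L) (hCONE : S_CONE L) (hREL0 : S_REL0 L)
    (hPLU0 : S_PLU0 L) (hMOD0 : S_MOD0 L) (hGENX : S_GENX L) (hLZ : S_LZ L) : S_MID L := by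
  intro K _ _ d N₁ z hs hb
  obtain ⟨N, rfl⟩ : ∃ N, N₁ = N + 1 := by
    rcases N₁ with _ | N
    · exact absurd (Subsingleton.elim _ _) hs.1
    · exact ⟨N, rfl⟩
  obtain ⟨Q, c, hc, hy⟩ := hBASE K d N z hs.1 hs.2.1 hs.2.2.1
  obtain ⟨hs', hb'⟩ := hSCALE K d _ z c hc
  rw [← hy] at hs' hb'
  obtain ⟨r, h, hr, hp⟩ := hPLU0 K d N Q (hb' hb)
  obtain ⟨D, rfl⟩ := hMOD0 K d N r Q h (hREL0 K d N Q (hs' hs) ⟨hb.choose⟩) hp
  obtain ⟨C₀, hC⟩ := hLZ K d N r D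
  refine ⟨D.Q.mod D.F, D.Q.y, Equiv.refl _, c, r, C₀, D.R.δ, hc, congrFun hy, hr, ⟨0⟩,
    fun a => ⟨D.Q.eq_hom a, D.Q.eq_zero a⟩, D.del, hCONE K d _ D.Q.y0 D.Q.indx, ?_⟩
  filter_upwards [hGENX K d N r D, eventually_comap.1 hC] with ω ⟨G, e⟩ h
  have := h G e
  subst e
  exact ⟨G.K1, _, _, this⟩

end Pool.Agent.P.MP_6f117a_ag.Mid
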