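import Pool.Agent.P.MP_6f117a_ag.M.Iface

/-! Step MOD0 on models and their reductions. -/

namespace Pool.Agent.P.MP_6f117a_ag.Mid

open MvPolynomial Filter Sp EX PJ Module

universe u

namespace Mod0A

variable {L K : Type u} [Field L] [Field K] [Algebra L K] {d N : ℕ} (Q : Pre L K d N)

theorem minor_e (i : ℕ) : minor Q.J i Q.e = 1 := by
  have : (Matrix.of fun r s : Fin (d + 1) =>
      if (s : ℕ) < i then (if r = s then (1 : K) else 0) else Q.J r (Q.e s)) = 1 := by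
    ext r s
    simp only [Matrix.of_apply, Q.J_e, ite_self, Matrix.one_apply]
  rw [minor, this, Matrix.det_one]

theorem gs_ne {h : Fin (d + 1) → K} (h0 : h 0 ≠ 0) (i : Fin (d + 1) ⊕ Bool) :
    gs Q.J Q.y h i (Q.e, Q.e 0, 0) ≠ 0 := by
  rcases i with i | _ | _
  · simp [gs, minor_e]
  · simp [gs, Q.y0]
  · exact h0

theorem h_dvd (F : Fam L N) (g : F.G) (j : F.J g) : F.h g j ∣ (Q.mod F).Del :=
  Dvd.dvd.mul_left ((Finset.dvd_prod_of_mem (F.h g) (Finset.mem_univ j)).trans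
    (Finset.dvd_prod_of_mem (fun g => ∏ j, F.h g j) (Finset.mem_univ g))) _

theorem del_ne (F : Fam L N) (hF : ∀ g j, aeval Q.y (F.h g j) ≠ 0) :
    aeval Q.y (Q.mod F).Del ≠ 0 := by
  rw [Sp.Mod.Del, map_mul, map_prod, map_prod]
  refine mul_ne_zero (Finset.prod_ne_zero_iff.2 fun a _ => Q.dq_ne a)
    (Finset.prod_ne_zero_iff.2 fun g _ => ?_)
  rw [map_prod]
  exact Finset.prod_ne_zero_iff.2 fun j _ => hF g j

/-- A common denominator. -/
theorem exists_den (R : Prs Q) : ∃ (Δ : MvPolynomial (Fin d) L)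
    (a : Fin (N + 1) → MvPolynomial (Option (Fin d)) L), Δ ≠ 0 ∧
      ∀ b, aeval Q.x Δ * Q.y b = aeval (xw Q.e R.l Q.y) (a b) := by
  classical
  choose Δ a h1 h2 using fun b => R.pres (Q.y b)
  refine ⟨∏ b, Δ b, fun b => rename some (∏ c ∈ Finset.univ.erase b, Δ c) * a b,
    Finset.prod_ne_zero_iff.2 fun b _ => h1 b, fun b => ?_⟩
  rw [map_mul, aeval_rename, ← h2, ← Finset.prod_erase_mul _ _ (Finset.mem_univ b), map_mul,
    mul_assoc]
  rfl

/-- A form with the same value. -/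
theorem exists_form (Δ : MvPolynomial (Fin d) L) : ∃ (T : MvPolynomial (Fin (N + 1)) L) (n : ℕ),
    T.IsHomogeneous n ∧ aeval Q.y T = aeval Q.x Δ := by
  obtain ⟨g, c, h1, h2⟩ := exists_hom (Q.e 0) (rename (fun i : Fin d => Q.e i.succ) Δ) _ le_rfl
  refine ⟨g, _, h1, ?_⟩
  rw [h2, map_add, map_mul, map_sub, aeval_X, Q.y0, map_one, sub_self, mul_zero, add_zero,
    aeval_rename]
  rfl

end Mod0A

open Mod0A in
theorem pMOD0 (L : Type u) [Field L] [IsAlgClosed L] [CharZero L]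
    (hSEP : S_SEP L) (hPRESD : S_PRESD L) (hFORMS : S_FORMS L) :
    S_MOD0 L := by
  classical
  intro K _ _ d N r Q h hrel hplu
  obtain ⟨R⟩ := hPRESD K d N Q
  obtain ⟨H, nH, hH, hH0, hsep⟩ := hSEP K d N Q
  obtain ⟨Δ, a, hΔ, ha⟩ := exists_den Q R
  obtain ⟨T, nT, hT, hT0⟩ := exists_form Q Δ
  have hTne : aeval Q.y T ≠ 0 := by
    rw [hT0]
    exact fun e => hΔ (Q.indx (e.trans (map_zero _).symm))
  choose w n Hf hw hn hHf using fun i => hFORMS K d N Q _ (gs Q.J Q.y h i)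
  let P : (Fin (d + 1) ⊕ Bool) ⊕ Fin 3 →
      (Fin (d + 1) → Fin (N + 1)) × Fin (N + 1) × Fin (d + 1) → Prop :=
    Sum.elim (fun i c => gs Q.J Q.y h i c ≠ 0) fun _ _ => True
  let F : Fam L N :=
    { G := (Fin (d + 1) ⊕ Bool) ⊕ Fin 3
      J := fun g => {c // P g c}
      fJ := fun g => Fintype.ofFinite _
      nJ := fun g => ⟨⟨(Q.e, Q.e 0, 0), by
        rcases g with g | g
        exacts [gs_ne Q hplu.h_ne g, trivial]⟩⟩
      h := fun g c => Sum.elim (fun i => Hf i c.1) ![X (Q.e 0), H, T] g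
      dh := Sum.elim n ![1, nH, nT]
      h_hom := by
        rintro (g | g) c
        · exact hn g c.1
        · fin_cases g
          exacts [isHomogeneous_X _ _, hH, hT] }
  have hF : ∀ g j, aeval Q.y (F.h g j) ≠ 0 := by
    rintro (g | g) c
    · exact (hHf g c.1).trans_ne (mul_ne_zero (hw g) c.2)
    · fin_cases g
      · change aeval Q.y (X (Q.e 0) : MvPolynomial _ L) ≠ 0
        rw [aeval_X, Q.y0]; exact one_ne_zero
      exacts [hH0, hTne]
  refine ⟨⟨Q, F, R, h, del_ne Q F hF, fun S e hS hS0 => ?_,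
    ⟨.inr 0, ⟨(Q.e, Q.e 0, 0), trivial⟩, rfl⟩, fun i => ⟨.inl i, w i, hw i,
      fun j => ⟨j.1, hHf i j.1⟩, fun c hc => ⟨⟨c, hc⟩, hHf i c⟩⟩, hrel, hplu, ?_⟩, rfl⟩
  · obtain ⟨U, hU⟩ : H ∣ (Q.mod F).Del := h_dvd Q F (.inr 1) ⟨(Q.e, Q.e 0, 0), trivial⟩
    rw [hU, mul_comm H, mul_assoc]
    exact Ideal.mul_mem_left _ _ (hsep S e hS hS0)
  · obtain ⟨U, hU⟩ : T ∣ (Q.mod F).Del := h_dvd Q F (.inr 2) ⟨(Q.e, Q.e 0, 0), trivial⟩
    exact ⟨Δ, a, U, ha, by rw [hU, map_mul, hT0, mul_comm]⟩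

end Pool.Agent.P.MP_6f117a_ag.Mid
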