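import Pool.Agent.P.MP_6f117a_ag.M.Iface

/-! Step PLUA on models and their reductions. -/

namespace Pool.Agent.P.MP_6f117a_ag.Mid

open MvPolynomial Filter Sp EX PJ Module

universe u

namespace PluaA

variable {L K : Type u} [Field L] [Field K] [Algebra L K]

theorem scale {σ : Type} (c : K) (y : σ → K) {g : MvPolynomial σ L} {e : ℕ}
    (h : g.IsHomogeneous e) : aeval (fun i => c * y i) g = c ^ e * aeval y g := by
  rw [aeval_def, aeval_def, eval₂_eq, eval₂_eq, Finset.mul_sum]
  refine Finset.sum_congr rfl fun m hm => ?_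
  have : ∑ i ∈ m.support, m i = e := by
    simpa [Finsupp.weight_apply, Finsupp.sum] using h (mem_support_iff.1 hm)
  simp only [mul_pow, Finset.prod_mul_distrib, Finset.prod_pow_eq_pow_sum, this]
  ring

theorem det_mul_sum {n B : Type} [Fintype n] [DecidableEq n] [Fintype B] (J : Matrix n B K)
    (R : Matrix B n K) : (J * R).det =
      ∑ a : n → B, (∏ t, R (a t) t) * (Matrix.of fun r s => J r (a s)).det := by
  simp only [Matrix.det_apply', Matrix.mul_apply, Finset.prod_univ_sum, Finset.mul_sum,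
    Fintype.piFinset_univ, Matrix.of_apply]
  rw [Finset.sum_comm]
  refine Finset.sum_congr rfl fun a _ => Finset.sum_congr rfl fun σ _ => ?_
  rw [Finset.prod_mul_distrib]
  ring

variable {d : ℕ} (D : Fin d → Derivation L K K)

/-- The value and the derivatives. -/
def vv (g : K) : Fin (d + 1) → K := Fin.cons g fun i => D i g

/-- The derivatives, scaled by `w`. -/
def zz (w g : K) : Fin (d + 1) → K := Fin.cons 0 fun i => w * D i g

theorem zz_add (w g h : K) : zz D w (g + h) = zz D w g + zz D w h := by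
  funext s
  refine Fin.cases ?_ (fun i => ?_) s <;> simp [zz, mul_add]

theorem zz_mul (w g h : K) : zz D w (g * h) = g • zz D w h + h • zz D w g := by
  funext s
  refine Fin.cases ?_ (fun i => ?_) s
  · simp [zz]
  · simp only [zz, Fin.cons_succ, Derivation.leibniz, smul_eq_mul, Pi.add_apply, Pi.smul_apply]
    ring

theorem zz_const (w : K) (a : L) : zz D w (algebraMap L K a) = 0 := by
  funext s
  refine Fin.cases ?_ (fun i => ?_) s <;> simp [zz]

theorem vv_mul (w g : K) : vv D (w * g) = zz D w g + g • vv D w := by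
  funext s
  refine Fin.cases ?_ (fun i => ?_) s
  · simp [zz, vv, mul_comm]
  · simp only [zz, vv, Fin.cons_succ, Derivation.leibniz, smul_eq_mul, Pi.add_apply, Pi.smul_apply]

theorem zz_mem {B : Type} (y : B → K) (c : B) (hc : y c ≠ 0) {g : K} (hg : g ∈ Rc L y c) :
    zz D (y c) g ∈ Submodule.span (Rc L y c) (Set.range fun b => vv D (y b)) := by
  induction hg using Algebra.adjoin_induction with
  | mem x hx =>
    obtain ⟨b, rfl⟩ := hx
    have h1 := vv_mul D (y c) (y b / y c)
    rw [mul_div_cancel₀ _ hc, ← sub_eq_iff_eq_add] at h1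
    rw [← h1]
    exact sub_mem (Submodule.subset_span ⟨b, rfl⟩) (Submodule.smul_mem _
      (⟨y b / y c, Algebra.subset_adjoin ⟨b, rfl⟩⟩ : Rc L y c) (Submodule.subset_span ⟨c, rfl⟩))
  | algebraMap r => rw [zz_const]; exact zero_mem _
  | add x z _ _ hx hz => rw [zz_add]; exact add_mem hx hz
  | mul x z hx' hz' hx hz =>
    rw [zz_mul]
    exact add_mem (Submodule.smul_mem _ (⟨x, hx'⟩ : Rc L y c) hz)
      (Submodule.smul_mem _ (⟨z, hz'⟩ : Rc L y c) hx)

theorem zz_div {B : Type} (y : B → K) (c : B) (hc : y c ≠ 0) {p q : K} (hp : p ∈ Rc L y c)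
    (hq : q ∈ Rc L y c) (h0 : q ≠ 0) : q ^ 2 • zz D (y c) (p / q) ∈
      Submodule.span (Rc L y c) (Set.range fun b => vv D (y b)) := by
  have h1 := zz_mul D (y c) q (p / q)
  rw [mul_div_cancel₀ _ h0] at h1
  have h2 : q ^ 2 • zz D (y c) (p / q) = q • zz D (y c) p - p • zz D (y c) q := by
    rw [h1, smul_add, smul_smul, smul_smul, mul_div_cancel₀ _ h0, add_sub_cancel_right, sq]
  rw [h2]
  exact sub_mem (Submodule.smul_mem _ (⟨q, hq⟩ : Rc L y c) (zz_mem D y c hc hp))
    (Submodule.smul_mem _ (⟨p, hp⟩ : Rc L y c) (zz_mem D y c hc hq))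

theorem aeval_mem {B : Type} (y : B → K) (c : B) (P : MvPolynomial B L) :
    aeval (fun b => y b / y c) P ∈ Rc L y c := by
  rw [Rc, Algebra.adjoin_range_eq_range_aeval]
  exact ⟨P, rfl⟩

end PluaA

open PluaA in
theorem pPLUA (L : Type u) [Field L] [IsAlgClosed L] [CharZero L]
    (hJAC : S_JAC L) :
    S_PLUA L := by
  intro K _ _ d N Q D c a hc ha _ f hf
  obtain ⟨j1, j2, j3⟩ := hJAC K d N Q
  have hμ := (j3 D).1
  choose e P R hP hR hRa hfe using hf
  have hy : Q.y = fun b => Q.y c * (Q.y b / Q.y c) := funext fun b => (mul_div_cancel₀ _ hc).symm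
  have hR0 : ∀ j, aeval (fun b => Q.y b / Q.y c) (R j) ≠ 0 := fun j h0 =>
    hRa j (ha.2 _ ⟨⟨_, hR j⟩, by rw [hy, scale _ _ (hR j), h0, mul_zero]⟩)
  have hf' : ∀ j, f j = aeval (fun b => Q.y b / Q.y c) (P j) /
      aeval (fun b => Q.y b / Q.y c) (R j) := fun j => by
    rw [← mul_div_mul_left (aeval _ (P j)) _ (pow_ne_zero (e j) hc), ← scale _ _ (hP j),
      ← scale _ _ (hR j), ← hy, hfe j]
  refine ⟨∏ j, R j ^ 2, by
    rw [map_prod]
    exact Finset.prod_ne_zero_iff.2 fun j _ => by rw [map_pow]; exact pow_ne_zero _ (hRa j), ?_⟩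
  let W : Matrix (Fin (d + 1)) (Fin (d + 1)) K := Matrix.of (Fin.cons (vv D (Q.y c)) fun j =>
    aeval (fun b => Q.y b / Q.y c) (R j) ^ 2 • zz D (Q.y c) (f j))
  have hW : ∀ t, W t ∈ Submodule.span (Rc L Q.y c) (Set.range fun b => vv D (Q.y b)) := fun t => by
    refine Fin.cases ?_ (fun j => ?_) t
    · exact Submodule.subset_span ⟨c, rfl⟩
    · have := zz_div D Q.y c hc (aeval_mem _ _ (P j)) (aeval_mem _ _ (R j)) (hR0 j)
      rw [← hf' j] at this
      exact this
  choose r hr using fun t => (Submodule.mem_span_range_iff_exists_fun _).1 (hW t)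
  let E : Matrix (Fin (d + 1)) (Fin (d + 1)) K := Matrix.of fun i => vv D (Q.y (Q.e i))
  have hv : ∀ b s, vv D (Q.y b) s = ∑ i, Q.J i b * E i s := fun b s =>
    Fin.cases (j2 b) (fun i => j1 (D i) b) s
  have h1 : W = (Matrix.of Q.J * Matrix.of fun b t => (r t b : K)).transpose * E := by
    ext t s
    rw [← hr t, Finset.sum_apply, Matrix.mul_apply]
    simp only [Matrix.transpose_apply, Matrix.mul_apply, Matrix.of_apply, Finset.sum_mul]
    rw [Finset.sum_comm]
    refine Finset.sum_congr rfl fun b _ => ?_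
    change (r t b : K) * vv D (Q.y b) s = _
    rw [hv, Finset.mul_sum]
    exact Finset.sum_congr rfl fun i _ => by ring
  have h2 : E.det = (Matrix.of fun i j => D i (Q.x j)).det := by
    rw [Matrix.det_succ_row_zero, Fin.sum_univ_succ, Finset.sum_eq_zero fun i _ => by
      simp [E, vv, Q.y0], ← Matrix.det_transpose (Matrix.of fun i j => D i (Q.x j))]
    simp only [E, vv, Q.y0, Matrix.of_apply, Fin.cons_zero, Fin.val_zero, pow_zero, one_mul,
      add_zero, Fin.succAbove_zero]
    rfl
  have h3 : W.det = Q.y c * ((∏ j, aeval (fun b => Q.y b / Q.y c) (R j) ^ 2 * Q.y c) *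
      (Matrix.of fun i j => D i (f j)).det) := by
    rw [Matrix.det_succ_column_zero, Fin.sum_univ_succ, Finset.sum_eq_zero fun i _ => by
      simp [W, zz], ← Matrix.det_transpose (Matrix.of fun i j => D i (f j)),
      ← Matrix.det_mul_column]
    simp only [W, vv, Matrix.of_apply, Fin.cons_zero, Fin.val_zero, pow_zero, one_mul,
      add_zero, Fin.succAbove_zero]
    congr 2
    ext j i
    simp [zz, mul_assoc]
  have h4 : aeval (fun b => Q.y b / Q.y c) (∏ j, R j ^ 2) *
      ((Matrix.of fun i j => D i (f j)).det / (Matrix.of fun i j => D i (Q.x j)).det *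
        Q.y c ^ (d + 1)) = (Matrix.of Q.J * Matrix.of fun b t => (r t b : K)).det := by
    refine mul_right_cancel₀ hμ ?_
    rw [← Matrix.det_transpose (_ * _), ← h2, ← Matrix.det_mul, ← h1, h3, h2, map_prod,
      Finset.prod_mul_distrib, Finset.prod_const, Finset.card_univ, Fintype.card_fin]
    simp only [map_pow]
    field_simp
    ring
  rw [h4, det_mul_sum]
  refine Submodule.sum_mem _ fun b _ => ?_
  have h5 : (Matrix.of fun i s => Q.J i (b s)).det ∈
      Submodule.span (Rc L Q.y c) (Set.range (minor Q.J 0)) :=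
    Submodule.subset_span ⟨b, by simp [minor]⟩
  exact Submodule.smul_mem _ (⟨∏ t, (r t (b t) : K), prod_mem fun t _ => (r t (b t)).2⟩ :
    Rc L Q.y c) h5

end Pool.Agent.P.MP_6f117a_ag.Mid
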