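import Pool.Agent.P.MP_6f117a_ag.M.Iface

/-! Step PLUP on models and their reductions. -/

namespace Pool.Agent.P.MP_6f117a_ag.Mid

open MvPolynomial Filter Sp EX PJ Module

universe u

namespace PlupA

variable {L K : Type u} [Field L] [Field K] [Algebra L K] {d N r : ℕ} {D : MD L K d N r}

theorem one (c : Fin (N + 1)) {s : K}
    (h : s ∈ Submodule.span (Rc L D.Q.y c) (Set.range (minor D.Q.J 0))) :
    ∀ᶠ G in gF D, G.pi s ∈ Submodule.span (Rc G.k G.y c) (Set.range (minor G.J 0)) := by
  induction h using Submodule.span_induction with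
  | mem s hs =>
    obtain ⟨a, rfl⟩ := hs
    filter_upwards [ev_pi_minor (D := D)] with G h
    exact Submodule.subset_span ⟨a, (h 0 a).symm⟩
  | zero =>
    filter_upwards [ev_pi_zero (D := D)] with G h
    rw [h]; exact zero_mem _
  | add a b _ _ ha hb =>
    filter_upwards [ha, hb, ev_pi_add (D := D) a b] with G h1 h2 h3
    rw [h3]; exact add_mem h1 h2
  | smul a b _ hb =>
    filter_upwards [hb, ev_pi_Rc (D := D) c a.2, ev_pi_mul (D := D) a b] with G h1 h2 h3
    have e : a • b = (a : K) * b := rfl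
    rw [e, h3]
    exact Submodule.smul_mem _ (⟨_, h2⟩ : Rc G.k G.y c) h1

theorem pow (c : Fin (N + 1)) (n : ℕ) : ∀ s : K,
    s ∈ Submodule.span (Rc L D.Q.y c) (Set.range (minor D.Q.J 0)) ^ n →
    ∀ᶠ G in gF D, G.pi s ∈ Submodule.span (Rc G.k G.y c) (Set.range (minor G.J 0)) ^ n := by
  induction n with
  | zero =>
    intro s hs
    rw [pow_zero, Submodule.mem_one] at hs
    obtain ⟨a, rfl⟩ := hs
    filter_upwards [ev_pi_Rc (D := D) c a.2] with G h
    rw [pow_zero, Submodule.mem_one]
    exact ⟨⟨_, h⟩, rfl⟩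
  | succ n ih =>
    intro s hs
    rw [pow_succ] at hs
    refine Submodule.mul_induction_on hs (fun a ha b hb => ?_) fun a b ha hb => ?_
    · filter_upwards [ih a ha, one c hb, ev_pi_mul (D := D) a b] with G h1 h2 h3
      rw [h3, pow_succ]; exact Submodule.mul_mem_mul h1 h2
    · filter_upwards [ha, hb, ev_pi_add (D := D) a b] with G h1 h2 h3
      rw [h3]; exact add_mem h1 h2

end PlupA

theorem pPLUP (L : Type u) [Field L] [IsAlgClosed L] [CharZero L] :
    S_PLUP L := by
  intro K _ _ d N r D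
  refine eventually_all.2 fun c => ?_
  by_cases hc : D.Q.y c = 0
  · filter_upwards [ev_pi_y (D := D), ev_pi_zero (D := D)] with G h1 h2 h
    exact (h (by rw [← h1, hc, h2])).elim
  · have H : ∀ j, ∀ᶠ G in gF D, G.h j * G.y c ^ (r * (d + 1)) ∈
        Submodule.span (Rc G.k G.y c) (Set.range (minor G.J 0)) ^ r := fun j => by
      filter_upwards [PlupA.pow c r _ (D.plu.plu c hc j), ev_pi_y (D := D),
        ev_pi_mul (D := D) (D.h j) (D.Q.y c ^ (r * (d + 1))),
        ev_pi_pow (D := D) (D.Q.y c) (r * (d + 1))] with G h1 h2 h3 h4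
      rwa [h3, h4, h2] at h1
    filter_upwards [eventually_all.2 H] with G h _
    exact h

end Pool.Agent.P.MP_6f117a_ag.Mid
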