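import Pool.Agent.P.MP_6f117a_ag.M.Iface

/-! Step PRESD on models and their reductions. -/

namespace Pool.Agent.P.MP_6f117a_ag.Mid

open MvPolynomial Filter Sp EX PJ Module

universe u

namespace PresdA

open Polynomial
open scoped nonZeroDivisors IntermediateField

theorem core (R F K : Type u) [CommRing R] [IsDomain R] [Field F] [CharZero F] [Field K]
    [Algebra R F] [IsFractionRing R F] [Algebra R K] [Algebra F K] [IsScalarTower R F K]
    [Algebra.IsAlgebraic F K] (Y : Set K) [Finite Y] (hY : IntermediateField.adjoin F Y = ⊤)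
    (S : Subring K) (hS : ∀ r, algebraMap R K r ∈ S) (hYS : ∀ y ∈ Y, y ∈ S) :
    ∃ w ∈ S, IsIntegral R w ∧ ∀ b : K, ∃ d : R, d ≠ 0 ∧ ∃ g : R[X],
      algebraMap R K d * b = Polynomial.aeval w g := by
  classical
  have h1 : FiniteDimensional F (IntermediateField.adjoin F Y) :=
    IntermediateField.finiteDimensional_adjoin fun x _ => Algebra.IsIntegral.isIntegral x
  rw [hY] at h1
  have : FiniteDimensional F K := IntermediateField.topEquiv.toLinearEquiv.finiteDimensional
  have hden : ∀ b : K, ∃ β : R, β ≠ 0 ∧ algebraMap R K β * b ∈ S := fun b => by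
    have hb : b ∈ (IntermediateField.adjoin F Y).toSubalgebra := hY ▸ IntermediateField.mem_top
    rw [IntermediateField.adjoin_toSubalgebra_of_isAlgebraic
      fun x _ => Algebra.IsAlgebraic.isAlgebraic x] at hb
    induction hb using Algebra.adjoin_induction with
    | mem x hx => exact ⟨1, one_ne_zero, by rw [map_one, one_mul]; exact hYS x hx⟩
    | algebraMap f =>
      obtain ⟨⟨a, s⟩, h⟩ := IsLocalization.surj R⁰ f
      refine ⟨s, nonZeroDivisors.ne_zero s.2, ?_⟩
      rw [IsScalarTower.algebraMap_apply R F K, ← map_mul, mul_comm, h,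
        ← IsScalarTower.algebraMap_apply R F K]
      exact hS a
    | add x y _ _ hx hy =>
      obtain ⟨a, ha, hx⟩ := hx
      obtain ⟨b, hb, hy⟩ := hy
      refine ⟨a * b, mul_ne_zero ha hb, ?_⟩
      have e : algebraMap R K (a * b) * (x + y) = algebraMap R K b * (algebraMap R K a * x) +
        algebraMap R K a * (algebraMap R K b * y) := by rw [map_mul]; ring
      rw [e]
      exact add_mem (mul_mem (hS b) hx) (mul_mem (hS a) hy)
    | mul x y _ _ hx hy =>
      obtain ⟨a, ha, hx⟩ := hx
      obtain ⟨b, hb, hy⟩ := hy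
      refine ⟨a * b, mul_ne_zero ha hb, ?_⟩
      rw [map_mul, mul_mul_mul_comm]
      exact mul_mem hx hy
  obtain ⟨α, hα⟩ := Field.exists_primitive_element F K
  obtain ⟨γ, hγ, hw⟩ := exists_integral_multiples R F ({α} : Finset K)
  have hw := hw α (Finset.mem_singleton_self α)
  obtain ⟨β, hβ, hβS⟩ := hden α
  have hy' : algebraMap R F (β * γ) ≠ 0 :=
    (map_ne_zero_iff _ (IsFractionRing.injective R F)).2 (mul_ne_zero hβ hγ)
  refine ⟨(β * γ) • α, ?_, ?_, fun b => ?_⟩
  · rw [mul_comm, mul_smul, Algebra.smul_def, Algebra.smul_def]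
    exact mul_mem (hS γ) hβS
  · rw [mul_smul]
    exact hw.smul β
  · generalize β * γ = y at hy'
    have hb : b ∈ F⟮α⟯.toSubalgebra := hα ▸ IntermediateField.mem_top
    rw [IntermediateField.adjoin_simple_toSubalgebra_of_isAlgebraic
      (Algebra.IsAlgebraic.isAlgebraic α), Algebra.adjoin_singleton_eq_range_aeval] at hb
    obtain ⟨g, rfl⟩ := hb
    obtain ⟨d, hd, e⟩ := IsLocalization.integerNormalization_spec R⁰
      (g.comp (Polynomial.C (algebraMap R F y)⁻¹ * Polynomial.X))
    refine ⟨d, nonZeroDivisors.ne_zero hd, IsLocalization.integerNormalization R⁰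
      (g.comp (Polynomial.C (algebraMap R F y)⁻¹ * Polynomial.X)), ?_⟩
    rw [← Polynomial.aeval_map_algebraMap F, e, ← algebraMap_smul F d, map_smul, aeval_comp, map_mul,
      Polynomial.aeval_C, Polynomial.aeval_X, ← algebraMap_smul F y,
      ← Algebra.smul_def (algebraMap R F y)⁻¹, inv_smul_smul₀ hy', algebraMap_smul, Algebra.smul_def]
    rfl

end PresdA

theorem pPRESD (L : Type u) [Field L] [IsAlgClosed L] [CharZero L] :
    S_PRESD L := by
  intro K _ _ d N Q
  let _ : Algebra (MvPolynomial (Fin d) L) K := (aeval Q.x : _ →ₐ[L] K).toAlgebra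
  have hA : ∀ r : MvPolynomial (Fin d) L, algebraMap _ K r = aeval Q.x r := fun _ => rfl
  have : FaithfulSMul (MvPolynomial (Fin d) L) K :=
    (faithfulSMul_iff_algebraMap_injective _ _).2 Q.indx
  let _ := FractionRing.liftAlgebra (MvPolynomial (Fin d) L) K
  have := FractionRing.isScalarTower_liftAlgebra (MvPolynomial (Fin d) L) K
  have := Q.alg
  have h0 : Algebra.IsAlgebraic (MvPolynomial (Fin d) L) K :=
    Algebra.IsAlgebraic.of_ringHom_of_comp_eq Q.indx.aevalEquiv (RingHom.id K)
      Q.indx.aevalEquiv.surjective Function.injective_id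
      (RingHom.ext fun r => Q.indx.algebraMap_aevalEquiv r)
  have : Algebra.IsAlgebraic (FractionRing (MvPolynomial (Fin d) L)) K :=
    IsFractionRing.comap_isAlgebraic_iff.1 h0
  have hT : IntermediateField.adjoin (FractionRing (MvPolynomial (Fin d) L)) (Set.range Q.y) = ⊤ := by
    have key : ∀ R : MvPolynomial (Fin (N + 1)) L, aeval Q.y R ∈
        IntermediateField.adjoin (FractionRing (MvPolynomial (Fin d) L)) (Set.range Q.y) := by
      intro R
      induction R using MvPolynomial.induction_on with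
      | C c =>
        have e : aeval Q.y (C c) = algebraMap (MvPolynomial (Fin d) L) K (C c) := by
          rw [hA, aeval_C, aeval_C]
        rw [e, IsScalarTower.algebraMap_apply _ (FractionRing (MvPolynomial (Fin d) L)) K]
        exact IntermediateField.algebraMap_mem _ _
      | add p q hp hq => rw [map_add]; exact add_mem hp hq
      | mul_X p i hp =>
        rw [map_mul, aeval_X]
        exact mul_mem hp (IntermediateField.subset_adjoin _ _ ⟨i, rfl⟩)
    refine eq_top_iff.2 fun b _ => ?_
    rw [Q.num_div b]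
    exact div_mem (key _) (key _)
  obtain ⟨w, ⟨l, hl⟩, hw, hp⟩ := PresdA.core (MvPolynomial (Fin d) L)
    (FractionRing (MvPolynomial (Fin d) L)) K (Set.range Q.y) hT
    (aeval Q.y : MvPolynomial (Fin (N + 1)) L →ₐ[L] K).range.toSubring
    (fun r => ⟨rename (fun i : Fin d => Q.e i.succ) r, by rw [hA]; exact aeval_rename _ _ _⟩)
    (by rintro _ ⟨i, rfl⟩; exact ⟨X i, aeval_X _ _⟩)
  have hl' : aeval Q.y l = w := hl
  have br : ∀ a, aeval (xw Q.e l Q.y) a = Polynomial.aeval w (optionEquivLeft L (Fin d) a) := by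
    intro a
    induction a using MvPolynomial.induction_on with
    | C c => rw [optionEquivLeft_C, Polynomial.aeval_C, hA, aeval_C, aeval_C]
    | add p q hp hq => rw [map_add, map_add, map_add, hp, hq]
    | mul_X p o hp =>
      rw [map_mul, map_mul, map_mul, hp, aeval_X]
      congr 1
      cases o with
      | none => rw [optionEquivLeft_X_none, Polynomial.aeval_X]; exact hl'
      | some i => rw [optionEquivLeft_X_some, Polynomial.aeval_C, hA, aeval_X]; rfl
  refine ⟨⟨l, (optionEquivLeft L (Fin d)).symm (minpoly _ w), (minpoly _ w).natDegree,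
    minpoly.natDegree_pos hw, ?_, ?_, fun a => ?_, fun b => ?_⟩⟩
  · rw [AlgEquiv.apply_symm_apply]
    exact minpoly.monic hw
  · rw [AlgEquiv.apply_symm_apply]
  · rw [br, minpoly.isIntegrallyClosed_dvd_iff hw, ← map_dvd_iff (optionEquivLeft L (Fin d)),
      AlgEquiv.apply_symm_apply]
  · obtain ⟨Δ, hΔ, g, hg⟩ := hp b
    exact ⟨Δ, (optionEquivLeft L (Fin d)).symm g, hΔ, by
      rw [br, AlgEquiv.apply_symm_apply, ← hg, hA]⟩

end Pool.Agent.P.MP_6f117a_ag.Mid
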