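import Pool.Agent.P.MP_6f117a_ag.M.Iface

/-! Step REL0 on models and their reductions. -/

namespace Pool.Agent.P.MP_6f117a_ag.Mid

open MvPolynomial Filter Sp EX PJ Module

universe u

namespace Rel0A

theorem lin {K : Type u} [Field K] {c m n : ℕ} (h : c + m = n) (ρ : Matrix (Fin c) (Fin n) K)
    (Λ : Matrix (Fin n) (Fin c) K) {H : K} (hH : H ≠ 0) (hΛ : ρ * Λ = H • (1 : Matrix _ _ K))
    (J : Fin m → Fin n → K) (e : Fin m → Fin n) (he : ∀ i s, J i (e s) = if i = s then 1 else 0)
    (hJ : ∀ t i, ∑ b, ρ t b * J i b = 0) :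
    ∃ Θ : Fin m → Fin n → K, ∀ b b', (if b = b' then H else 0) =
      ∑ t, Λ b t * ρ t b' + ∑ i, J i b * Θ i b' := by
  have hs : LinearMap.range ρ.mulVecLin = ⊤ := LinearMap.range_eq_top.2 fun w =>
    ⟨H⁻¹ • Λ.mulVec w, by
      rw [Matrix.mulVecLin_apply, Matrix.mulVec_smul, Matrix.mulVec_mulVec, hΛ, Matrix.smul_mulVec,
        Matrix.one_mulVec, smul_smul, inv_mul_cancel₀ hH, one_smul]⟩
  have hk := ρ.mulVecLin.finrank_range_add_finrank_ker
  rw [hs, finrank_top, finrank_fin_fun, finrank_fin_fun] at hk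
  have hi : LinearIndependent K J := Fintype.linearIndependent_iff.2 fun g hg s => by
    have := congrFun hg (e s)
    simpa [Finset.sum_apply, he] using this
  have hle : Submodule.span K (Set.range J) ≤ LinearMap.ker ρ.mulVecLin := by
    rw [Submodule.span_le]
    rintro _ ⟨i, rfl⟩
    exact funext fun t => hJ t i
  have heq := Submodule.eq_of_le_of_finrank_eq hle (by
    rw [finrank_span_eq_card hi, Fintype.card_fin]; omega)
  have h0 : ρ * (H • (1 : Matrix _ _ K) - Λ * ρ) = 0 := by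
    rw [Matrix.mul_sub, ← Matrix.mul_assoc, hΛ, Matrix.mul_smul, Matrix.smul_mul, Matrix.mul_one,
      Matrix.one_mul, sub_self]
  have key : ∀ b', ∃ θ : Fin m → K,
      ∑ i, θ i • J i = fun b => (H • 1 - Λ * ρ : Matrix (Fin n) (Fin n) K) b b' := fun b' => by
    rw [← Submodule.mem_span_range_iff_exists_fun, heq]
    exact funext fun t => congrFun (congrFun h0 t) b'
  choose θ hθ using key
  refine ⟨fun i b' => θ b' i, fun b b' => ?_⟩
  have := congrFun (hθ b') b
  simp only [Finset.sum_apply, Pi.smul_apply, smul_eq_mul, Matrix.sub_apply, Matrix.smul_apply,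
    Matrix.one_apply, Matrix.mul_apply, mul_ite, mul_one, mul_zero] at this
  rw [Finset.sum_congr rfl fun i _ => mul_comm (J i b) (θ b' i), this, add_sub_cancel]

variable {L K : Type u} [Field L] [Field K] [Algebra L K] {d N : ℕ}

/-- The elements that have a certificate. -/
def Cert (Q : Pre L K d N) (c : Fin (N + 1)) (x : K) : Prop :=
  ∃ (T : Type) (_ : Fintype T) (R : T → MvPolynomial (Fin (N + 1)) L)
    (lam : Fin (N + 1) → T → K) (Θ : Fin (d + 1) → Fin (N + 1) → K),
    (∀ t, Form L Q.y (R t)) ∧ (∀ b t, lam b t ∈ Rc L Q.y c) ∧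
    ∀ b b', (if b = b' then x else 0) =
      ∑ t, lam b t * aeval (fun a => Q.y a / Q.y c) (pderiv b' (R t)) + ∑ i, Q.J i b * Θ i b'

/-- They form an ideal. -/
def idl (Q : Pre L K d N) (c : Fin (N + 1)) : Ideal (Rc L Q.y c) where
  carrier := {x | Cert Q c x}
  zero_mem' := ⟨Empty, inferInstance, Empty.elim, fun _ => Empty.elim, 0, fun t => t.elim,
    fun _ t => t.elim, fun b b' => by simp⟩
  add_mem' := by
    rintro x x' ⟨T, _, R, l, Θ, h1, h2, h3⟩ ⟨T', _, R', l', Θ', h1', h2', h3'⟩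
    refine ⟨T ⊕ T', inferInstance, Sum.elim R R', fun b => Sum.elim (l b) (l' b), Θ + Θ',
      Sum.rec h1 h1', fun b => Sum.rec (h2 b) (h2' b), fun b b' => ?_⟩
    have e : (if b = b' then ((x + x' : Rc L Q.y c) : K) else 0) =
        (if b = b' then (x : K) else 0) + if b = b' then (x' : K) else 0 := by
      split_ifs <;> simp
    rw [e, h3, h3']
    simp only [Fintype.sum_sum_type, Sum.elim_inl, Sum.elim_inr, Pi.add_apply, mul_add,
      Finset.sum_add_distrib]
    ring
  smul_mem' := by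
    rintro a x ⟨T, _, R, l, Θ, h1, h2, h3⟩
    refine ⟨T, inferInstance, R, fun b t => a * l b t, fun i b => a * Θ i b, h1,
      fun b t => mul_mem a.2 (h2 b t), fun b b' => ?_⟩
    have e : (if b = b' then ((a • x : Rc L Q.y c) : K) else 0) =
        a * if b = b' then (x : K) else 0 := by
      split_ifs <;> simp
    rw [e, h3, mul_add, Finset.mul_sum, Finset.mul_sum]
    congr 1
    · exact Finset.sum_congr rfl fun t _ => by ring
    · exact Finset.sum_congr rfl fun t _ => by ring

theorem aeval_mem (y : Fin (N + 1) → K) (c : Fin (N + 1)) (T : MvPolynomial (Fin (N + 1)) L) :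
    aeval (fun a => y a / y c) T ∈ Rc L y c := by
  rw [Rc, Algebra.adjoin_range_eq_range_aeval]
  exact ⟨T, rfl⟩

end Rel0A

open Rel0A in
theorem pREL0 (L : Type u) [Field L] [IsAlgClosed L] [CharZero L]
    (hJAC : S_JAC L) (hLOCG : S_LOCG L) :
    S_REL0 L := by
  rintro K _ _ d N Q hS ⟨D⟩ c hc
  have hI : idl Q c = ⊤ := by
    refine hLOCG K _ Q.y c hc _ fun a ha _ => ?_
    obtain ⟨c', G, Jc, h1, h2, h3⟩ := hS.2.2.2 a ha
    obtain ⟨A, hA⟩ : ∃ A : Matrix (Fin c') (Fin c') (MvPolynomial (Fin (N + 1)) L),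
      A = Matrix.of fun i j => pderiv (Jc j) (G i) := ⟨_, rfl⟩
    refine ⟨A.det, ?_, ⟨_, aeval_mem Q.y c A.det⟩, ?_, rfl⟩
    · rw [RingHom.map_det, hA]
      exact h3
    by_cases hH : aeval (fun a => Q.y a / Q.y c) A.det = 0
    · have : (⟨_, aeval_mem Q.y c A.det⟩ : Rc L Q.y c) = 0 := Subtype.ext hH
      rw [this]
      exact zero_mem _
    obtain ⟨Θ, hΘ⟩ := lin (m := d + 1) (n := N + 1) (by omega)
      (Matrix.of fun t b => aeval (fun a => Q.y a / Q.y c) (pderiv b (G t)))
      (Matrix.of fun b t => ∑ j,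
        if b = Jc j then aeval (fun a => Q.y a / Q.y c) (A.adjugate j t) else 0) hH (by
        ext s t
        have e := congrArg (aeval (fun a => Q.y a / Q.y c))
          (congrFun (congrFun A.mul_adjugate s) t)
        simp only [Matrix.mul_apply, Matrix.smul_apply, Matrix.one_apply, smul_eq_mul, map_sum,
          map_mul, mul_ite, mul_one, mul_zero, apply_ite (aeval fun a => Q.y a / Q.y c),
          map_zero] at e
        simp only [Matrix.mul_apply, Matrix.of_apply, Finset.mul_sum, mul_ite, mul_zero,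
          Matrix.smul_apply, Matrix.one_apply, smul_eq_mul, mul_one]
        rw [Finset.sum_comm, ← e]
        refine Finset.sum_congr rfl fun j _ => ?_
        rw [Finset.sum_ite_eq', if_pos (Finset.mem_univ _), hA]
        rfl) Q.J Q.e Q.J_e fun t i => by
      obtain ⟨⟨e, he⟩, h0⟩ := h2 t
      exact ((hJAC K d N Q).2.2 D).2 (G t) e he h0 c i
    refine ⟨Fin c', inferInstance, G, _, Θ, h2, fun b t => ?_, hΘ⟩
    rw [Matrix.of_apply]
    refine Subalgebra.sum_mem (Rc L Q.y c) fun j _ => ?_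
    split_ifs
    · exact aeval_mem _ _ _
    · exact zero_mem _
  obtain ⟨T, _, R, l, Θ, h1, h2, h3⟩ : Cert Q c ((1 : Rc L Q.y c) : K) :=
    (Ideal.eq_top_iff_one _).1 hI
  refine ⟨Fintype.card T, fun t => R ((Fintype.equivFin T).symm t),
    fun b t => l b ((Fintype.equivFin T).symm t), Θ, fun t => (h1 _).1, fun t => (h1 _).2,
    fun b t => h2 b _, fun b b' => (h3 b b').trans ?_⟩
  rw [← (Fintype.equivFin T).symm.sum_comp]

end Pool.Agent.P.MP_6f117a_ag.Mid
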