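import Pool.Agent.P.MP_6f117a_ag.M.Iface

/-! Step RELP on models and their reductions. -/

namespace Pool.Agent.P.MP_6f117a_ag.Mid

open MvPolynomial Filter Sp EX PJ Module

universe u

namespace RelpA

variable {L K : Type u} [Field L] [Field K] [Algebra L K] {d N r : ℕ} {D : MD L K d N r}

theorem ev_val (c b : Fin (N + 1)) (R : MvPolynomial (Fin (N + 1)) L) : ∀ᶠ G in gF D,
    G.pi (aeval (fun a => D.Q.y a / D.Q.y c) (pderiv b R)) =
      e0 (fun a => G.y a / G.y c) (pderiv b (G.ω.red R)) := by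
  filter_upwards [ev_pi_aeval (fun a => D.Q.y a / D.Q.y c) (pderiv b R), ev_pi_y,
    eventually_all.2 fun a => ev_pi_div' (D.Q.y a) (D.Q.y c), ev_g (ev_red_pderiv b R)]
    with G h1 h2 h3 h4
  simp only [h3, h2] at h1
  rw [h1, ← h4]; rfl

theorem ev_id {T : ℕ} (c b b' : Fin (N + 1)) (R : Fin T → MvPolynomial (Fin (N + 1)) L)
    (lam : Fin T → K) (Θ : Fin (d + 1) → K) (h : (if b = b' then 1 else 0) =
      ∑ t, lam t * aeval (fun a => D.Q.y a / D.Q.y c) (pderiv b' (R t)) + ∑ i, D.Q.J i b * Θ i) :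
    ∀ᶠ G in gF D, (if b = b' then 1 else 0) =
      ∑ t, G.pi (lam t) * e0 (fun a => G.y a / G.y c) (pderiv b' (G.ω.red (R t))) +
        ∑ i, G.J i b * G.pi (Θ i) := by
  filter_upwards [ev_pi_add (∑ t, lam t * aeval (fun a => D.Q.y a / D.Q.y c) (pderiv b' (R t)))
      (∑ i, D.Q.J i b * Θ i),
    ev_pi_sum Finset.univ fun t => lam t * aeval (fun a => D.Q.y a / D.Q.y c) (pderiv b' (R t)),
    ev_pi_sum Finset.univ fun i => D.Q.J i b * Θ i,
    eventually_all.2 fun t =>
      ev_pi_mul (lam t) (aeval (fun a => D.Q.y a / D.Q.y c) (pderiv b' (R t))),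
    eventually_all.2 fun i => ev_pi_mul (D.Q.J i b) (Θ i),
    eventually_all.2 fun t => ev_val c b' (R t), ev_pi_one, ev_pi_zero]
    with G h1 h2 h3 h4 h5 h6 h7 h8
  rw [← h, h2, h3] at h1
  simp only [h4, h5, h6] at h1
  refine Eq.trans ?_ h1
  split_ifs
  exacts [h7.symm, h8.symm]

end RelpA

theorem pRELP (L : Type u) [Field L] [IsAlgClosed L] [CharZero L] :
    S_RELP L := by
  intro K _ _ d N r D
  refine eventually_all.2 fun c => ?_
  by_cases hc : D.Q.y c = 0
  · filter_upwards [ev_pi_y (D := D), ev_pi_zero] with G h1 h2 h3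
    exact absurd (by rw [← h1, hc, h2]) h3
  obtain ⟨T, R, lam, Θ, h1, h2, h3, h4⟩ := D.rel c hc
  choose e he using h1
  filter_upwards [ev_g (D := D) (eventually_all.2 fun t => trans D (he t) (h2 t)),
    eventually_all.2 fun b => eventually_all.2 fun t => ev_pi_Rc (D := D) c (h3 b t),
    eventually_all.2 fun b => eventually_all.2 fun b' =>
      RelpA.ev_id (D := D) c b b' R (lam b) (fun i => Θ i b') (h4 b b')] with G g1 g2 g3 _
  exact ⟨T, fun t => G.ω.red (R t), fun b t => G.pi (lam b t), fun i b => G.pi (Θ i b),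
    fun t => ⟨_, G.ω.hom_red (he t)⟩, g1, g2, g3⟩

end Pool.Agent.P.MP_6f117a_ag.Mid
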