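import Pool.Agent.P.MP_6f117a_ag.M.Iface

/-! Step SEP on models and their reductions. -/

namespace Pool.Agent.P.MP_6f117a_ag.Mid

open MvPolynomial Filter Sp EX PJ Module

universe u

namespace SepA

variable {L K : Type u} [Field L] [Field K] [Algebra L K] {σ : Type}

/-- The generic point of the cone. -/
noncomputable def cone (y : σ → K) (a : σ) : FractionRing (Polynomial K) :=
  algebraMap (Polynomial K) _ (Polynomial.monomial 1 (y a))

theorem coeff_cone (y : σ → K) (T : MvPolynomial σ L) (j : ℕ) :
    (aeval (fun a => Polynomial.monomial 1 (y a)) T).coeff j =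
      aeval y (homogeneousComponent j T) := by
  induction T using MvPolynomial.induction_on' with
  | add p q hp hq => rw [map_add, Polynomial.coeff_add, hp, hq, map_add, map_add]
  | monomial m c =>
    have h1 : (aeval (fun a => Polynomial.monomial 1 (y a)) (monomial m c) : Polynomial K) =
        Polynomial.monomial m.degree (aeval y (monomial m c)) := by
      rw [aeval_monomial, aeval_monomial, ← Polynomial.C_mul_X_pow_eq_monomial, map_mul,
        mul_assoc, Finsupp.prod, Finsupp.prod, map_prod, Finsupp.degree_apply,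
        ← Finset.prod_pow_eq_pow_sum, ← Finset.prod_mul_distrib]
      congr 1
      refine Finset.prod_congr rfl fun a _ => ?_
      rw [← Polynomial.C_mul_X_eq_monomial, mul_pow, map_pow]
    rw [h1, Polynomial.coeff_monomial,
      homogeneousComponent_of_mem (isHomogeneous_monomial c (rfl : m.degree = m.degree))]
    by_cases h : m.degree = j
    · rw [if_pos h, if_pos h.symm]
    · rw [if_neg h, if_neg (Ne.symm h), map_zero]

theorem cone_zero (y : σ → K) (T : MvPolynomial σ L) :
    aeval (cone y) T = 0 ↔ ∀ j, aeval y (homogeneousComponent j T) = 0 := by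
  have h1 := aeval_algebraMap_apply (FractionRing (Polynomial K))
    (fun a => Polynomial.monomial 1 (y a)) T
  rw [show aeval (cone y) T = _ from h1, FaithfulSMul.algebraMap_eq_zero_iff, Polynomial.ext_iff]
  simp only [coeff_cone, Polynomial.coeff_zero]

theorem cone_form (y : σ → K) {T : MvPolynomial σ L} {e : ℕ} (hT : T.IsHomogeneous e) :
    aeval (cone y) T = 0 ↔ aeval y T = 0 := by
  rw [cone_zero]
  constructor
  · intro h
    have := h e
    rwa [homogeneousComponent_eq_self hT] at this
  · intro h j
    rw [homogeneousComponent_of_mem hT]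
    split_ifs
    · exact h
    · exact map_zero _

theorem comp_mem {ι : Type} {g : ι → MvPolynomial σ L} {df : ι → ℕ}
    (hg : ∀ a, (g a).IsHomogeneous (df a)) {H T : MvPolynomial σ L} {e : ℕ}
    (hT : T.IsHomogeneous e) (h : H * T ∈ Ideal.span (Set.range g)) (n : ℕ) :
    homogeneousComponent n H * T ∈ Ideal.span (Set.range g) := by
  let _ := gradedAlgebra (σ := σ) (R := L)
  have h1 := Ideal.homogeneous_span (homogeneousSubmodule σ L) (Set.range g)
    (by rintro _ ⟨a, rfl⟩; exact ⟨df a, hg a⟩) (n + e) h
  rw [DirectSum.coe_decompose_mul_add_of_right_mem (homogeneousSubmodule σ L) hT] at h1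
  rw [← decomposition.decompose'_apply]
  exact h1

end SepA

open SepA in
theorem pSEP (L : Type u) [Field L] [IsAlgClosed L] [CharZero L]
    (hSEPA : S_SEPA L) (hCONE : S_CONE L) :
    S_SEP L := by
  intro K _ _ d N Q
  have h1 := hSEPA (FractionRing (Polynomial K)) (Fin (N + 1)) (Fin (d + 1)) (cone Q.y) Q.e Q.f
    (algebraicIndependent_iff.2 fun G hG => by
      rw [← sum_homogeneousComponent G]
      exact Finset.sum_eq_zero fun j _ => hCONE K d (fun i => Q.y (Q.e i)) Q.y0 Q.indx _ j
        (homogeneousComponent_isHomogeneous j G)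
        ((cone_zero (fun i => Q.y (Q.e i)) G).1 hG j))
    (fun a => (cone_form (fun o : Option (Fin (d + 1)) => Q.y (o.elim a Q.e)) (Q.f_hom a)).2
      (Q.eqn a))
    (fun a h => Q.der a ((cone_form (fun o : Option (Fin (d + 1)) => Q.y (o.elim a Q.e))
      (Q.f_hom a).pderiv).1 h)) Q.f_e
  obtain ⟨s, hs⟩ := IsNoetherian.noetherian
    (RingHom.ker (aeval (cone Q.y) : MvPolynomial (Fin (N + 1)) L →ₐ[L] _))
  choose! H hH hH' using h1
  have h2 : ∀ T ∈ s, aeval (cone Q.y) T = 0 := fun T hT =>
    (hs.le (Submodule.subset_span hT) :)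
  have h3 : aeval (cone Q.y) (∏ T ∈ s, H T) ≠ 0 := by
    rw [map_prod]
    exact Finset.prod_ne_zero_iff.2 fun T hT => hH T (h2 T hT)
  obtain ⟨n, hn⟩ := not_forall.1 (mt (cone_zero Q.y _).2 h3)
  refine ⟨_, n, homogeneousComponent_isHomogeneous n _, hn, fun T e hT h0 =>
    comp_mem Q.eq_hom hT ?_ n⟩
  have h4 : T ∈ Submodule.span (MvPolynomial (Fin (N + 1)) L)
      (s : Set (MvPolynomial (Fin (N + 1)) L)) := hs.ge ((cone_form Q.y hT).2 h0)
  clear hT h0
  induction h4 using Submodule.span_induction with
  | mem x hx =>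
    obtain ⟨c, hc⟩ := Finset.dvd_prod_of_mem H hx
    rw [hc, mul_right_comm]
    exact Ideal.mul_mem_right _ _ (hH' x (h2 x hx))
  | zero => rw [mul_zero]; exact Ideal.zero_mem _
  | add x y _ _ hx hy => rw [mul_add]; exact Ideal.add_mem _ hx hy
  | smul a x _ hx => rw [smul_eq_mul, mul_left_comm]; exact Ideal.mul_mem_left _ _ hx

end Pool.Agent.P.MP_6f117a_ag.Mid
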