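import Pool.Agent.P.MP_6f117a_ag.M.Iface

/-! Step SEPA on models and their reductions. -/

namespace Pool.Agent.P.MP_6f117a_ag.Mid

open MvPolynomial Filter Sp EX PJ Module
open scoped Polynomial

universe u

namespace SepaA

/-- Division by an element of least degree of an ideal. -/
theorem pdiv {B : Type*} [CommRing B] [IsDomain B] (I : Ideal B[X]) {g : B[X]} (g0 : g ≠ 0)
    (gI : g ∈ I) (hg : ∀ G ∈ I, G ≠ 0 → g.natDegree ≤ G.natDegree) (G : B[X]) (hG : G ∈ I) :
    ∃ (c : B) (h : B[X]), c ≠ 0 ∧ Polynomial.C c * G = g * h := by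
  induction G using Polynomial.degree_lt_wf.induction with
  | _ G ih =>
  by_cases G0 : G = 0
  · exact ⟨1, 0, one_ne_zero, by simp [G0]⟩
  have l0 := Polynomial.leadingCoeff_ne_zero.2 g0
  have l1 := Polynomial.leadingCoeff_ne_zero.2 G0
  have lt : (Polynomial.C g.leadingCoeff * G -
      g * Polynomial.monomial (G.natDegree - g.natDegree) G.leadingCoeff).degree < G.degree := by
    refine (Polynomial.degree_sub_lt_left ?_ (mul_ne_zero (Polynomial.C_ne_zero.2 l0) G0)
      (by simp)).trans_eq (Polynomial.degree_C_mul l0)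
    rw [Polynomial.degree_C_mul l0, Polynomial.degree_mul, Polynomial.degree_monomial _ l1,
      Polynomial.degree_eq_natDegree G0, Polynomial.degree_eq_natDegree g0, ← Nat.cast_add,
      Nat.add_sub_cancel' (hg G hG G0)]
  obtain ⟨c, h, c0, e⟩ := ih _ lt (sub_mem (I.mul_mem_left _ hG) (I.mul_mem_right _ gI))
  refine ⟨c * g.leadingCoeff, h + Polynomial.C c *
    Polynomial.monomial (G.natDegree - g.natDegree) G.leadingCoeff, mul_ne_zero c0 l0, ?_⟩
  rw [map_mul]
  linear_combination e

theorem step {B A K : Type*} [CommRing B] [CommRing A] [Algebra B A] [Field K] (φ : A →+* K)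
    (hφ : ∀ h t, φ h ≠ 0 → h * t = 0 → t = 0) (hB : ∀ b, φ (algebraMap B A b) = 0 → b = 0) (y : A)
    (F : B[X]) (h0 : Polynomial.aeval y F = 0)
    (h1 : φ (Polynomial.aeval y (Polynomial.derivative F)) ≠ 0) (G : B[X])
    (hG : φ (Polynomial.aeval y G) = 0) : Polynomial.aeval y G = 0 := by
  classical
  have : IsDomain B := Function.Injective.isDomain (φ.comp (algebraMap B A))
    ((injective_iff_map_eq_zero _).2 hB)
  let I : Ideal B[X] := RingHom.ker (φ.comp (Polynomial.aeval y : B[X] →ₐ[B] A).toRingHom)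
  have mem : ∀ G, G ∈ I ↔ φ (Polynomial.aeval y G) = 0 := fun _ => Iff.rfl
  have FI : F ∈ I := by rw [mem, h0, map_zero]
  have ex : ∃ n, ∃ g ∈ I, g ≠ 0 ∧ g.natDegree = n :=
    ⟨_, F, FI, fun e => h1 (by simp [e]), rfl⟩
  obtain ⟨g, gI, g0, gn⟩ := Nat.find_spec ex
  have hg := pdiv I g0 gI fun G a b => gn ▸ Nat.find_min' ex ⟨G, a, b, rfl⟩
  have gy : Polynomial.aeval y g = 0 := by
    obtain ⟨c, h, c0, e⟩ := hg F FI
    have e1 := congrArg (Polynomial.aeval y) e
    have e2 := congrArg (fun q => φ (Polynomial.aeval y (Polynomial.derivative q))) e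
    simp only [Polynomial.derivative_mul, Polynomial.derivative_C, zero_mul, zero_add, map_mul,
      map_add, Polynomial.aeval_C, (mem g).1 gI, add_zero] at e2
    rw [map_mul, map_mul, h0, mul_zero, mul_comm] at e1
    exact hφ _ _ (right_ne_zero_of_mul (e2 ▸ mul_ne_zero (mt (hB c) c0) h1)) e1.symm
  obtain ⟨c, h, c0, e⟩ := hg G hG
  have e1 := congrArg (Polynomial.aeval y) e
  rw [map_mul, map_mul, gy, zero_mul, Polynomial.aeval_C] at e1
  exact hφ _ _ (mt (hB c) c0) e1

theorem der {L B ι : Type*} [CommRing L] [CommRing B] [Algebra L B] (x : ι → B)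
    (p : MvPolynomial (Option ι) L) :
    Polynomial.derivative (aeval (fun o : Option ι => o.elim Polynomial.X fun i =>
      Polynomial.C (x i)) p : B[X]) =
      aeval (fun o : Option ι => o.elim Polynomial.X fun i => Polynomial.C (x i))
        (pderiv none p) := by
  classical
  induction p using MvPolynomial.induction_on with
  | C c => simp
  | add p q hp hq => simp only [map_add, hp, hq]
  | mul_X p o hp => cases o <;> simp [hp, Polynomial.derivative_mul] <;> ring

theorem main {L A K σ ι : Type*} [Field L] [CommRing A] [Algebra L A] [Field K] [Algebra L K]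
    (φ : A →ₐ[L] K) (hφ : ∀ h t, φ h ≠ 0 → h * t = 0 → t = 0) (Z : σ → A) (e : ι → σ)
    (f : σ → MvPolynomial (Option ι) L) (ind : AlgebraicIndependent L fun i => φ (Z (e i)))
    (h0 : ∀ a, aeval (fun o : Option ι => Z (o.elim a e)) (f a) = 0)
    (h1 : ∀ a, aeval (fun o : Option ι => φ (Z (o.elim a e))) (pderiv none (f a)) ≠ 0)
    (s : Finset σ) : ∀ b ∈ Algebra.adjoin L ((Set.range fun i => Z (e i)) ∪ Z '' s),
      φ b = 0 → b = 0 := by
  classical
  induction s using Finset.induction_on with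
  | empty =>
    rw [Finset.coe_empty, Set.image_empty, Set.union_empty, Algebra.adjoin_range_eq_range_aeval]
    rintro _ ⟨p, rfl⟩ hp
    have : p = 0 := algebraicIndependent_iff.1 ind p (by rw [← comp_aeval]; exact hp)
    simp [this]
  | insert a s _ ih =>
    rw [Finset.coe_insert, Set.image_insert_eq, Set.union_insert, ← Set.union_singleton,
      Algebra.adjoin_union_eq_adjoin_adjoin]
    intro b hb
    rw [Subalgebra.mem_restrictScalars, Algebra.adjoin_singleton_eq_range_aeval] at hb
    obtain ⟨G, rfl⟩ := hb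
    let B := Algebra.adjoin L ((Set.range fun i => Z (e i)) ∪ Z '' s)
    let x : ι → B := fun i => ⟨Z (e i), Algebra.subset_adjoin (Or.inl ⟨i, rfl⟩)⟩
    have ev : ∀ p : MvPolynomial (Option ι) L, Polynomial.aeval (Z a)
        (aeval (fun o : Option ι => o.elim Polynomial.X fun i => Polynomial.C (x i)) p : B[X]) =
        aeval (fun o : Option ι => Z (o.elim a e)) p := fun p => by
      refine (AlgHom.congr_fun (comp_aeval (R := L) _
        ((Polynomial.aeval (Z a) : B[X] →ₐ[B] A).restrictScalars L)) p).trans ?_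
      congr 2
      funext o
      cases o <;> simp [x]
    refine step φ.toRingHom hφ (fun b hb => Subtype.ext (ih b b.2 hb)) (Z a)
      (aeval (fun o : Option ι => o.elim Polynomial.X fun i => Polynomial.C (x i)) (f a))
      (by rw [ev, h0]) ?_ G
    rw [der, ev]
    have := h1 a
    rwa [← comp_aeval] at this

end SepaA

theorem pSEPA (L : Type u) [Field L] [IsAlgClosed L] [CharZero L] :
    S_SEPA L := by
  intro K _ _ σ ι _ z e f ind h0 h1 _ T hT
  cases nonempty_fintype σ
  set J := Ideal.span (Set.range fun a => rename (fun o : Option ι => o.elim a e) (f a)) with hJ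
  let I : Ideal (MvPolynomial σ L) :=
    { carrier := {T | ∃ H : MvPolynomial σ L, aeval z H ≠ 0 ∧ H * T ∈ J}
      add_mem' := fun {a b} ⟨G, g1, g2⟩ ⟨H, k1, k2⟩ => ⟨G * H, by
        rw [map_mul]; exact mul_ne_zero g1 k1, by
        rw [show G * H * (a + b) = H * (G * a) + G * (H * b) by ring]
        exact add_mem (J.mul_mem_left _ g2) (J.mul_mem_left _ k2)⟩
      zero_mem' := ⟨1, by simp, by simp⟩
      smul_mem' := fun c a ⟨G, g1, g2⟩ => ⟨G, g1, by
        rw [smul_eq_mul, mul_left_comm]; exact J.mul_mem_left _ g2⟩ }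
  have hI : ∀ T ∈ I, aeval z T = 0 := by
    rintro T ⟨H, k1, k2⟩
    have : J ≤ RingHom.ker (aeval z) := Ideal.span_le.2 (by
      rintro _ ⟨a, rfl⟩
      exact (aeval_rename _ _ _).trans (h0 a))
    have := this k2
    rw [RingHom.mem_ker, map_mul] at this
    exact (mul_eq_zero.1 this).resolve_left k1
  let π := Ideal.Quotient.mkₐ L I
  let φ := Ideal.Quotient.liftₐ I (aeval z) hI
  have hπ : ∀ T, φ (π T) = aeval z T := fun _ => rfl
  have hZ : ∀ T, aeval (fun a => π (X a)) T = π T := fun T => by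
    rw [← comp_aeval, aeval_X_left]; rfl
  refine Ideal.Quotient.eq_zero_iff_mem (I := I) |>.1 (SepaA.main φ ?_ (fun a => π (X a)) e f
    (by simpa only [hπ, aeval_X] using ind) (fun a => ?_) (by simpa only [hπ, aeval_X] using h1)
    Finset.univ (π T) ?_ hT)
  · intro h t
    obtain ⟨h, rfl⟩ := Ideal.Quotient.mkₐ_surjective L I h
    obtain ⟨t, rfl⟩ := Ideal.Quotient.mkₐ_surjective L I t
    intro a b
    rw [← map_mul] at b
    obtain ⟨H, k1, k2⟩ := Ideal.Quotient.eq_zero_iff_mem.1 b
    exact Ideal.Quotient.eq_zero_iff_mem.2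
      ⟨H * h, by rw [map_mul]; exact mul_ne_zero k1 a, by rwa [mul_assoc]⟩
  · refine ((aeval_rename (fun o : Option ι => o.elim a e) (fun a => π (X a)) _).symm.trans
      (hZ _)).trans (Ideal.Quotient.eq_zero_iff_mem.2 ⟨1, by simp, ?_⟩)
    rw [one_mul]
    exact Ideal.subset_span ⟨a, rfl⟩
  · refine Algebra.adjoin_mono Set.subset_union_right ?_
    rw [Finset.coe_univ, Set.image_univ, Algebra.adjoin_range_eq_range_aeval]
    exact ⟨T, hZ T⟩

end Pool.Agent.P.MP_6f117a_ag.Mid
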