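import Pool.Agent.P.MP_6f117a_ag.M.Iface
import Pool.Agent.P.MP_6f117a_ag.C.Locl

/-! Step UNIV on models and their reductions. -/

namespace Pool.Agent.P.MP_6f117a_ag.Mid

open MvPolynomial Filter Sp EX PJ Module

universe u

namespace UnivA

theorem clear_den {k σ τ : Type} [CommRing k] (Δ : MvPolynomial σ k) (a : τ → MvPolynomial σ k)
    (T : MvPolynomial τ k) : ∃ (n : ℕ) (A : MvPolynomial σ k), ∀ (Ω : Type) [CommRing Ω]
      [Algebra k Ω] (z : σ → Ω) (y : τ → Ω), (∀ b, aeval z Δ * y b = aeval z (a b)) →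
        aeval z Δ ^ n * aeval y T = aeval z A := by
  induction T using MvPolynomial.induction_on with
  | C c => exact ⟨0, C c, fun Ω _ _ z y _ => by rw [pow_zero, one_mul, aeval_C, aeval_C]⟩
  | add f g hf hg =>
    obtain ⟨n, A, hA⟩ := hf
    obtain ⟨m, B, hB⟩ := hg
    refine ⟨n + m, Δ ^ m * A + Δ ^ n * B, fun Ω _ _ z y h => ?_⟩
    rw [map_add, map_add, map_mul, map_mul, map_pow, map_pow, ← hA Ω z y h, ← hB Ω z y h]
    ring
  | mul_X f b hf =>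
    obtain ⟨n, A, hA⟩ := hf
    refine ⟨n + 1, A * a b, fun Ω _ _ z y h => ?_⟩
    rw [map_mul, map_mul, aeval_X, ← hA Ω z y h, ← h b]
    ring

end UnivA

theorem pUNIV (L : Type u) [Field L] [IsAlgClosed L] [CharZero L] :
    S_UNIV L := by
  intro K _ _ d N r D
  obtain ⟨Δ, a, S, h1, h2⟩ := D.uΔ
  have hΔ : aeval D.Q.y (aeval (xwP D.Q.e D.R.l) (rename some Δ)) = aeval D.Q.x Δ := by
    rw [aeval_xwP, aeval_rename]; rfl
  have e1 : aeval D.Q.y (aeval (xwP D.Q.e D.R.l) D.R.Pm) = 0 := by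
    rw [aeval_xwP]; exact (D.R.ker _).2 dvd_rfl
  have e2 : ∀ b, aeval D.Q.y (aeval (xwP D.Q.e D.R.l) (rename some Δ) * X b) =
      aeval D.Q.y (aeval (xwP D.Q.e D.R.l) (a b)) := fun b => by
    rw [map_mul, hΔ, aeval_X, aeval_xwP, h1]
  have e3 : aeval D.Q.y (S * aeval (xwP D.Q.e D.R.l) (rename some Δ)) = aeval D.Q.y D.Del := by
    rw [map_mul, hΔ, h2]; rfl
  have key : ∀ᶠ ω in spF L, ∀ (Ω : Type) [Field Ω] [Algebra (kk ω.p) Ω] (y : Fin (N + 1) → Ω),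
      D.Pt0 ω y → aeval (xw D.Q.e (ω.red0 D.R.l) y) (ω.red0 D.R.Pm) = 0 ∧
        aeval (xw D.Q.e (ω.red0 D.R.l) y) (ω.red0 (rename some Δ)) ≠ 0 ∧
        ∀ b, aeval (xw D.Q.e (ω.red0 D.R.l) y) (ω.red0 (rename some Δ)) * y b =
          aeval (xw D.Q.e (ω.red0 D.R.l) y) (ω.red0 (a b)) := by
    filter_upwards [trans0 D e1, eventually_all.2 fun b => trans0_eq D (e2 b), trans0_eq D e3,
      ev_xw D D.R.Pm, ev_xw D (rename some Δ), eventually_all.2 fun b => ev_xw D (a b),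
      eventually_all.2 fun b => ev_red0_mul (aeval (xwP D.Q.e D.R.l) (rename some Δ)) (X b),
      ev_red0_mul S (aeval (xwP D.Q.e D.R.l) (rename some Δ))]
      with ω t1 t2 t3 t4 t5 t6 t7 t8 Ω _ _ y hy
    refine ⟨by rw [← t4, t1 Ω y hy], fun h => hy.del ?_, fun b => ?_⟩
    · rw [← t3 Ω y hy, t8, map_mul, t5, h, mul_zero]
    · rw [← t6, ← t2 b Ω y hy, t7, map_mul, t5, red0_X, aeval_X]
  filter_upwards [ev_g key] with G hG Ω _ _ y hy T hT
  obtain ⟨n, A, hA⟩ := UnivA.clear_den (G.ω.red0 (rename some Δ)) (fun b => G.ω.red0 (a b)) T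
  have p1 := hA G.K1 _ G.y (hG G.K1 G.y G.pt).2.2
  rw [hT, mul_zero] at p1
  obtain ⟨c, hc⟩ := (G.ker A).1 p1.symm
  obtain ⟨q1, q2, q3⟩ := hG Ω y hy
  have p2 := hA Ω _ y q3
  rw [hc, map_mul, q1, zero_mul] at p2
  exact (mul_eq_zero.1 p2).resolve_left (pow_ne_zero _ q2)

end Pool.Agent.P.MP_6f117a_ag.Mid
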