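import Pool.Agent.P.MP_6f117a_ag.M.Scale
import Pool.Agent.P.MP_6f117a_ag.M.Fb
import Pool.Agent.P.MP_6f117a_ag.M.Base
import Pool.Agent.P.MP_6f117a_ag.M.Sepa
import Pool.Agent.P.MP_6f117a_ag.M.Cone
import Pool.Agent.P.MP_6f117a_ag.M.Sep
import Pool.Agent.P.MP_6f117a_ag.M.Presd
import Pool.Agent.P.MP_6f117a_ag.M.Jac
import Pool.Agent.P.MP_6f117a_ag.M.Locg
import Pool.Agent.P.MP_6f117a_ag.M.Rel0
import Pool.Agent.P.MP_6f117a_ag.M.Plua
import Pool.Agent.P.MP_6f117a_ag.M.Plu0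
import Pool.Agent.P.MP_6f117a_ag.M.Forms
import Pool.Agent.P.MP_6f117a_ag.M.Mod0
import Pool.Agent.P.MP_6f117a_ag.M.Irr
import Pool.Agent.P.MP_6f117a_ag.M.Genx
import Pool.Agent.P.MP_6f117a_ag.M.Univ
import Pool.Agent.P.MP_6f117a_ag.M.Fin
import Pool.Agent.P.MP_6f117a_ag.M.Fam
import Pool.Agent.P.MP_6f117a_ag.M.Relp
import Pool.Agent.P.MP_6f117a_ag.M.Ind
import Pool.Agent.P.MP_6f117a_ag.M.Plup
import Pool.Agent.P.MP_6f117a_ag.M.Dim
import Pool.Agent.P.MP_6f117a_ag.M.Lz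
import Pool.Agent.P.MP_6f117a_ag.M.Mid

/-! Assembly of the steps on models and their reductions. -/

namespace Pool.Agent.P.MP_6f117a_ag.Mid

universe u

variable (L : Type u) [Field L] [IsAlgClosed L] [CharZero L]

theorem allSCALE : S_SCALE L :=
  pSCALE L

theorem allFB : S_FB L :=
  pFB L

theorem allBASE : S_BASE L :=
  pBASE L (allFB L)

theorem allSEPA : S_SEPA L :=
  pSEPA L

theorem allCONE : S_CONE L :=
  pCONE L

theorem allSEP : S_SEP L :=
  pSEP L (allSEPA L) (allCONE L)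

theorem allPRESD : S_PRESD L :=
  pPRESD L

theorem allJAC : S_JAC L :=
  pJAC L

theorem allLOCG : S_LOCG L :=
  pLOCG L

theorem allREL0 : S_REL0 L :=
  pREL0 L (allJAC L) (allLOCG L)

theorem allPLUA : S_PLUA L :=
  pPLUA L (allJAC L)

theorem allPLU0 : S_PLU0 L :=
  pPLU0 L (allJAC L) (allLOCG L) (allPLUA L)

theorem allFORMS : S_FORMS L :=
  pFORMS L

theorem allMOD0 : S_MOD0 L :=
  pMOD0 L (allSEP L) (allPRESD L) (allFORMS L)

theorem allIRR : S_IRR L :=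
  pIRR L

theorem allGENX : S_GENX L :=
  pGENX L (allIRR L)

theorem allUNIV : S_UNIV L :=
  pUNIV L

theorem allFIN : S_FIN L :=
  pFIN L

theorem allFAM : S_FAM L :=
  pFAM L

theorem allRELP : S_RELP L :=
  pRELP L

theorem allIND : S_IND L :=
  pIND L (allFIN L)

theorem allPLUP : S_PLUP L :=
  pPLUP L

theorem allDIM : S_DIM L :=
  pDIM L

theorem allLZ : S_LZ L :=
  pLZ L (allUNIV L) (allFIN L) (allFAM L) (allRELP L) (allIND L) (allPLUP L) (allDIM L)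

theorem allMID : S_MID L :=
  pMID L (allSCALE L) (allBASE L) (allCONE L) (allREL0 L) (allPLU0 L) (allMOD0 L) (allGENX L) (allLZ L)

end Pool.Agent.P.MP_6f117a_ag.Mid
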