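import Pool.Agent.P.MP_6f117a_ag.M.Pi

/-! The statements of the steps from a smooth model to its generic point in characteristic `p`. -/

namespace Pool.Agent.P.MP_6f117a_ag.Mid

open MvPolynomial Filter Sp EX PJ Module

universe u

variable (L : Type u) [Field L]

/-! ### Characteristic zero -/

/-- The notions only depend on the point of projective space. -/
def S_SCALE : Prop := ∀ (K : Type u) [Field K] [Algebra L K] (d M : ℕ) (z : Fin M → K) (c : K),
  c ≠ 0 → (SmoothModel L d z → SmoothModel L d fun a => c * z a) ∧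
    (BigCan L d z → BigCan L d fun a => c * z a)

/-- A separable homogeneous equation for an algebraic element. -/
def S_FB : Prop := ∀ (K : Type u) [Field K] [Algebra L K] (d : ℕ) (x : Fin (d + 1) → K) (b : K),
  x 0 = 1 → (AlgebraicIndependent L fun i : Fin d => x i.succ) →
  IsAlgebraic (Algebra.adjoin L (Set.range fun i : Fin d => x i.succ)) b →
    ∃ (f : MvPolynomial (Option (Fin (d + 1))) L) (n : ℕ), f.IsHomogeneous n ∧
      aeval (fun o : Option (Fin (d + 1)) => o.elim b x) f = 0 ∧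
      aeval (fun o : Option (Fin (d + 1)) => o.elim b x) (pderiv none f) ≠ 0

/-- A transcendence basis among the coordinates. -/
def S_BASE : Prop := ∀ (K : Type u) [Field K] [Algebra L K] (d N : ℕ) (z : Fin (N + 1) → K),
  z ≠ 0 → IntermediateField.adjoin L {y | ∃ i j, y = z i / z j} = ⊤ → Algebra.trdeg L K = d →
    ∃ (Q : Pre L K d N) (c : K), c ≠ 0 ∧ Q.y = fun a => c * z a

/-- The equations generate the ideal of the point locally. -/
def S_SEPA : Prop := ∀ (K : Type u) [Field K] [Algebra L K] (σ ι : Type) [Finite σ] (z : σ → K)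
  (e : ι → σ) (f : σ → MvPolynomial (Option ι) L), (AlgebraicIndependent L fun i => z (e i)) →
  (∀ a, aeval (fun o : Option ι => z (o.elim a e)) (f a) = 0) →
  (∀ a, aeval (fun o : Option ι => z (o.elim a e)) (pderiv none (f a)) ≠ 0) →
  (∀ i, f (e i) = X none - X (some i)) → ∀ T : MvPolynomial σ L, aeval z T = 0 →
    ∃ H : MvPolynomial σ L, aeval z H ≠ 0 ∧
      H * T ∈ Ideal.span (Set.range fun a => rename (fun o : Option ι => o.elim a e) (f a))

/-- The free coordinates satisfy no homogeneous relation. -/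
def S_CONE : Prop := ∀ (K : Type u) [Field K] [Algebra L K] (d : ℕ) (x : Fin (d + 1) → K),
  x 0 = 1 → (AlgebraicIndependent L fun i : Fin d => x i.succ) →
    ∀ (G : MvPolynomial (Fin (d + 1)) L) (b : ℕ), G.IsHomogeneous b → aeval x G = 0 → G = 0

/-- One form that works for all forms vanishing on the variety. -/
def S_SEP : Prop := ∀ (K : Type u) [Field K] [Algebra L K] (d N : ℕ) (Q : Pre L K d N),
  ∃ (H : MvPolynomial (Fin (N + 1)) L) (n : ℕ), H.IsHomogeneous n ∧ aeval Q.y H ≠ 0 ∧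
    ∀ (T : MvPolynomial (Fin (N + 1)) L) (e : ℕ), T.IsHomogeneous e → aeval Q.y T = 0 →
      H * T ∈ Ideal.span (Set.range Q.eq)

/-- A primitive element. -/
def S_PRESD : Prop := ∀ (K : Type u) [Field K] [Algebra L K] (d N : ℕ) (Q : Pre L K d N),
  Nonempty (Prs Q)

/-- The chain rule, the Euler relation, and tangent vectors. -/
def S_JAC : Prop := ∀ (K : Type u) [Field K] [Algebra L K] (d N : ℕ) (Q : Pre L K d N),
  (∀ (D : Derivation L K K) b, D (Q.y b) = ∑ i, Q.J i b * D (Q.y (Q.e i))) ∧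
  (∀ b, Q.y b = ∑ i, Q.J i b * Q.y (Q.e i)) ∧
  ∀ D : Basis (Fin d) K (Derivation L K K), (Matrix.of fun i j => D i (Q.x j)).det ≠ 0 ∧
    ∀ (T : MvPolynomial (Fin (N + 1)) L) (e : ℕ), T.IsHomogeneous e → aeval Q.y T = 0 →
      ∀ c i, ∑ b, aeval (fun a => Q.y a / Q.y c) (pderiv b T) * Q.J i b = 0

/-- An ideal of an affine chart that vanishes at no point is the unit ideal. -/
def S_LOCG : Prop := ∀ (K : Type u) [Field K] [Algebra L K] (M : ℕ) (y : Fin M → K) (c : Fin M),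
  y c ≠ 0 → ∀ I : Ideal (Rc L y c), (∀ a, OnY L y a → a c = 1 → ∃ T : MvPolynomial (Fin M) L,
    eval a T ≠ 0 ∧ ∃ t ∈ I, (t : K) = aeval (fun b => y b / y c) T) → I = ⊤

/-- The certificate for smoothness. -/
def S_REL0 : Prop := ∀ (K : Type u) [Field K] [Algebra L K] (d N : ℕ) (Q : Pre L K d N),
  SmoothModel L d Q.y → Nonempty (Basis (Fin d) K (Derivation L K K)) → Q.Rel

/-- Local canonical forms in terms of minors. -/
def S_PLUA : Prop := ∀ (K : Type u) [Field K] [Algebra L K] (d N : ℕ) (Q : Pre L K d N)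
  (D : Basis (Fin d) K (Derivation L K K)) (c : Fin (N + 1)) (a : Fin (N + 1) → L),
  Q.y c ≠ 0 → OnY L Q.y a → a c = 1 → ∀ f : Fin d → K, (∀ j, f j ∈ locRing L Q.y a) →
    ∃ T : MvPolynomial (Fin (N + 1)) L, eval a T ≠ 0 ∧
      aeval (fun b => Q.y b / Q.y c) T * ((Matrix.of fun i j => D i (f j)).det /
        (Matrix.of fun i j => D i (Q.x j)).det * Q.y c ^ (d + 1)) ∈
        Submodule.span (Rc L Q.y c) (Set.range (minor Q.J 0))

/-- The certificate for a big pluricanonical system. -/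
def S_PLU0 : Prop := ∀ (K : Type u) [Field K] [Algebra L K] (d N : ℕ) (Q : Pre L K d N),
  BigCan L d Q.y → ∃ (r : ℕ) (h : Fin (d + 1) → K), 1 ≤ r ∧ Q.Plu r h

/-- Finitely many rational functions are proportional to forms of the same degree. -/
def S_FORMS : Prop := ∀ (K : Type u) [Field K] [Algebra L K] (d N : ℕ) (Q : Pre L K d N)
  (κ : Type) [Finite κ] (g : κ → K), ∃ (w : K) (n : ℕ) (H : κ → MvPolynomial (Fin (N + 1)) L),
    w ≠ 0 ∧ (∀ a, (H a).IsHomogeneous n) ∧ ∀ a, aeval Q.y (H a) = w * g a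

/-- The data in characteristic zero exist. -/
def S_MOD0 : Prop := ∀ (K : Type u) [Field K] [Algebra L K] (d N r : ℕ) (Q : Pre L K d N)
  (h : Fin (d + 1) → K), Q.Rel → Q.Plu r h → ∃ D : MD L K d N r, D.Q = Q

/-! ### Characteristic `p` -/

/-- Irreducible polynomials stay irreducible. -/
def S_IRR : Prop := ∀ (σ : Type) [Finite σ] (F : MvPolynomial σ L), Irreducible F →
  ∀ᶠ ω in spF L, Irreducible (ω.red0 F)

/-- The generic point exists. -/
def S_GENX : Prop := ∀ (K : Type u) [Field K] [Algebra L K] (d N r : ℕ) (D : MD L K d N r),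
  ∀ᶠ ω in spF L, ∃ G : Gen D, G.ω = ω

/-- Every normalised point is a specialisation of the generic point. -/
def S_UNIV : Prop := ∀ (K : Type u) [Field K] [Algebra L K] (d N r : ℕ) (D : MD L K d N r),
  ∀ᶠ G in gF D, ∀ (Ω : Type) [Field Ω] [Algebra G.k Ω] (y' : Fin (N + 1) → Ω), D.Pt0 G.ω y' →
    ∀ T : MvPolynomial (Fin (N + 1)) G.k, aeval G.y T = 0 → aeval y' T = 0

/-- The degree over the field of the affine coordinates. -/
def S_FIN : Prop := ∀ (K : Type u) [Field K] [Algebra L K] (d N r : ℕ) (D : MD L K d N r),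
  ∀ᶠ G in gF D,
    FiniteDimensional (IntermediateField.adjoin G.k (Set.range fun i => G.y (D.Q.e i))) G.K1 ∧
    finrank (IntermediateField.adjoin G.k (Set.range fun i => G.y (D.Q.e i))) G.K1 ≤ D.R.δ ∧
    Algebra.IsAlgebraic (Algebra.adjoin G.k (Set.range G.x)) G.K1

/-- The families of forms after reduction. -/
def S_FAM : Prop := ∀ (K : Type u) [Field K] [Algebra L K] (d N r : ℕ) (D : MD L K d N r),
  ∀ᶠ G in gF D, ∀ i, ∃ (g : D.F.G) (w : G.K1), w ≠ 0 ∧
    (∀ j, ∃ a, aeval G.y (G.ω.red0 (D.F.h g j)) = w * gs G.J G.y G.h i a) ∧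
    ∀ a, gs G.J G.y G.h i a ≠ 0 → ∃ j, aeval G.y (G.ω.red0 (D.F.h g j)) = w * gs G.J G.y G.h i a

/-- The certificate for smoothness after reduction. -/
def S_RELP : Prop := ∀ (K : Type u) [Field K] [Algebra L K] (d N r : ℕ) (D : MD L K d N r),
  ∀ᶠ G in gF D, ∀ c, G.y c ≠ 0 → ∃ (T : ℕ)
    (R : Fin T → MvPolynomial (Fin (N + 1)) (WittVector G.ω.p G.k))
    (lam : Fin (N + 1) → Fin T → G.K1) (Θ : Fin (d + 1) → Fin (N + 1) → G.K1),
    (∀ t, ∃ e, (R t).IsHomogeneous e) ∧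
    (∀ t (Ω : Type) [Field Ω] [Algebra G.k Ω] (z : Fin (N + 1) → WittVector G.ω.p Ω),
      ((D.Q.mod D.F).red G.ω).Pt z → eval₂ (WittVector.map (algebraMap G.k Ω)) z (R t) = 0) ∧
    (∀ b t, lam b t ∈ Rc G.k G.y c) ∧
    ∀ b b', (if b = b' then 1 else 0) =
      ∑ t, lam b t * e0 (fun a => G.y a / G.y c) (pderiv b' (R t)) + ∑ i, G.J i b * Θ i b'

/-- The pluricanonical forms stay independent. -/
def S_IND : Prop := ∀ (K : Type u) [Field K] [Algebra L K] (d N r : ℕ) (D : MD L K d N r),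
  ∀ᶠ G in gF D, G.h 0 ≠ 0 ∧ AlgebraicIndependent G.k fun j : Fin d => G.h j.succ / G.h 0

/-- The pluricanonical forms stay regular. -/
def S_PLUP : Prop := ∀ (K : Type u) [Field K] [Algebra L K] (d N r : ℕ) (D : MD L K d N r),
  ∀ᶠ G in gF D, ∀ c, G.y c ≠ 0 → ∀ j, G.h j * G.y c ^ (r * (d + 1)) ∈
    Submodule.span (Rc G.k G.y c) (Set.range (minor G.J 0)) ^ r

/-- The uniform bound for the Hilbert function. -/
def S_DIM : Prop := ∀ (K : Type u) [Field K] [Algebra L K] (d N r : ℕ) (D : MD L K d N r),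
  ∃ C₀ : ℕ, ∀ᶠ G in gF D, ∀ t : ℕ, finrank G.k (Submodule.span G.k
    (Set.range (Function.uncurry (gs G.J G.y G.h))) ^ t : Submodule G.k G.K1) ≤ C₀ * (t + 1) ^ d

/-- The generic point with all its certificates. -/
def S_LZ : Prop := ∀ (K : Type u) [Field K] [Algebra L K] (d N r : ℕ) (D : MD L K d N r),
  ∃ C₀ : ℕ, ∀ᶠ G in gF D, Nonempty (L0 ((D.Q.mod D.F).red G.ω) G.K1 d r C₀ D.R.δ)

/-- The model of a smooth variety with big canonical bundle. -/
def S_MID : Prop := ∀ (K : Type u) [Field K] [Algebra L K] (d N₁ : ℕ) (z : Fin N₁ → K),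
  SmoothModel L d z → BigCan L d z → ∃ (M : Sp.Mod L) (y : Fin (M.N + 1) → K)
    (e : Fin (M.N + 1) ≃ Fin N₁) (c : K) (r C₀ δ : ℕ), c ≠ 0 ∧ (∀ a, y a = c * z (e a)) ∧ 1 ≤ r ∧
    Nonempty M.ι ∧ (∀ a, (M.eqn a).IsHomogeneous (M.df a) ∧ aeval y (M.eqn a) = 0) ∧
    aeval y M.Del ≠ 0 ∧
    (∀ (G : MvPolynomial M.ι L) (b : ℕ), G.IsHomogeneous b →
      aeval (fun i => y (M.e i)) G = 0 → G = 0) ∧
    ∀ᶠ ω in spF L, ∃ (K1 : Type) (_ : Field K1) (_ : Algebra (kk ω.p) K1),
      Nonempty (L0 (M.red ω) K1 d r C₀ δ)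

end Pool.Agent.P.MP_6f117a_ag.Mid
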