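import Pool.Agent.P.MP_6f117a_ag.E.WDefs
import Pool.Agent.P.MP_6f117a_ag.PJ.Stmt

/-! Models in characteristic zero and their generic points in characteristic `p`. -/

namespace Pool.Agent.P.MP_6f117a_ag.Mid

open MvPolynomial Filter Sp EX

universe u

/-- Normalised homogeneous coordinates `y` of the generic point, a transcendence basis among them,
and one separable equation for each coordinate. -/
structure Pre (L K : Type u) [Field L] [Field K] [Algebra L K] (d N : ℕ) where
  y : Fin (N + 1) → K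
  e : Fin (d + 1) → Fin (N + 1)
  f : Fin (N + 1) → MvPolynomial (Option (Fin (d + 1))) L
  df : Fin (N + 1) → ℕ
  f_hom : ∀ a, (f a).IsHomogeneous (df a)
  f_e : ∀ i, f (e i) = X none - X (some i)
  y0 : y (e 0) = 1
  eqn : ∀ a, aeval (fun o : Option (Fin (d + 1)) => y (o.elim a e)) (f a) = 0
  der : ∀ a, aeval (fun o : Option (Fin (d + 1)) => y (o.elim a e)) (pderiv none (f a)) ≠ 0
  indx : AlgebraicIndependent L fun i : Fin d => y (e i.succ)
  gen : IntermediateField.adjoin L (Set.range y) = ⊤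
  alg : Algebra.IsAlgebraic (Algebra.adjoin L (Set.range fun i : Fin d => y (e i.succ))) K

/-- Finitely many families of forms. -/
structure Fam (L : Type u) [Field L] (N : ℕ) where
  G : Type
  [fG : Fintype G]
  J : G → Type
  [fJ : ∀ g, Fintype (J g)]
  [nJ : ∀ g, Nonempty (J g)]
  h : ∀ g, J g → MvPolynomial (Fin (N + 1)) L
  dh : G → ℕ
  h_hom : ∀ g j, (h g j).IsHomogeneous (dh g)

attribute [instance] Fam.fG Fam.fJ Fam.nJ

variable {L K : Type u} [Field L] [Field K] [Algebra L K] {d N : ℕ}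

namespace Pre

variable (Q : Pre L K d N)

/-- The affine coordinates. -/
def x (i : Fin d) : K := Q.y (Q.e i.succ)

/-- The arguments of the equation number `a`. -/
def ix (a : Fin (N + 1)) (o : Option (Fin (d + 1))) : Fin (N + 1) := o.elim a Q.e

/-- The equation of the coordinate number `a`. -/
noncomputable def eq (a : Fin (N + 1)) : MvPolynomial (Fin (N + 1)) L := rename (Q.ix a) (Q.f a)

/-- The partial derivatives of the equation of the coordinate number `a`. -/
noncomputable def dq (a : Fin (N + 1)) (o : Option (Fin (d + 1))) : MvPolynomial (Fin (N + 1)) L :=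
  rename (Q.ix a) (pderiv o (Q.f a))

/-- The derivative of the coordinate number `b` in the direction `i`. -/
noncomputable def J (i : Fin (d + 1)) (b : Fin (N + 1)) : K :=
  -aeval Q.y (Q.dq b (some i)) / aeval Q.y (Q.dq b none)

/-- The model. -/
@[reducible] noncomputable def mod (F : Fam L N) : Sp.Mod L where
  N := N
  ι := Fin (d + 1)
  e := Q.e
  f := Q.f
  df := Q.df
  f_hom := Q.f_hom
  f_e := Q.f_e
  G := F.G
  J := F.J
  h := F.h
  dh := F.dh
  h_hom := F.h_hom

theorem eq_hom (a : Fin (N + 1)) : (Q.eq a).IsHomogeneous (Q.df a) := (Q.f_hom a).rename_isHomogeneous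

theorem eq_zero (a : Fin (N + 1)) : aeval Q.y (Q.eq a) = 0 := by
  rw [eq, aeval_rename]; exact Q.eqn a

theorem dq_ne (a : Fin (N + 1)) : aeval Q.y (Q.dq a none) ≠ 0 := by
  rw [dq, aeval_rename]; exact Q.der a

theorem J_mul (i : Fin (d + 1)) (b : Fin (N + 1)) :
    Q.J i b * aeval Q.y (Q.dq b none) + aeval Q.y (Q.dq b (some i)) = 0 := by
  rw [J, div_mul_cancel₀ _ (Q.dq_ne b), neg_add_cancel]

theorem J_e (i s : Fin (d + 1)) : Q.J i (Q.e s) = if i = s then 1 else 0 := by
  classical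
  simp only [J, dq, Q.f_e, map_sub, pderiv_X, Pi.single_apply]
  by_cases h : i = s
  · simp [h]
  · simp [h, Ne.symm h]

theorem exists_div (b : K) : ∃ R S : MvPolynomial (Fin (N + 1)) L, aeval Q.y S ≠ 0 ∧
    b = aeval Q.y R / aeval Q.y S := by
  obtain ⟨R, S, h⟩ := (IntermediateField.mem_adjoin_range_iff L Q.y b).1 (Q.gen ▸ trivial)
  by_cases hS : aeval Q.y S = 0
  · exact ⟨0, 1, by simp, by simp [h, hS]⟩
  · exact ⟨R, S, hS, h⟩

/-- A numerator. -/
noncomputable def num (b : K) : MvPolynomial (Fin (N + 1)) L := (Q.exists_div b).choose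

/-- A denominator. -/
noncomputable def den (b : K) : MvPolynomial (Fin (N + 1)) L := (Q.exists_div b).choose_spec.choose

theorem den_ne (b : K) : aeval Q.y (Q.den b) ≠ 0 := (Q.exists_div b).choose_spec.choose_spec.1

theorem num_div (b : K) : b = aeval Q.y (Q.num b) / aeval Q.y (Q.den b) :=
  (Q.exists_div b).choose_spec.choose_spec.2

end Pre

/-- The affine coordinates together with the value of `l`. -/
noncomputable def xw {k A : Type*} [CommRing k] [CommRing A] [Algebra k A] {d N : ℕ}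
    (e : Fin (d + 1) → Fin (N + 1)) (l : MvPolynomial (Fin (N + 1)) k) (y : Fin (N + 1) → A) :
    Option (Fin d) → A := fun o => o.elim (aeval y l) fun i => y (e i.succ)

/-- The same as polynomials. -/
noncomputable def xwP {k : Type*} [CommRing k] {d N : ℕ} (e : Fin (d + 1) → Fin (N + 1))
    (l : MvPolynomial (Fin (N + 1)) k) : Option (Fin d) → MvPolynomial (Fin (N + 1)) k :=
  fun o => o.elim l fun i => X (e i.succ)

theorem aeval_xwP {k A : Type*} [CommRing k] [CommRing A] [Algebra k A] {d N : ℕ}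
    (e : Fin (d + 1) → Fin (N + 1)) (l : MvPolynomial (Fin (N + 1)) k) (y : Fin (N + 1) → A)
    (a : MvPolynomial (Option (Fin d)) k) : aeval y (aeval (xwP e l) a) = aeval (xw e l y) a := by
  rw [← AlgHom.comp_apply, comp_aeval]
  congr 2; funext o; cases o <;> simp [xw, xwP]

/-- A primitive element `l (y)` that is integral over the affine coordinates. -/
structure Prs (Q : Pre L K d N) where
  l : MvPolynomial (Fin (N + 1)) L
  Pm : MvPolynomial (Option (Fin d)) L
  δ : ℕ
  pos : 0 < δ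
  monic : (optionEquivLeft L (Fin d) Pm).Monic
  deg : (optionEquivLeft L (Fin d) Pm).natDegree = δ
  ker : ∀ a, aeval (xw Q.e l Q.y) a = 0 ↔ Pm ∣ a
  pres : ∀ b : K, ∃ (Δ : MvPolynomial (Fin d) L) (a : MvPolynomial (Option (Fin d)) L), Δ ≠ 0 ∧
    aeval Q.x Δ * b = aeval (xw Q.e l Q.y) a

/-- A certificate for smoothness. -/
def Pre.Rel (Q : Pre L K d N) : Prop :=
  ∀ c, Q.y c ≠ 0 → ∃ (T : ℕ) (R : Fin T → MvPolynomial (Fin (N + 1)) L)
    (lam : Fin (N + 1) → Fin T → K) (Θ : Fin (d + 1) → Fin (N + 1) → K),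
    (∀ t, ∃ e, (R t).IsHomogeneous e) ∧ (∀ t, aeval Q.y (R t) = 0) ∧
    (∀ b t, lam b t ∈ Rc L Q.y c) ∧
    ∀ b b', (if b = b' then 1 else 0) =
      ∑ t, lam b t * aeval (fun a => Q.y a / Q.y c) (pderiv b' (R t)) + ∑ i, Q.J i b * Θ i b'

/-- A certificate for a big pluricanonical system. -/
structure Pre.Plu (Q : Pre L K d N) (r : ℕ) (h : Fin (d + 1) → K) : Prop where
  h_ne : h 0 ≠ 0
  ind : AlgebraicIndependent L fun j : Fin d => h j.succ / h 0
  plu : ∀ c, Q.y c ≠ 0 → ∀ j, h j * Q.y c ^ (r * (d + 1)) ∈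
    Submodule.span (Rc L Q.y c) (Set.range (minor Q.J 0)) ^ r

/-- All the data in characteristic zero. -/
structure MD (L K : Type u) [Field L] [Field K] [Algebra L K] (d N r : ℕ) where
  Q : Pre L K d N
  F : Fam L N
  R : Prs Q
  h : Fin (d + 1) → K
  del : aeval Q.y (Q.mod F).Del ≠ 0
  sep : ∀ (T : MvPolynomial (Fin (N + 1)) L) (e : ℕ), T.IsHomogeneous e → aeval Q.y T = 0 →
    (Q.mod F).Del * T ∈ Ideal.span (Set.range Q.eq)
  x0 : ∃ g j, F.h g j = X (Q.e 0)
  fam : ∀ i, ∃ (g : F.G) (w : K), w ≠ 0 ∧ (∀ j, ∃ a, aeval Q.y (F.h g j) = w * gs Q.J Q.y h i a) ∧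
    ∀ a, gs Q.J Q.y h i a ≠ 0 → ∃ j, aeval Q.y (F.h g j) = w * gs Q.J Q.y h i a
  rel : Q.Rel
  plu : Q.Plu r h
  uΔ : ∃ (Δ : MvPolynomial (Fin d) L) (a : Fin (N + 1) → MvPolynomial (Option (Fin d)) L)
    (S : MvPolynomial (Fin (N + 1)) L), (∀ b, aeval Q.x Δ * Q.y b = aeval (xw Q.e R.l Q.y) (a b)) ∧
      aeval Q.y S * aeval Q.x Δ = aeval Q.y (Q.mod F).Del

variable {r : ℕ}

/-- The form outside whose zero set the model is used. -/
noncomputable def MD.Del (D : MD L K d N r) : MvPolynomial (Fin (N + 1)) L := (D.Q.mod D.F).Del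

/-- Normalised points of the reduction of the model. -/
structure MD.Pt0 (D : MD L K d N r) (ω : Spec L) {A : Type} [CommRing A] [Algebra (kk ω.p) A]
    (y : Fin (N + 1) → A) : Prop where
  y0 : y (D.Q.e 0) = 1
  eqn : ∀ a, aeval y (ω.red0 (D.Q.eq a)) = 0
  del : aeval y (ω.red0 D.Del) ≠ 0

/-- The generic point of the reduction of the model. -/
structure Gen (D : MD L K d N r) where
  ω : Spec L
  K1 : Type
  [fld : Field K1]
  [alg : Algebra (kk ω.p) K1]
  y : Fin (N + 1) → K1
  pt : D.Pt0 ω y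
  ker : ∀ a, aeval (xw D.Q.e (ω.red0 D.R.l) y) a = 0 ↔ ω.red0 D.R.Pm ∣ a
  gen : IntermediateField.adjoin (kk ω.p) (Set.range (xw D.Q.e (ω.red0 D.R.l) y)) = ⊤

attribute [instance] Gen.fld Gen.alg

/-- Large specialisations. -/
def gF (D : MD L K d N r) : Filter (Gen D) := (spF L).comap Gen.ω

namespace Gen

variable {D : MD L K d N r} (G : Gen D)

/-- The ground field. -/
abbrev k : Type := kk G.ω.p

/-- The reduction of a rational function. -/
noncomputable def pi (b : K) : G.K1 :=
  aeval G.y (G.ω.red0 (D.Q.num b)) / aeval G.y (G.ω.red0 (D.Q.den b))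

/-- The affine coordinates. -/
def x (i : Fin d) : G.K1 := G.y (D.Q.e i.succ)

/-- The affine coordinates and the primitive element. -/
noncomputable def xw : Option (Fin d) → G.K1 := Mid.xw D.Q.e (G.ω.red0 D.R.l) G.y

/-- The reduction of the Jacobian matrix. -/
noncomputable def J (i : Fin (d + 1)) (b : Fin (N + 1)) : G.K1 := G.pi (D.Q.J i b)

/-- The reduction of the pluricanonical forms. -/
noncomputable def h (j : Fin (d + 1)) : G.K1 := G.pi (D.h j)

end Gen

end Pool.Agent.P.MP_6f117a_ag.Mid
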