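import Pool.Agent.P.MP_6f117a_ag.M.Iface

/-! Step LZ on models and their reductions. -/

namespace Pool.Agent.P.MP_6f117a_ag.Mid

open MvPolynomial Filter Sp EX PJ Module

universe u

theorem pLZ (L : Type u) [Field L] [IsAlgClosed L] [CharZero L]
    (hUNIV : S_UNIV L) (hFIN : S_FIN L) (hFAM : S_FAM L) (hRELP : S_RELP L) (hIND : S_IND L)
    (hPLUP : S_PLUP L) (hDIM : S_DIM L) : S_LZ L := by
  intro K _ _ d N r D
  obtain ⟨C₀, hC⟩ := hDIM K d N r D
  obtain ⟨g₀, j₀, h₀⟩ := D.x0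
  refine ⟨C₀, ?_⟩
  filter_upwards [hUNIV K d N r D, hFIN K d N r D, hFAM K d N r D, hRELP K d N r D, hIND K d N r D,
    hPLUP K d N r D, hC, ev_indx D, ev_g (ev_eqn D), ev_g (ev_Del D), ev_g (ev_der D),
    eventually_all.2 fun i => eventually_all.2 fun b =>
      ev_pi_add (D.Q.J i b * aeval D.Q.y (D.Q.dq b none)) (aeval D.Q.y (D.Q.dq b (some i))),
    eventually_all.2 fun i => eventually_all.2 fun b =>
      ev_pi_mul (D.Q.J i b) (aeval D.Q.y (D.Q.dq b none)),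
    eventually_all.2 fun b => eventually_all.2 fun o => ev_pi_poly (D.Q.dq b o), ev_pi_zero]
    with G h1 h2 h3 h4 h5 h6 h7 h8 e1 e2 e3 e4 e5 e6 e7
  refine ⟨⟨Equiv.refl _, G.y, G.J, G.h, G.pt.y0, fun a => ?_, ?_, fun i b => ?_,
    fun Ω _ _ y' a1 a2 a3 => h1 Ω y' ⟨a1, fun a => ?_, ?_⟩, ⟨g₀, j₀, ?_⟩, h3, h4, h5.1, h5.2, h6,
    h7, h8, h2.1, h2.2.1⟩⟩
  · exact (congrArg (e0 G.y) (e1 a)).trans (G.pt.eqn a)
  · exact fun h => G.pt.del ((congrArg (e0 G.y) e2).symm.trans h)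
  · change Fin (N + 1) at b
    have := e4 i b
    rw [D.Q.J_mul, e7, e5, e6, e6] at this
    refine Eq.trans ?_ this.symm
    congr 1
    · exact congrArg (fun t => G.J i b * e0 G.y t) (e3 b none)
    · refine Eq.trans ?_ (congrArg (e0 G.y) (e3 b (some i)))
      rw [e0, e0, map_rename, aeval_rename]; rfl
  · exact (congrArg (e0 y') (e1 a)).symm.trans (a2 a)
  · exact fun h => a3 ((congrArg (e0 y') e2).trans h)
  · exact (congrArg G.ω.red h₀).trans (red_X _ _)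

end Pool.Agent.P.MP_6f117a_ag.Mid
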