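import Pool.Agent.P.MP_6f117a_ag.M.Defs

/-! Transfer of identities from characteristic zero to characteristic `p`. -/

namespace Pool.Agent.P.MP_6f117a_ag.Mid

open MvPolynomial Filter Sp EX

universe u

section

variable {L : Type u} [Field L] {σ τ : Type}

theorem red_X (ω : Spec L) (i : σ) : ω.red (X i : MvPolynomial σ L) = X i := by
  simpa using ω.red_map (X i)

theorem red_zero (ω : Spec L) : ω.red (0 : MvPolynomial σ L) = 0 := by
  simpa using ω.red_map (0 : MvPolynomial σ ω.Λ)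

theorem red_one (ω : Spec L) : ω.red (1 : MvPolynomial σ L) = 1 := by
  simpa using ω.red_map (1 : MvPolynomial σ ω.Λ)

theorem red0_X (ω : Spec L) (i : σ) : ω.red0 (X i : MvPolynomial σ L) = X i := by
  rw [Spec.red0, red_X, map_X]

theorem red0_zero (ω : Spec L) : ω.red0 (0 : MvPolynomial σ L) = 0 := by
  rw [Spec.red0, red_zero, map_zero]

theorem red0_one (ω : Spec L) : ω.red0 (1 : MvPolynomial σ L) = 1 := by
  rw [Spec.red0, red_one, map_one]

theorem red0_C (ω : Spec L) (a : L) : ω.red0 (C a : MvPolynomial σ L) = C (ω.r0 a) := by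
  classical
  ext m : 1
  rw [ω.coeff_red0, coeff_C, coeff_C]; split_ifs <;> simp

theorem ev_red_sub (f g : MvPolynomial σ L) : ∀ᶠ ω in spF L, ω.red (f - g) = ω.red f - ω.red g := by
  filter_upwards [ev_red_add (f - g) g] with ω h
  rw [sub_add_cancel] at h; rw [h, add_sub_cancel_right]

theorem ev_red_sum {ι : Type*} (s : Finset ι) (f : ι → MvPolynomial σ L) :
    ∀ᶠ ω in spF L, ω.red (∑ i ∈ s, f i) = ∑ i ∈ s, ω.red (f i) := by
  classical
  induction s using Finset.induction_on with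
  | empty => exact .of_forall fun ω => by simpa using red_zero ω
  | insert i s hi ih =>
    filter_upwards [ih, ev_red_add (f i) (∑ i ∈ s, f i)] with ω h1 h2
    rw [Finset.sum_insert hi, Finset.sum_insert hi, h2, h1]

theorem ev_red_prod {ι : Type*} (s : Finset ι) (f : ι → MvPolynomial σ L) :
    ∀ᶠ ω in spF L, ω.red (∏ i ∈ s, f i) = ∏ i ∈ s, ω.red (f i) := by
  classical
  induction s using Finset.induction_on with
  | empty => exact .of_forall fun ω => by simpa using red_one ω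
  | insert i s hi ih =>
    filter_upwards [ih, ev_red_mul (f i) (∏ i ∈ s, f i)] with ω h1 h2
    rw [Finset.prod_insert hi, Finset.prod_insert hi, h2, h1]

theorem ev_red_rename (g : σ → τ) (f : MvPolynomial σ L) :
    ∀ᶠ ω in spF L, ω.red (rename g f) = rename g (ω.red f) := by
  filter_upwards [ev_lift f] with ω ⟨f, hf⟩
  rw [← hf, ← map_rename, ω.red_map, ω.red_map, map_rename]

theorem ev_red0_add (f g : MvPolynomial σ L) :
    ∀ᶠ ω in spF L, ω.red0 (f + g) = ω.red0 f + ω.red0 g :=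
  (ev_red_add f g).mono fun ω h => by rw [Spec.red0, h, map_add]; rfl

theorem ev_red0_sub (f g : MvPolynomial σ L) :
    ∀ᶠ ω in spF L, ω.red0 (f - g) = ω.red0 f - ω.red0 g :=
  (ev_red_sub f g).mono fun ω h => by rw [Spec.red0, h, map_sub]; rfl

theorem ev_red0_mul (f g : MvPolynomial σ L) :
    ∀ᶠ ω in spF L, ω.red0 (f * g) = ω.red0 f * ω.red0 g :=
  (ev_red_mul f g).mono fun ω h => by rw [Spec.red0, h, map_mul]; rfl

theorem ev_red0_sum {ι : Type*} (s : Finset ι) (f : ι → MvPolynomial σ L) :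
    ∀ᶠ ω in spF L, ω.red0 (∑ i ∈ s, f i) = ∑ i ∈ s, ω.red0 (f i) :=
  (ev_red_sum s f).mono fun ω h => by rw [Spec.red0, h, map_sum]; rfl

theorem ev_red0_prod {ι : Type*} (s : Finset ι) (f : ι → MvPolynomial σ L) :
    ∀ᶠ ω in spF L, ω.red0 (∏ i ∈ s, f i) = ∏ i ∈ s, ω.red0 (f i) :=
  (ev_red_prod s f).mono fun ω h => by rw [Spec.red0, h, map_prod]; rfl

theorem ev_red0_pow (f : MvPolynomial σ L) (n : ℕ) :
    ∀ᶠ ω in spF L, ω.red0 (f ^ n) = ω.red0 f ^ n := by
  simpa using ev_red0_prod (Finset.range n) fun _ => f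

theorem ev_red0_pderiv (i : σ) (f : MvPolynomial σ L) :
    ∀ᶠ ω in spF L, ω.red0 (pderiv i f) = pderiv i (ω.red0 f) :=
  (ev_red_pderiv i f).mono fun ω h => by rw [Spec.red0, h, ← pderiv_map]; rfl

theorem ev_red0_rename (g : σ → τ) (f : MvPolynomial σ L) :
    ∀ᶠ ω in spF L, ω.red0 (rename g f) = rename g (ω.red0 f) :=
  (ev_red_rename g f).mono fun ω h => by rw [Spec.red0, h, map_rename]; rfl

theorem ev_red0_bind [Finite σ] (g : σ → MvPolynomial τ L) (f : MvPolynomial σ L) :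
    ∀ᶠ ω in spF L, ω.red0 (aeval g f) = aeval (fun i => ω.red0 (g i)) (ω.red0 f) := by
  filter_upwards [ev_lift f, ev_lifts g] with ω ⟨f, hf⟩ ⟨g, hg⟩
  have e : ∀ {S : Type u} [CommRing S] (φ : ω.Λ →+* S), aeval (fun i => map φ (g i)) (map φ f) =
    map φ (aeval g f) := fun φ => by rw [aeval_eq_bind₁, aeval_eq_bind₁, map_bind₁]
  rw [← hf, ← funext hg, e, ω.red0_map, ω.red0_map]
  simp only [ω.red0_map]
  rw [aeval_eq_bind₁, aeval_eq_bind₁, map_bind₁]

theorem ev_red0_ne {f : MvPolynomial σ L} (h : f ≠ 0) : ∀ᶠ ω in spF L, ω.red0 f ≠ 0 :=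
  (ev_support_red0 f).mono fun _ h1 h2 => h (support_eq_empty.1 (by rw [← h1, h2, support_zero]))

theorem ev_red0_dvd {f g : MvPolynomial σ L} (h : f ∣ g) : ∀ᶠ ω in spF L, ω.red0 f ∣ ω.red0 g := by
  obtain ⟨c, rfl⟩ := h
  exact (ev_red0_mul f c).mono fun ω h => ⟨_, h⟩

theorem ev_span {ι : Type*} [Finite ι] {g : ι → MvPolynomial σ L} {f : MvPolynomial σ L}
    (h : f ∈ Ideal.span (Set.range g)) :
    ∀ᶠ ω in spF L, ω.red f ∈ Ideal.span (Set.range fun i => ω.red (g i)) := by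
  cases nonempty_fintype ι
  obtain ⟨c, rfl⟩ := Ideal.mem_span_range_iff_exists_fun.1 h
  filter_upwards [ev_red_sum Finset.univ fun i => c i * g i,
    eventually_all.2 fun i => ev_red_mul (c i) (g i)] with ω h1 h2
  exact Ideal.mem_span_range_iff_exists_fun.2 ⟨fun i => ω.red (c i), by simp only [h1, h2]⟩

theorem oel_map {R S : Type*} [CommRing R] [CommRing S] (φ : R →+* S)
    (g : MvPolynomial (Option σ) R) :
    optionEquivLeft S σ (map φ g) = (optionEquivLeft R σ g).map (map φ) := by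
  induction g using MvPolynomial.induction_on with
  | C a => simp
  | add a b ha hb => simp [ha, hb]
  | mul_X a i ha => cases i <;> simp [ha]

theorem oel_rename {R : Type*} [CommRing R] (g : MvPolynomial σ R) :
    optionEquivLeft R σ (rename some g) = Polynomial.C g := by
  induction g using MvPolynomial.induction_on with
  | C a => simp
  | add a b ha hb => simp [ha, hb]
  | mul_X a i ha => simp [ha]

theorem ev_monic {f : MvPolynomial (Option σ) L} (h : (optionEquivLeft L σ f).Monic) :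
    ∀ᶠ ω in spF L, (optionEquivLeft _ σ (ω.red0 f)).Monic ∧
      (optionEquivLeft _ σ (ω.red0 f)).natDegree = (optionEquivLeft L σ f).natDegree := by
  filter_upwards [ev_lift f] with ω ⟨g, hg⟩
  have i := map_injective (σ := σ) ω.Λ.subtype Subtype.val_injective
  rw [← hg, oel_map] at h
  have h' := Polynomial.monic_of_injective i h
  rw [← hg, oel_map, ω.red0_map, oel_map, h'.natDegree_map, h'.natDegree_map]
  exact ⟨h'.map _, rfl⟩

/-- Homogenisation with respect to the variable `i`. -/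
theorem exists_hom {R : Type*} [CommRing R] (i : σ) (f : MvPolynomial σ R) (n : ℕ)
    (hn : f.totalDegree ≤ n) : ∃ g c : MvPolynomial σ R, g.IsHomogeneous n ∧
      g = f + c * (X i - 1) := by
  have : ∑ j ∈ Finset.range (f.totalDegree + 1), X i ^ (n - j) * homogeneousComponent j f - f ∈
      Ideal.span {(X i - 1 : MvPolynomial σ R)} := by
    nth_rw 3 [← sum_homogeneousComponent f]
    rw [← Finset.sum_sub_distrib]
    refine sum_mem fun j _ => ?_
    rw [← sub_one_mul]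
    exact Ideal.mul_mem_right _ _ (Ideal.mem_span_singleton.2 (by
      simpa using sub_dvd_pow_sub_pow (X i : MvPolynomial σ R) 1 (n - j)))
  obtain ⟨c, hc⟩ := Ideal.mem_span_singleton'.1 this
  refine ⟨_, c, IsHomogeneous.sum _ _ _ fun j hj => ?_, by rw [hc]; ring⟩
  have := (isHomogeneous_X_pow (R := R) i (n - j)).mul (homogeneousComponent_isHomogeneous j f)
  rwa [Nat.sub_add_cancel (by have := Finset.mem_range.1 hj; omega)] at this

end

variable {L K : Type u} [Field L] [Field K] [Algebra L K] {d N r : ℕ} (D : MD L K d N r)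

theorem ev_eqn : ∀ᶠ ω in spF L, ∀ a, ((D.Q.mod D.F).red ω).eqn a = ω.red (D.Q.eq a) :=
  eventually_all.2 fun a => (ev_red_rename (D.Q.ix a) (D.Q.f a)).mono fun _ h => h.symm

theorem ev_der : ∀ᶠ ω in spF L, ∀ a o,
    rename (D.Q.ix a) (pderiv o (ω.red (D.Q.f a))) = ω.red (D.Q.dq a o) :=
  eventually_all.2 fun a => eventually_all.2 fun o => by
    filter_upwards [ev_red_rename (D.Q.ix a) (pderiv o (D.Q.f a)), ev_red_pderiv o (D.Q.f a)]
      with ω h1 h2
    rw [Pre.dq, h1, h2]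

theorem ev_Del : ∀ᶠ ω in spF L, ((D.Q.mod D.F).red ω).Del = ω.red D.Del := by
  filter_upwards [ev_der D, ev_red_mul (∏ a, D.Q.dq a none) (∏ g, ∏ j, D.F.h g j),
    ev_red_prod Finset.univ fun a => D.Q.dq a none,
    ev_red_prod Finset.univ fun g => ∏ j, D.F.h g j,
    eventually_all.2 fun g => ev_red_prod Finset.univ (D.F.h g)] with ω h1 h2 h3 h4 h5
  refine Eq.trans ?_ h2.symm
  rw [h3, h4]
  simp only [h5, ← h1]
  rfl

/-- Forms that vanish on the variety vanish at all Witt vector points of the model. -/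
theorem trans {T : MvPolynomial (Fin (N + 1)) L} {e : ℕ} (h : T.IsHomogeneous e)
    (h0 : aeval D.Q.y T = 0) : ∀ᶠ ω in spF L, ∀ (Ω : Type) [Field Ω] [Algebra (kk ω.p) Ω]
      (z : Fin (N + 1) → WittVector ω.p Ω), ((D.Q.mod D.F).red ω).Pt z →
        eval₂ (WittVector.map (algebraMap (kk ω.p) Ω)) z (ω.red T) = 0 := by
  filter_upwards [ev_span (D.sep T e h h0), ev_red_mul D.Del T, ev_eqn D, ev_Del D]
    with ω h1 h2 h3 h4 Ω _ _ z hz
  have : CharP Ω ω.p := charP_of_injective_algebraMap (algebraMap (kk ω.p) Ω).injective _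
  let φ := eval₂Hom (WittVector.map (p := ω.p) (algebraMap (kk ω.p) Ω)) z
  have h5 : φ (ω.red (D.Del * T)) = 0 := Ideal.span_le (I := RingHom.ker φ) |>.2
    (by rintro _ ⟨a, rfl⟩; exact (congrArg φ (h3 a)).symm.trans (hz.1 a)) h1
  rw [h2, map_mul] at h5
  refine (mul_eq_zero.1 h5).resolve_left fun h6 => hz.2 ?_
  have := congrArg WittVector.constantCoeff h6
  rw [map_zero, coe_eval₂Hom, hom_eval₂] at this
  refine (congrArg (e0 fun b => (z b).coeff 0) h4).trans ?_
  rw [e0, aeval_def, eval₂_map]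
  exact this

/-- Polynomials that vanish on the variety vanish at all normalised points of the model. -/
theorem trans0 {T : MvPolynomial (Fin (N + 1)) L} (h0 : aeval D.Q.y T = 0) :
    ∀ᶠ ω in spF L, ∀ (Ω : Type) [Field Ω] [Algebra (kk ω.p) Ω] (y : Fin (N + 1) → Ω),
      D.Pt0 ω y → aeval y (ω.red0 T) = 0 := by
  obtain ⟨g, c, hg, e⟩ := exists_hom (D.Q.e 0) T _ le_rfl
  filter_upwards [ev_span (D.sep g _ hg (by simp [e, h0, D.Q.y0])), ev_red0_mul D.Del g,
    ev_red0_add T (c * (X (D.Q.e 0) - 1)), ev_red0_mul c (X (D.Q.e 0) - 1),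
    ev_red0_sub (X (D.Q.e 0)) 1] with ω h1 h2 h3 h4 h5 Ω _ _ y hy
  let φ := (aeval (R := kk ω.p) y).toRingHom.comp (map (WittVector.constantCoeff (p := ω.p)))
  have h6 : aeval y (ω.red0 (D.Del * g)) = 0 :=
    Ideal.span_le (I := RingHom.ker φ) |>.2 (by rintro _ ⟨a, rfl⟩; exact hy.eqn a) h1
  rw [h2, map_mul, e, h3, h4, h5, red0_X, red0_one] at h6
  simpa [hy.y0, hy.del] using h6

/-- The same for identities. -/
theorem trans0_eq {S T : MvPolynomial (Fin (N + 1)) L} (h0 : aeval D.Q.y S = aeval D.Q.y T) :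
    ∀ᶠ ω in spF L, ∀ (Ω : Type) [Field Ω] [Algebra (kk ω.p) Ω] (y : Fin (N + 1) → Ω),
      D.Pt0 ω y → aeval y (ω.red0 S) = aeval y (ω.red0 T) := by
  filter_upwards [trans0 D (T := S - T) (by rw [map_sub, h0, sub_self]), ev_red0_sub S T]
    with ω h1 h2 Ω _ _ y hy
  rw [← sub_eq_zero, ← map_sub, ← h2, h1 Ω y hy]

theorem ev_xw (a : MvPolynomial (Option (Fin d)) L) : ∀ᶠ ω in spF L, ∀ (A : Type) [CommRing A]
    [Algebra (kk ω.p) A] (y : Fin (N + 1) → A), aeval y (ω.red0 (aeval (xwP D.Q.e D.R.l) a)) =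
      aeval (xw D.Q.e (ω.red0 D.R.l) y) (ω.red0 a) := by
  filter_upwards [ev_red0_bind (xwP D.Q.e D.R.l) a] with ω h A _ _ y
  rw [h, ← aeval_xwP]
  congr 3; funext o; cases o <;> simp [xwP, red0_X]

variable {D}

theorem ev_g {P : Spec L → Prop} (h : ∀ᶠ ω in spF L, P ω) : ∀ᶠ G in gF D, P G.ω :=
  tendsto_comap.eventually h

theorem ev_eq {S T : MvPolynomial (Fin (N + 1)) L} (h0 : aeval D.Q.y S = aeval D.Q.y T) :
    ∀ᶠ G in gF D, aeval G.y (G.ω.red0 S) = aeval G.y (G.ω.red0 T) :=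
  (ev_g (trans0_eq D h0)).mono fun G h => h _ _ G.pt

variable (D) in
theorem ev_indx : ∀ᶠ G in gF D, AlgebraicIndependent G.k G.x := by
  filter_upwards [ev_g (ev_monic D.R.monic)] with G ⟨h1, h2⟩
  refine algebraicIndependent_iff.2 fun Δ h => ?_
  have h3 := (G.ker (rename some Δ)).1 (by rw [aeval_rename]; exact h)
  have h4 := map_dvd (optionEquivLeft G.k (Fin d)) h3
  rw [oel_rename] at h4
  by_contra h6
  have := Polynomial.natDegree_le_of_dvd h4 (Polynomial.C_ne_zero.2 h6)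
  have := D.R.pos
  rw [h2, D.R.deg, Polynomial.natDegree_C] at *
  omega

theorem ev_ne {T : MvPolynomial (Fin (N + 1)) L} (h : aeval D.Q.y T ≠ 0) :
    ∀ᶠ G in gF D, aeval G.y (G.ω.red0 T) ≠ 0 := by
  obtain ⟨Δ, a, h1, h2⟩ := D.R.pres (aeval D.Q.y T)⁻¹
  have h3 : aeval D.Q.y (rename (fun i => D.Q.e i.succ) Δ) =
      aeval D.Q.y (aeval (xwP D.Q.e D.R.l) a * T) := by
    rw [map_mul, aeval_xwP, ← h2, aeval_rename, inv_mul_cancel_right₀ h]; rfl
  filter_upwards [ev_eq h3, ev_indx D, ev_g (ev_red0_ne h1), ev_g (ev_red0_mul _ T),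
    ev_g (ev_red0_rename (fun i => D.Q.e i.succ) Δ)] with G e1 e2 e3 e4 e5 e6
  rw [e4, map_mul, e6, mul_zero, e5, aeval_rename] at e1
  exact e3 (algebraicIndependent_iff.1 e2 _ e1)

theorem ev_pi_div (R : MvPolynomial (Fin (N + 1)) L) {S : MvPolynomial (Fin (N + 1)) L}
    (h : aeval D.Q.y S ≠ 0) : ∀ᶠ G in gF D, G.pi (aeval D.Q.y R / aeval D.Q.y S) =
      aeval G.y (G.ω.red0 R) / aeval G.y (G.ω.red0 S) := by
  set b := aeval D.Q.y R / aeval D.Q.y S with hb
  have h1 : aeval D.Q.y (D.Q.num b * S) = aeval D.Q.y (R * D.Q.den b) := by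
    rw [map_mul, map_mul, ← div_eq_div_iff (D.Q.den_ne b) h, ← D.Q.num_div]
  filter_upwards [ev_eq h1, ev_ne h, ev_ne (D.Q.den_ne b), ev_g (ev_red0_mul (D.Q.num b) S),
    ev_g (ev_red0_mul R (D.Q.den b))] with G e1 e2 e3 e4 e5
  rw [Gen.pi, div_eq_div_iff e3 e2, ← map_mul, ← map_mul, ← e4, ← e5, e1]

theorem ev_pi_poly (R : MvPolynomial (Fin (N + 1)) L) :
    ∀ᶠ G in gF D, G.pi (aeval D.Q.y R) = aeval G.y (G.ω.red0 R) := by
  simpa [red0_one] using ev_pi_div (D := D) R (S := 1) (by simp)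

theorem ev_pi_y : ∀ᶠ G in gF D, ∀ b, G.pi (D.Q.y b) = G.y b :=
  eventually_all.2 fun b => by simpa [red0_X] using ev_pi_poly (D := D) (X b)

theorem ev_pi_zero : ∀ᶠ G in gF D, G.pi 0 = 0 := by
  simpa [red0_zero] using ev_pi_poly (D := D) 0

theorem ev_pi_one : ∀ᶠ G in gF D, G.pi 1 = 1 := by
  simpa [red0_one] using ev_pi_poly (D := D) 1

theorem ev_pi_const (a : L) :
    ∀ᶠ G in gF D, G.pi (algebraMap L K a) = algebraMap G.k G.K1 (G.ω.r0 a) := by
  simpa [red0_C] using ev_pi_poly (D := D) (C a)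

theorem ev_pi_add (a b : K) : ∀ᶠ G in gF D, G.pi (a + b) = G.pi a + G.pi b := by
  have ha := D.Q.den_ne a
  have hb := D.Q.den_ne b
  have h := ev_pi_div (D := D) (D.Q.num a * D.Q.den b + D.Q.den a * D.Q.num b)
    (S := D.Q.den a * D.Q.den b) (by rw [map_mul]; exact mul_ne_zero ha hb)
  rw [map_add, map_mul, map_mul, map_mul, ← div_add_div _ _ ha hb, ← D.Q.num_div,
    ← D.Q.num_div] at h
  filter_upwards [h, ev_ne ha, ev_ne hb, ev_g (ev_red0_add _ _), ev_g (ev_red0_mul (D.Q.num a) _),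
    ev_g (ev_red0_mul _ (D.Q.num b)), ev_g (ev_red0_mul (D.Q.den a) (D.Q.den b))]
    with G e1 e2 e3 e4 e5 e6 e7
  rw [e1, e4, e5, e6, e7, map_add, map_mul, map_mul, map_mul, ← div_add_div _ _ e2 e3]; rfl

theorem ev_pi_mul (a b : K) : ∀ᶠ G in gF D, G.pi (a * b) = G.pi a * G.pi b := by
  have h := ev_pi_div (D := D) (D.Q.num a * D.Q.num b) (S := D.Q.den a * D.Q.den b)
    (by rw [map_mul]; exact mul_ne_zero (D.Q.den_ne a) (D.Q.den_ne b))
  rw [map_mul, map_mul, mul_div_mul_comm, ← D.Q.num_div, ← D.Q.num_div] at h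
  filter_upwards [h, ev_g (ev_red0_mul (D.Q.num a) (D.Q.num b)),
    ev_g (ev_red0_mul (D.Q.den a) (D.Q.den b))] with G e1 e2 e3
  rw [e1, e2, e3, map_mul, map_mul, mul_div_mul_comm]; rfl

theorem ev_pi_sub (a b : K) : ∀ᶠ G in gF D, G.pi (a - b) = G.pi a - G.pi b := by
  filter_upwards [ev_pi_add (a - b) b] with G h
  rw [sub_add_cancel] at h; rw [h, add_sub_cancel_right]

theorem ev_pi_neg (a : K) : ∀ᶠ G in gF D, G.pi (-a) = -G.pi a := by
  filter_upwards [ev_pi_sub 0 a, ev_pi_zero] with G h h0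
  rwa [zero_sub, h0, zero_sub] at h

theorem ev_pi_ne {a : K} (h : a ≠ 0) : ∀ᶠ G in gF D, G.pi a ≠ 0 := by
  filter_upwards [ev_pi_mul a a⁻¹, ev_pi_one] with G h1 h2 h3
  rw [mul_inv_cancel₀ h, h2, h3, zero_mul] at h1
  exact one_ne_zero h1

theorem ev_pi_eq_zero (a : K) : ∀ᶠ G in gF D, G.pi a = 0 ↔ a = 0 := by
  by_cases h : a = 0
  · exact ev_pi_zero.mono fun G h1 => by simp [h, h1]
  · exact (ev_pi_ne h).mono fun G h1 => by simp [h, h1]

theorem ev_pi_div' (a b : K) : ∀ᶠ G in gF D, G.pi (a / b) = G.pi a / G.pi b := by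
  by_cases h : b = 0
  · exact ev_pi_zero.mono fun G h1 => by simp [h, h1]
  · filter_upwards [ev_pi_mul (a / b) b, ev_pi_ne h] with G h1 h2
    rw [div_mul_cancel₀ _ h] at h1
    rw [h1, mul_div_cancel_right₀ _ h2]

theorem ev_pi_sum {ι : Type*} (s : Finset ι) (f : ι → K) :
    ∀ᶠ G in gF D, G.pi (∑ i ∈ s, f i) = ∑ i ∈ s, G.pi (f i) := by
  classical
  induction s using Finset.induction_on with
  | empty => simpa using ev_pi_zero
  | insert i s hi ih =>
    filter_upwards [ih, ev_pi_add (f i) (∑ i ∈ s, f i)] with ω h1 h2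
    rw [Finset.sum_insert hi, Finset.sum_insert hi, h2, h1]

theorem ev_pi_prod {ι : Type*} (s : Finset ι) (f : ι → K) :
    ∀ᶠ G in gF D, G.pi (∏ i ∈ s, f i) = ∏ i ∈ s, G.pi (f i) := by
  classical
  induction s using Finset.induction_on with
  | empty => simpa using ev_pi_one
  | insert i s hi ih =>
    filter_upwards [ih, ev_pi_mul (f i) (∏ i ∈ s, f i)] with ω h1 h2
    rw [Finset.prod_insert hi, Finset.prod_insert hi, h2, h1]

theorem ev_pi_pow (a : K) (n : ℕ) : ∀ᶠ G in gF D, G.pi (a ^ n) = G.pi a ^ n := by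
  simpa using ev_pi_prod (D := D) (Finset.range n) fun _ => a

theorem ev_pi_aeval {σ : Type} (z : σ → K) (f : MvPolynomial σ L) :
    ∀ᶠ G in gF D, G.pi (aeval z f) = aeval (fun i => G.pi (z i)) (G.ω.red0 f) := by
  induction f using MvPolynomial.induction_on with
  | C a => simpa [red0_C] using ev_pi_const a
  | add f g hf hg =>
    filter_upwards [hf, hg, ev_pi_add (aeval z f) (aeval z g), ev_g (ev_red0_add f g)]
      with G h1 h2 h3 h4
    rw [map_add, h3, h4, map_add, h1, h2]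
  | mul_X f i hf =>
    filter_upwards [hf, ev_pi_mul (aeval z f) (z i), ev_g (ev_red0_mul f (X i))] with G h1 h2 h3
    rw [map_mul, aeval_X, h2, h3, map_mul, red0_X, aeval_X, h1]

theorem ev_pi_Rc (c : Fin (N + 1)) {b : K} (h : b ∈ Rc L D.Q.y c) :
    ∀ᶠ G in gF D, G.pi b ∈ Rc G.k G.y c := by
  rw [Rc, Algebra.adjoin_range_eq_range_aeval] at h
  obtain ⟨f, rfl⟩ := h
  filter_upwards [ev_pi_aeval (fun b => D.Q.y b / D.Q.y c) f, ev_pi_y,
    eventually_all.2 fun b => ev_pi_div' (D.Q.y b) (D.Q.y c)] with G h1 h2 h3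
  rw [Rc, Algebra.adjoin_range_eq_range_aeval]
  simp only [h3, h2] at h1
  exact ⟨G.ω.red0 f, h1.symm⟩

theorem ev_pi_det {n : Type} [Fintype n] [DecidableEq n] (A : Matrix n n K) :
    ∀ᶠ G in gF D, G.pi A.det = (A.map G.pi).det := by
  simp only [Matrix.det_apply']
  filter_upwards [ev_pi_sum Finset.univ fun s : Equiv.Perm n =>
      ((Equiv.Perm.sign s : ℤ) : K) * ∏ i, A (s i) i,
    eventually_all.2 fun s : Equiv.Perm n => ev_pi_mul ((Equiv.Perm.sign s : ℤ) : K) (∏ i, A (s i) i),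
    eventually_all.2 fun s : Equiv.Perm n => ev_pi_prod Finset.univ fun i => A (s i) i,
    ev_pi_one, ev_pi_neg 1] with G h1 h2 h3 h4 h5
  rw [h1]
  refine Finset.sum_congr rfl fun s _ => ?_
  rw [h2, h3]
  rcases Int.units_eq_one_or (Equiv.Perm.sign s) with h | h <;> simp [h, h4, h5]

theorem ev_pi_minor : ∀ᶠ G in gF D, ∀ (i : Fin (d + 1)) a,
    G.pi (minor D.Q.J i a) = minor G.J i a :=
  eventually_all.2 fun i => eventually_all.2 fun a => by
    filter_upwards [ev_pi_det (Matrix.of fun r s : Fin (d + 1) =>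
      if (s : ℕ) < i then (if r = s then 1 else 0) else D.Q.J r (a s)), ev_pi_zero, ev_pi_one]
      with G h1 h2 h3
    rw [minor, h1, minor]
    congr 1; ext r s
    simp only [Matrix.map_apply, Matrix.of_apply]
    split_ifs
    exacts [h3, h2, rfl]

theorem ev_pi_gs : ∀ᶠ G in gF D, ∀ i a, G.pi (gs D.Q.J D.Q.y D.h i a) = gs G.J G.y G.h i a := by
  filter_upwards [ev_pi_minor, ev_pi_y] with G h1 h2
  rintro (i | _ | _) a
  exacts [h1 _ _, h2 _, rfl]

end Pool.Agent.P.MP_6f117a_ag.Mid
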