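import Pool.Agent.P.MP_6f117a_ag.M.Iface

/-! Step PLU0 on models and their reductions. -/

namespace Pool.Agent.P.MP_6f117a_ag.Mid

open MvPolynomial Filter Sp EX PJ Module

universe u

namespace Plu0A

variable {L K : Type u} [Field L] [Field K] [Algebra L K]

theorem mem_Rc {M : ℕ} (y : Fin M → K) (c : Fin M) (T : MvPolynomial (Fin M) L) :
    aeval (fun b => y b / y c) T ∈ Rc L y c := by
  rw [Rc, Algebra.adjoin_range_eq_range_aeval]
  exact ⟨T, rfl⟩

theorem div_hom {σ : Type} {G : MvPolynomial σ L} {e : ℕ} (h : G.IsHomogeneous e) (c : K)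
    (x : σ → K) : aeval (fun i => x i / c) G = aeval x G / c ^ e := by
  rw [aeval_def, aeval_def, eval₂_eq, eval₂_eq, Finset.sum_div]
  refine Finset.sum_congr rfl fun m hm => ?_
  rw [h.degree_eq_sum_deg_support hm]
  simp only [div_pow, Finset.prod_div_distrib, Finset.prod_pow_eq_pow_sum, mul_div_assoc]

theorem prod_mem {R : Subalgebra L K} (W : Submodule R K) {r : ℕ} (x : Fin r → K)
    (h : ∀ s, x s ∈ W) : ∏ s, x s ∈ W ^ r := by
  induction r with
  | zero => simp [Submodule.one_le.1 le_rfl]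
  | succ r ih =>
    rw [Fin.prod_univ_castSucc, pow_succ]
    exact Submodule.mul_mem_mul (ih _ fun _ => h _) (h _)

end Plu0A

open Plu0A in
theorem pPLU0 (L : Type u) [Field L] [IsAlgClosed L] [CharZero L]
    (hJAC : S_JAC L) (hLOCG : S_LOCG L) (hPLUA : S_PLUA L) :
    S_PLU0 L := by
  rintro K _ _ d N Q ⟨D, r, h₀, h, hr, h0, c0, c1, hi⟩
  have hμ := ((hJAC K d N Q).2.2 D).1
  obtain ⟨μ, e0⟩ : ∃ μ, μ = (Matrix.of fun i j => D i (Q.x j)).det := ⟨_, rfl⟩
  rw [← e0] at hμ
  have key : ∀ s ∈ canSec L Q.y D r, ∀ c, Q.y c ≠ 0 → s / μ ^ r * Q.y c ^ (r * (d + 1)) ∈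
      Submodule.span (Rc L Q.y c) (Set.range (minor Q.J 0)) ^ r := fun s hs c hc => by
    set W := Submodule.span (Rc L Q.y c) (Set.range (minor Q.J 0))
    have sm : ∀ (T : MvPolynomial (Fin (N + 1)) L) {x : K}, x ∈ W ^ r →
        aeval (fun b => Q.y b / Q.y c) T * x ∈ W ^ r := fun T x hx =>
      Submodule.smul_mem _ (⟨_, mem_Rc Q.y c T⟩ : Rc L Q.y c) hx
    have := hLOCG K _ Q.y c hc ((W ^ r).comap (LinearMap.toSpanSingleton _ _
      (s / μ ^ r * Q.y c ^ (r * (d + 1))))) fun a ha hac => by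
        suffices ∃ T : MvPolynomial (Fin (N + 1)) L, eval a T ≠ 0 ∧ aeval (fun b => Q.y b / Q.y c)
            T * (s / μ ^ r * Q.y c ^ (r * (d + 1))) ∈ W ^ r by
          obtain ⟨T, h1, h2⟩ := this
          exact ⟨T, h1, ⟨_, mem_Rc Q.y c T⟩, h2, rfl⟩
        replace hs := hs a ha
        induction hs using AddSubgroup.closure_induction with
        | mem x hx =>
          obtain ⟨b, f, ⟨e, P, P', p1, p2, p3, rfl⟩, hf, rfl⟩ := hx
          choose T t1 t2 using fun s => hPLUA K d N Q D c a hc ha hac (f s) (hf s)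
          have p4 : aeval Q.y P' ≠ 0 := fun e => p3 (ha.2 _ ⟨⟨_, p2⟩, e⟩)
          refine ⟨P' * ∏ s, T s, by
            rw [map_mul, map_prod]
            exact mul_ne_zero p3 (Finset.prod_ne_zero_iff.2 fun s _ => t1 s), ?_⟩
          convert sm P (prod_mem W _ t2) using 1
          simp only [map_mul, map_prod, div_hom p1, div_hom p2, Finset.prod_mul_distrib, ← e0,
            Finset.prod_div_distrib, Finset.prod_const, Finset.card_univ, Fintype.card_fin]
          generalize ∏ s, aeval (fun b => Q.y b / Q.y c) (T s) = w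
          field_simp
          ring
        | zero => exact ⟨1, by simp, by simp⟩
        | add x y _ _ hx hy =>
          obtain ⟨S, s1, s2⟩ := hx
          obtain ⟨T, t1, t2⟩ := hy
          refine ⟨S * T, by rw [map_mul]; exact mul_ne_zero s1 t1, ?_⟩
          convert add_mem (sm T s2) (sm S t2) using 1
          rw [map_mul]; ring
        | neg x _ hx =>
          obtain ⟨S, s1, s2⟩ := hx
          exact ⟨S, s1, by convert neg_mem s2 using 1; ring⟩
    simpa using (this.ge trivial : (1 : Rc L Q.y c) ∈ _)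
  refine ⟨r, Fin.cons (h₀ / μ ^ r) fun j => h j / μ ^ r, hr, div_ne_zero h0 (pow_ne_zero _ hμ), ?_,
    fun c hc j => Fin.cases (key _ c0 c hc) (fun j => key _ (c1 j) c hc) j⟩
  simpa [div_div_div_cancel_right₀ (pow_ne_zero r hμ)] using hi

end Pool.Agent.P.MP_6f117a_ag.Mid
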