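import Pool.Agent.P.MP_6f117a_ag.M.Iface

/-! Step SCALE on models and their reductions. -/

namespace Pool.Agent.P.MP_6f117a_ag.Mid

open MvPolynomial Filter Sp EX PJ Module

universe u

namespace ScaleA

variable {L K : Type u} [Field L] [Field K] [Algebra L K] {σ : Type}

theorem aeval_smul (c : K) (y : σ → K) {g : MvPolynomial σ L} {e : ℕ} (h : g.IsHomogeneous e) :
    aeval (fun i => c * y i) g = c ^ e * aeval y g := by
  rw [aeval_def, aeval_def, eval₂_eq, eval₂_eq, Finset.mul_sum]
  refine Finset.sum_congr rfl fun m hm => ?_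
  have : ∑ i ∈ m.support, m i = e := by
    simpa [Finsupp.weight_apply, Finsupp.sum] using h (mem_support_iff.1 hm)
  simp only [mul_pow, Finset.prod_mul_distrib, Finset.prod_pow_eq_pow_sum, this]
  ring

variable {M : ℕ} (z : Fin M → K) {c : K} (hc : c ≠ 0)
include hc

theorem form : Form L (fun a => c * z a) = Form L z := by
  ext G
  refine and_congr_right fun ⟨e, h⟩ => ?_
  rw [aeval_smul c z h, mul_eq_zero, or_iff_right (pow_ne_zero _ hc)]

theorem onY : OnY L (fun a => c * z a) = OnY L z := by
  ext a; rw [OnY, OnY, form z hc]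

theorem loc : locRing L (fun a => c * z a) = locRing L z := by
  ext a f
  refine exists₃_congr fun e P Q => and_congr_right fun h1 => and_congr_right fun h2 => ?_
  rw [aeval_smul c z h1, aeval_smul c z h2, mul_div_mul_left _ _ (pow_ne_zero _ hc)]

end ScaleA

open ScaleA in
theorem pSCALE (L : Type u) [Field L] [IsAlgClosed L] [CharZero L] :
    S_SCALE L := by
  intro K _ _ d M z c hc
  refine ⟨fun ⟨h1, h2, h3, h4⟩ => ⟨fun h => h1 (funext fun a => ?_), ?_, h3, ?_⟩, fun h => ?_⟩
  · exact (mul_eq_zero.1 (congrFun h a)).resolve_left hc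
  · simpa only [mul_div_mul_left _ _ hc] using h2
  · rwa [onY z hc, form z hc]
  · simpa only [BigCan, canSec, onY z hc, loc z hc] using h

end Pool.Agent.P.MP_6f117a_ag.Mid
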